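import Pool.Agent.Helper82.EC3.St
import Pool.Agent.Helper82.EC2.M_Debt2
import Pool.Agent.Helper82.EC.Basic

/-!
# MP_47b98d_co, third generation: a debtor in need gets enough
-/

set_option autoImplicit false

open Finset
open scoped Classical

namespace Pool.Agent.Helper82.EC3

open EC EC.MGraph EC2

/-- a debtor in need gets enough -/
theorem stBad (hLs : StLs) (hNC : StNC) (hAc : StAc2) (hPay : StPay) (hMp : StMp2) : StBad := by
  intro V E _ _ G D μ dt hT h240 h20 hμ w hw hng hs9
  have hD2 : (2 : ℝ) ≤ D := by exact_mod_cast hT.two_le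
  have hDpos : (0 : ℝ) < D := by linarith
  have hQ : 3 * qE D = 2 * (D : ℝ) + 2 := by unfold qE; ring
  have hQD : qE D ≤ D := by linarith
  have hal : 0 ≤ al D (qE D) := div_nonneg (by linarith) hDpos.le
  have h20' : 20 * (μ : ℝ) ≤ D := by exact_mod_cast h20
  have hμ' : (1 : ℝ) ≤ μ := by exact_mod_cast hμ
  obtain ⟨hR, hS, hsp⟩ := id hw
  obtain ⟨A1, A2, A3, A4, -, -, -, -, -⟩ := hAc V E G D μ dt (qE D) hT w hR hS
  set s := G.deg (dt.xx w) with hs
  set m := mm dt (qE D) w with hm
  set j := jj dt (qE D) w with hj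
  set h := G.mult (dt.xx w) w with hh
  have hs1 : 1 ≤ s := by omega
  have hs1' : (1 : ℝ) ≤ s := by exact_mod_cast hs1
  have hs9' : 4 * (s : ℝ) < 9 * μ := by exact_mod_cast hs9
  have hdw : G.deg w ≤ D := dt.deg_le w
  have h330 : 3 * s + 30 ≤ D := by omega
  obtain ⟨t, ht⟩ : ∃ t, t = D - G.deg w := ⟨_, rfl⟩
  rw [← ht] at A2
  have htr : (t : ℝ) = D - G.deg w := by rw [ht, Nat.cast_sub hdw]
  have hQQ := Debt2Aux.QQ_le hPay dt (qE D) hT w hS hs1
  have hspEE : - spare dt (qE D) w ≤ EE D (qE D) s m j t := by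
    unfold spare EE
    rw [if_pos hS, htr]
    have : QQ G D (qE D) w ≤ m * gg (qE D) s := hQQ
    linarith
  have hEE : 0 < EE D (qE D) s m j t := by linarith
  have hN0 : (0 : ℝ) < 3 * (μ : ℝ) + s - 1 := by linarith
  set N : ℝ := 3 * (μ : ℝ) + s - 1 with hN
  set a : ℝ := (D : ℝ) - qE D with ha
  have ha0 : 0 ≤ a := by linarith
  have hND : N < D := by linarith
  set R : ℝ := N / D with hRdef
  have hR0 : 0 < R := div_pos hN0 hDpos
  have hR1 : R < 1 := (div_lt_one hDpos).2 hND
  have h1R : 0 < 1 - R := by linarith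
  -- the numerical inequality
  have hsum : ∑ f ∈ dt.FF w, ((D : ℝ) - qE D - capa G D (qE D) (G.opp w f)) ≤
      (1 - R) * (((D : ℝ) + 1 - s) * a - N * EE D (qE D) s m j t) := by
    have h1 := hLs V E G D μ dt hT hμ w hR hS h330
    have h2 := hNC D μ s m j t h h240 h20 hs9 A2 A3 A4 (dt.mult_le _ _) hEE
    rw [htr] at h2
    rw [htr]
    exact h1.trans h2
  have hcard : ((dt.FF w).card : ℝ) = (D : ℝ) + 1 - s := by
    have h1 := (dt.fan w).card_eq
    have h2 : ((dt.FF w).card : ℝ) + s = D + 1 := by exact_mod_cast h1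
    linarith
  -- one edge
  have hone : ∀ f ∈ dt.FF w,
      (a - ((D : ℝ) - qE D - capa G D (qE D) (G.opp w f)) / (1 - R)) / N ≤
        tau3 dt (qE D) w f := by
    intro f hf
    have hmem : w ∈ G.ends f := mem_inc.1 ((dt.fan w).sub hf)
    have hoo : G.opp (G.opp w f) f = w := opp_opp hmem
    have hur : qE D ≤ G.deg (G.opp w f) := A1 f hf
    set u := G.opp w f with hu
    have hask : f ∈ Ask dt (qE D) u := by
      unfold Ask
      rw [mem_filter]
      refine ⟨mem_inc.2 (opp_mem hmem), ?_⟩
      rw [hoo]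
      exact ⟨hw, hf⟩
    have hhot : Hot dt (qE D) u := ⟨f, hask, by rw [hoo]; exact hng⟩
    have hs0le : s0 dt (qE D) u ≤ s := Nat.sInf_le ⟨f, hask, by rw [hoo]⟩
    have hs0' : (s0 dt (qE D) u : ℝ) ≤ s := by exact_mod_cast hs0le
    have hs00 : (0 : ℝ) ≤ s0 dt (qE D) u := Nat.cast_nonneg _
    have hNst0 : 0 < Nst dt (qE D) u := by unfold Nst; linarith
    have hNstN : Nst dt (qE D) u ≤ N := by unfold Nst; rw [hN]; linarith
    have hQQ0 : 0 ≤ QQ G D (qE D) u := by
      unfold QQ
      exact Finset.sum_nonneg fun g _ => (hPay V E G D μ dt (qE D) hT u (G.opp u g)).1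
    have hdu : (G.deg u : ℝ) ≤ D := by exact_mod_cast dt.deg_le u
    set c := capa G D (qE D) u with hc
    set L : ℝ := (D : ℝ) - qE D - c with hL
    have hL0 : 0 ≤ L := by
      rw [hL, hc]; unfold capa; linarith
    have hLR : L ≤ L / (1 - R) := by
      rw [le_div_iff₀ h1R]
      nlinarith
    unfold tau3
    rw [← hu]
    by_cases hst : Strong dt (qE D) u
    · rw [if_pos hst]
      have hc0 : 0 ≤ c := (mul_nonneg hal hNst0.le).trans hst.2
      calc (a - L / (1 - R)) / N ≤ c / N := by
            apply div_le_div_of_nonneg_right _ hN0.le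
            linarith
        _ ≤ c / Nst dt (qE D) u := div_le_div_of_nonneg_left hc0 hNst0 hNstN
    · rw [if_neg hst]
      have hcl : c < al D (qE D) * Nst dt (qE D) u := by
        by_contra hcon
        exact hst ⟨hhot, not_lt.1 hcon⟩
      have hcR : c < a * R := by
        refine hcl.trans_le ?_
        have h1 : al D (qE D) * Nst dt (qE D) u ≤ al D (qE D) * N :=
          mul_le_mul_of_nonneg_left hNstN hal
        have h2 : al D (qE D) * N = a * R := by
          unfold EC2.al; rw [hRdef]; ring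
        linarith
      have hneg : a - L / (1 - R) < 0 := by
        have h1 : a * (1 - R) < L := by
          have : L = a - c := by rw [hL]
          rw [this]; linarith
        have h2 : a < L / (1 - R) := by rwa [lt_div_iff₀ h1R]
        linarith
      have htau : 0 ≤ tau dt (qE D) w f := by
        unfold tau
        rw [← hu]
        by_cases h1 : Sm dt (qE D) u ∧ f ∉ dt.FF u
        · rw [if_pos h1]; exact hal
        rw [if_neg h1]
        unfold kap
        by_cases h2 : Sm dt (qE D) u
        · rw [if_pos h2]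
          have h3 : (G.deg (dt.xx u) : ℝ) ≤ D := by exact_mod_cast dt.deg_le _
          exact div_nonneg (le_max_left _ _) (by linarith)
        · rw [if_neg h2]
          have h3 := hMp V E G D μ dt (qE D) hT u hur h2
          unfold spare
          rw [if_neg h2, sub_zero]
          exact div_nonneg (by linarith) hDpos.le
      exact (div_neg_of_neg_of_pos hneg hN0).le.trans htau
  -- the sum
  have htot := Finset.sum_le_sum hone
  rw [← Finset.sum_div, Finset.sum_sub_distrib, ← Finset.sum_div, Finset.sum_const, nsmul_eq_mul,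
    hcard] at htot
  have hfin : EE D (qE D) s m j t ≤ (((D : ℝ) + 1 - s) * a -
      (∑ f ∈ dt.FF w, ((D : ℝ) - qE D - capa G D (qE D) (G.opp w f))) / (1 - R)) / N := by
    rw [le_div_iff₀ hN0]
    have h1 : (∑ f ∈ dt.FF w, ((D : ℝ) - qE D - capa G D (qE D) (G.opp w f))) / (1 - R) ≤
        ((D : ℝ) + 1 - s) * a - N * EE D (qE D) s m j t := by
      rw [div_le_iff₀ h1R]
      linarith
    linarith
  linarith

end Pool.Agent.Helper82.EC3
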