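import Pool.Agent.Helper82.EC3.St

/-!
# MP_47b98d_co, third generation: module FRE, a fresh colour
-/

set_option autoImplicit false

open Finset
open scoped Classical

namespace Pool.Agent.Helper82.EC3

open EC EC.MGraph EC2

/-- the number of colours seen at a vertex is at most the degree -/
theorem card_seen_FRE {V E : Type} [Fintype V] [Fintype E] (G : MGraph V E) {D : ℕ}
    (φ : E → Option (Fin D)) (v : V) :
    (univ.filter fun c : Fin D => ¬ G.Miss φ v c).card ≤ G.deg v := by
  have h1 : (univ.filter fun c : Fin D => ¬ G.Miss φ v c).image some ⊆ (G.inc v).image φ := by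
    intro o ho
    obtain ⟨c, hc, rfl⟩ := mem_image.1 ho
    have h2 := (mem_filter.1 hc).2
    unfold Miss at h2
    push Not at h2
    obtain ⟨e, he, hec⟩ := h2
    exact mem_image.2 ⟨e, mem_inc.2 he, hec⟩
  calc (univ.filter fun c : Fin D => ¬ G.Miss φ v c).card
      = ((univ.filter fun c : Fin D => ¬ G.Miss φ v c).image some).card :=
        (card_image_of_injective _ (Option.some_injective _)).symm
    _ ≤ ((G.inc v).image φ).card := card_le_card h1
    _ ≤ (G.inc v).card := card_image_le

theorem stFresh : StFresh := by
  intro c V E _ _ G D T te hpos φ C m hok hcap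
  -- the colours to avoid
  let L : Finset ℕ := (range c.n).filter fun i => c.light.testBit i = true
  let Z : Finset (Fin D) :=
    C.toFinset ∪ L.biUnion fun i => univ.filter fun c : Fin D => ¬ G.Miss φ (T i) c
  have hZ : Z.card < D := by
    calc Z.card ≤ C.toFinset.card +
          (L.biUnion fun i => univ.filter fun c : Fin D => ¬ G.Miss φ (T i) c).card :=
          card_union_le _ _
      _ ≤ C.length + ∑ i ∈ L, G.deg (T i) := by
          refine Nat.add_le_add C.toFinset_card_le ?_
          exact card_biUnion_le.trans (sum_le_sum fun i _ => card_seen_FRE G φ (T i))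
      _ < D := by
          have h1 : ∑ i ∈ L, G.deg (T i) + c.cap ≤ D := hpos.room
          have h2 := hok.len
          omega
  obtain ⟨γ, hγ⟩ : ∃ γ : Fin D, γ ∉ Z := by
    by_contra hcon
    push Not at hcon
    have h1 : Z = univ := eq_univ_iff_forall.2 hcon
    rw [h1, card_univ, Fintype.card_fin] at hZ
    exact lt_irrefl _ hZ
  have hγC : γ ∉ C := fun h => hγ (mem_union_left _ (List.mem_toFinset.2 h))
  have hγL : ∀ i, i < c.n → c.light.testBit i = true → G.Miss φ (T i) γ := by
    intro i hi hb
    by_contra hcon
    exact hγ (mem_union_right _ (mem_biUnion.2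
      ⟨i, mem_filter.2 ⟨mem_range.2 hi, hb⟩, mem_filter.2 ⟨mem_univ _, hcon⟩⟩))
  refine ⟨γ, hok.proper, hok.unc, ?_, ?_, ?_⟩
  · rw [List.nodup_append]
    refine ⟨hok.nodup, List.nodup_singleton _, ?_⟩
    intro x hx y hy hxy
    rw [List.mem_singleton] at hy
    exact hγC (hy ▸ hxy ▸ hx)
  · rw [List.length_append, List.length_append, hok.len]
    rfl
  · intro k hk i hi hb
    rw [List.length_append, List.length_singleton] at hk
    rcases Nat.lt_or_ge k C.length with h | h
    · rw [List.getElem_append_left h]
      refine hok.miss k h i hi ?_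
      rw [List.getD_append _ _ _ _ (by rw [← hok.len]; exact h)] at hb
      exact hb
    · have hkC : k = C.length := by omega
      subst hkC
      rw [List.getElem_append_right (le_refl _)]
      have h2 : (m ++ [c.light]).getD C.length 0 = c.light := by
        rw [List.getD_append_right _ _ _ _ (by rw [hok.len]), hok.len, Nat.sub_self]
        rfl
      rw [h2] at hb
      simpa using hγL i hi hb

end Pool.Agent.Helper82.EC3
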