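import Pool.Agent.Helper82.EC3.St

/-!
# MP_47b98d_co, third generation: strong vertices give at least as much as with the simple rule
-/

set_option autoImplicit false

open Finset
open scoped Classical

namespace Pool.Agent.Helper82.EC3

open EC EC.MGraph EC2

/-- strong vertices give at least as much as with the simple rule (the hypothesis `StMp2` is not
needed) -/
theorem stGe' (hAc : StAc2) : StGe := by
  intro V E _ _ G D μ dt hT h20 hμ hGood w hw f hf
  have hD2 : (2 : ℝ) ≤ D := by exact_mod_cast hT.two_le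
  have hDpos : (0 : ℝ) < D := by linarith
  have hQ : 3 * qE D = 2 * (D : ℝ) + 2 := by unfold qE; ring
  have hQD : qE D ≤ D := by linarith
  have hal : 0 ≤ al D (qE D) := div_nonneg (by linarith) hDpos.le
  have h20' : 20 * (μ : ℝ) ≤ D := by exact_mod_cast h20
  have hμ' : (1 : ℝ) ≤ μ := by exact_mod_cast hμ
  unfold tau3
  by_cases hS : Strong dt (qE D) (G.opp w f)
  swap
  · rw [if_neg hS]
  rw [if_pos hS]
  set u := G.opp w f with hu
  obtain ⟨⟨f', hf', hng⟩, hcap⟩ := hS
  have hf'2 : Deb dt (qE D) (G.opp u f') := by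
    rw [Ask, mem_filter] at hf'
    exact hf'.2.1
  have hSm : (G.deg (dt.xx (G.opp u f')) : ℝ) + qE D < D + 1 := hf'2.2.1
  have hs3 : 3 * G.deg (dt.xx (G.opp u f')) ≤ D := by
    have : 3 * (G.deg (dt.xx (G.opp u f')) : ℝ) < D + 1 := by linarith
    have h' : 3 * G.deg (dt.xx (G.opp u f')) < D + 1 := by exact_mod_cast this
    omega
  have hs9 : 4 * G.deg (dt.xx (G.opp u f')) < 9 * μ := by
    by_contra h
    exact hng (hGood _ hs3 (not_lt.1 h))
  have hs9' : 4 * (G.deg (dt.xx (G.opp u f')) : ℝ) < 9 * μ := by exact_mod_cast hs9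
  have hs0 : s0 dt (qE D) u ≤ G.deg (dt.xx (G.opp u f')) := Nat.sInf_le ⟨f', hf', rfl⟩
  have hs0' : (s0 dt (qE D) u : ℝ) ≤ G.deg (dt.xx (G.opp u f')) := by exact_mod_cast hs0
  have hs00 : (0 : ℝ) ≤ s0 dt (qE D) u := by positivity
  have hN0 : 0 < Nst dt (qE D) u := by unfold Nst; linarith
  have hN1 : Nst dt (qE D) u ≤ D / 2 := by unfold Nst; linarith
  have hNQ : Nst dt (qE D) u ≤ qE D := by linarith
  have hcap0 : 0 ≤ capa G D (qE D) u := (mul_nonneg hal hN0.le).trans hcap
  unfold tau
  rw [← hu]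
  by_cases h1 : Sm dt (qE D) u ∧ f ∉ dt.FF u
  · rw [if_pos h1, le_div_iff₀ hN0]
    exact hcap
  rw [if_neg h1]
  unfold kap
  by_cases h2 : Sm dt (qE D) u
  · rw [if_pos h2]
    have h3 : spare dt (qE D) u ≤ capa G D (qE D) u := by
      unfold spare capa
      rw [if_pos h2]
      have : 0 ≤ al D (qE D) * (jj dt (qE D) u : ℝ) := by positivity
      linarith
    have h4 : max 0 (spare dt (qE D) u) ≤ capa G D (qE D) u := max_le hcap0 h3
    have h5 : Nst dt (qE D) u ≤ (D : ℝ) - G.deg (dt.xx u) + 1 := by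
      have h2' : (G.deg (dt.xx u) : ℝ) + qE D < D + 1 := h2
      linarith
    exact div_le_div₀ hcap0 h4 hN0 h5
  · rw [if_neg h2]
    have h3 : spare dt (qE D) u = capa G D (qE D) u := by
      unfold spare capa
      rw [if_neg h2, sub_zero]
    rw [h3]
    exact div_le_div_of_nonneg_left hcap0 hN0 (by linarith)

/-- strong vertices give at least as much as with the simple rule -/
theorem stGe (hAc : StAc2) (_ : StMp2) : StGe := stGe' hAc

end Pool.Agent.Helper82.EC3
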