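import Pool.Agent.Helper82.EC3.St

/-!
# MP_47b98d_co, third generation: the machine is sound
-/

set_option autoImplicit false

open Finset
open scoped Classical

namespace Pool.Agent.Helper82.EC3

open EC EC.MGraph EC2

theorem stGM (hWin : StWin) (hFresh : StFresh) (hRev : StRev) : StGM := by
  intro c tab htab V E _ _ G D T te hpos
  have key : ∀ (l : List (List ℕ × Op)) (pre : List (List ℕ)), tabOk c pre l = true →
      (∀ j, j < pre.length → ∀ (φ : E → Option (Fin D)) (C : List (Fin D)),
        ¬ Ok c G D T te φ C (pre.getD j [])) →
      ∀ q ∈ l, ∀ (φ : E → Option (Fin D)) (C : List (Fin D)), ¬ Ok c G D T te φ C q.1 := by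
    intro l
    induction l with
    | nil =>
      intro pre _ _ q hq
      exact absurd hq List.not_mem_nil
    | cons q l ih =>
      intro pre h hpre q' hq'
      obtain ⟨m, o⟩ := q
      rw [tabOk, Bool.and_eq_true] at h
      obtain ⟨h1, h2⟩ := h
      have hm : ∀ (φ : E → Option (Fin D)) (C : List (Fin D)), ¬ Ok c G D T te φ C m := by
        intro φ C hok
        cases o with
        | win a =>
          rw [opOk] at h1
          exact hWin c V E G D T te hpos φ C m a hok h1
        | move x y r =>
          rw [opOk, Bool.and_eq_true, Bool.and_eq_true, Bool.or_eq_true, Bool.and_eq_true,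
            Bool.and_eq_true, Bool.and_eq_true] at h1
          obtain ⟨⟨hxy, hx⟩, h3⟩ := h1
          have hxy' : x ≠ y := by simpa using hxy
          have hx' : x < m.length := by simpa using hx
          rcases h3 with ⟨hy, hr⟩ | ⟨⟨hy, hcap⟩, hr⟩
          · have hy' : y < m.length := by simpa using hy
            obtain ⟨ψ, C', j, hj, hok'⟩ := hRev c V E G D T te hpos φ C m x y pre r hok hxy' hx'
              hy' hr
            exact hpre j hj ψ C' hok'
          · have hy' : y = m.length := by simpa using hy
            have hcap' : m.length < c.cap := by simpa using hcap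
            obtain ⟨γ, hok1⟩ := hFresh c V E G D T te hpos φ C m hok hcap'
            obtain ⟨ψ, C', j, hj, hok'⟩ := hRev c V E G D T te hpos φ (C ++ [γ]) (m ++ [c.light])
              x y pre r hok1 hxy' (by rw [List.length_append]; omega)
              (by rw [List.length_append, List.length_singleton]; omega) hr
            exact hpre j hj ψ C' hok'
      rcases List.mem_cons.1 hq' with rfl | hq'
      · exact hm
      · refine ih (pre ++ [m]) h2 ?_ q' hq'
        intro j hj
        rw [List.length_append, List.length_singleton] at hj
        rcases Nat.lt_or_ge j pre.length with h | h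
        · rw [List.getD_append _ _ _ _ h]
          exact hpre j h
        · have hj' : j = pre.length := by omega
          subst hj'
          rw [List.getD_append_right _ _ _ _ le_rfl]
          simpa using hm
  exact key tab [] htab (fun j hj => absurd hj (Nat.not_lt_zero j))

end Pool.Agent.Helper82.EC3
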