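import Pool.Agent.Helper82.EC3.St
import Pool.Agent.Helper82.EC.Basic

/-!
# EC3: module H1M
-/

set_option autoImplicit false

open Finset
open scoped Classical

namespace Pool.Agent.Helper82.EC3

open EC EC.MGraph EC2

private theorem sum_mult_le {V E : Type} [Fintype V] [Fintype E] (G : MGraph V E) (x : V)
    (W : Finset V) : ∑ w ∈ W, G.mult x w ≤ G.deg x := by
  unfold MGraph.mult MGraph.deg
  rw [← Finset.card_biUnion]
  · refine Finset.card_le_card fun f hf => ?_
    obtain ⟨w, -, hw⟩ := Finset.mem_biUnion.1 hf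
    exact mem_inc.2 (mem_ends_left (Finset.mem_filter.1 hw).2)
  · intro w _ w' _ hne
    rw [Function.onFun, Finset.disjoint_left]
    intro f hf hf'
    have h1 := (Finset.mem_filter.1 hf).2
    have h2 := (Finset.mem_filter.1 hf').2
    apply hne
    rw [← opp_eq h1, ← opp_eq h2]

private theorem card_opp_le {V E : Type} [Fintype V] [Fintype E] {G : MGraph V E} {D μ : ℕ}
    (dt : Data G D μ) (u w : V) : ((G.inc u).filter fun f => G.opp u f = w).card ≤ μ := by
  refine (Finset.card_le_card fun f hf => ?_).trans (dt.mult_le u w)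
  rw [Finset.mem_filter, mem_inc] at hf
  rw [Finset.mem_filter]
  exact ⟨Finset.mem_univ _, by rw [opp_spec hf.1, hf.2]⟩

theorem stH1 (hMany : StMany) (_hAc : StAc2) : StH1 := by
  intro V E _ _ G D μ dt hF hThr b u f₀ hb hf₀ hu hmin h3
  set Q := qE D with hQ
  have h3Q : 3 * Q = 2 * (D : ℝ) + 2 := by rw [hQ]; unfold qE; ring
  set x := dt.xx b with hx
  set s := G.deg x with hs
  have hfan := dt.fan b
  have humem : u ∈ (dt.FF b).image (G.opp b) := Finset.mem_image.2 ⟨f₀, hf₀, hu⟩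
  obtain ⟨B, hBsub, hBcard, hB⟩ := hF b u humem
  set S : Finset V := univ.filter fun p => s + 2 * G.deg p + 10 ≤ D with hS
  have hSS : ∀ p ∈ S, ∀ q ∈ S, G.deg x + G.deg p + G.deg q + 10 ≤ D := by
    intro p hp q hq
    have h1 := (Finset.mem_filter.1 hp).2
    have h2 := (Finset.mem_filter.1 hq).2
    omega
  have hsmall : ∀ p, (G.deg p : ℝ) + Q < D + 1 → p = x ∨ p ∈ S := by
    intro p hp
    right
    rw [hS, Finset.mem_filter]
    refine ⟨Finset.mem_univ _, ?_⟩
    have h1 : (3 * G.deg p : ℝ) < D + 1 := by linarith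
    have h2 : 3 * G.deg p < D + 1 := by exact_mod_cast h1
    omega
  set W₀ : Finset V := (((Ask dt Q u) \ B).filter fun f => G.opp u f ≠ b).image (G.opp u) with hW₀
  have hW₀mem : ∀ w ∈ W₀, Deb dt Q w ∧ w ≠ b ∧ (∃ g, g ∉ B ∧ G.ends g = s(u, w)) ∧
      s ≤ G.deg (dt.xx w) := by
    intro w hw
    obtain ⟨f, hf, rfl⟩ := Finset.mem_image.1 hw
    obtain ⟨hf1, hf2⟩ := Finset.mem_filter.1 hf
    obtain ⟨hf3, hf4⟩ := Finset.mem_sdiff.1 hf1
    have hf5 := Finset.mem_filter.1 hf3
    exact ⟨hf5.2.1, hf2, ⟨f, hf4, opp_spec (mem_inc.1 hf5.1)⟩, hmin f hf3⟩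
  have hcard2 : W₀.card ≤ 2 := by
    by_contra hcon
    push Not at hcon
    obtain ⟨W, hWsub, hWcard⟩ := Finset.exists_subset_card_eq (show 3 ≤ W₀.card by omega)
    have hxW : x ∉ W := by
      intro hxW
      have h1 := (hW₀mem x (hWsub hxW)).1.1
      have h2 := hb.2.1
      unfold Sm at h2
      have h4 := hThr.lo
      linarith
    have hbW : b ∉ W := fun hbW => (hW₀mem b (hWsub hbW)).2.1 rfl
    have hI := hB S W hSS hxW hbW fun w hw => (hW₀mem w (hWsub hw)).2.2.1
    have hMw : ∀ w ∈ W, s + 1 ≤ 2 * (G.degTo w (S.erase x) + G.mult x w) := by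
      intro w hw
      have h1 := hMany V E G D μ dt Q hThr h3Q w x (hW₀mem w (hWsub hw)).1 S hsmall
      have h2 := (hW₀mem w (hWsub hw)).2.2.2
      omega
    have hMb : s + 1 ≤ 2 * (G.degTo b (S.erase x) + G.mult x b) :=
      hMany V E G D μ dt Q hThr h3Q b x hb S hsmall
    have hmult := sum_mult_le G x (insert b W)
    rw [Finset.sum_insert hbW] at hmult
    have hsumW : ∑ w ∈ W, (s + 1) ≤ ∑ w ∈ W, 2 * (G.degTo w (S.erase x) + G.mult x w) :=
      Finset.sum_le_sum hMw
    rw [Finset.sum_const, hWcard, smul_eq_mul, ← Finset.mul_sum, Finset.sum_add_distrib] at hsumW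
    have hsub : ∑ w ∈ W, G.degTo w (S.erase x) ≤ ∑ w ∈ W, (G.degTo w (S.erase x) - 1) + 3 := by
      have : ∑ w ∈ W, G.degTo w (S.erase x) ≤ ∑ w ∈ W, ((G.degTo w (S.erase x) - 1) + 1) :=
        Finset.sum_le_sum fun w _ => by omega
      rw [Finset.sum_add_distrib, Finset.sum_const, hWcard] at this
      simpa using this
    have hmult' : G.mult x b + ∑ w ∈ W, G.mult x w ≤ s := hmult
    have hI' : ∑ w ∈ W, (G.degTo w (S.erase x) - 1) + G.degTo b (S.erase x) + (D - G.deg b) + 2 ≤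
      s := hI
    omega
  have hcover : Ask dt Q u ⊆ ((G.inc u).filter fun f => G.opp u f = b) ∪ (B ∪
      W₀.biUnion fun w => (G.inc u).filter fun f => G.opp u f = w) := by
    intro f hf
    have hfi : f ∈ G.inc u := (Finset.mem_filter.1 hf).1
    by_cases h1 : G.opp u f = b
    · exact Finset.mem_union_left _ (Finset.mem_filter.2 ⟨hfi, h1⟩)
    refine Finset.mem_union_right _ ?_
    by_cases h2 : f ∈ B
    · exact Finset.mem_union_left _ h2
    refine Finset.mem_union_right _ (Finset.mem_biUnion.2 ⟨G.opp u f, ?_, ?_⟩)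
    · exact Finset.mem_image.2 ⟨f, Finset.mem_filter.2 ⟨Finset.mem_sdiff.2 ⟨hf, h2⟩, h1⟩, rfl⟩
    · exact Finset.mem_filter.2 ⟨hfi, rfl⟩
  have h1 := Finset.card_le_card hcover
  have h2 := Finset.card_union_le ((G.inc u).filter fun f => G.opp u f = b) (B ∪
      W₀.biUnion fun w => (G.inc u).filter fun f => G.opp u f = w)
  have h4 := Finset.card_union_le B (W₀.biUnion fun w => (G.inc u).filter fun f => G.opp u f = w)
  have h5 : (W₀.biUnion fun w => (G.inc u).filter fun f => G.opp u f = w).card ≤ 2 * μ := by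
    refine Finset.card_biUnion_le.trans ?_
    calc ∑ w ∈ W₀, ((G.inc u).filter fun f => G.opp u f = w).card ≤ ∑ w ∈ W₀, μ :=
          Finset.sum_le_sum fun w _ => card_opp_le dt u w
      _ = W₀.card * μ := by rw [Finset.sum_const, smul_eq_mul]
      _ ≤ 2 * μ := Nat.mul_le_mul_right μ hcard2
  have h6 := card_opp_le dt u b
  have h7 : B.card + 1 ≤ s := hBcard
  omega

end Pool.Agent.Helper82.EC3
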