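import Pool.Agent.Helper82.EC3.St

/-!
# MP_47b98d_co, third generation: module INI, uncolouring some edges
-/

set_option autoImplicit false

open Finset
open scoped Classical

namespace Pool.Agent.Helper82.EC3

open EC EC.MGraph EC2

theorem stIni : StIni := by
  intro V E G D φ e x y hc K te he
  obtain ⟨k₀, hk₀, hk₀e⟩ := he
  have hsome : ∀ f c, (if ∃ k, k < K ∧ f = te k then none else φ f) = some c →
      (¬ ∃ k, k < K ∧ f = te k) ∧ φ f = some c := by
    intro f c h
    by_cases hf : ∃ k, k < K ∧ f = te k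
    · rw [if_pos hf] at h
      exact absurd h (by simp)
    · rw [if_neg hf] at h
      exact ⟨hf, h⟩
  refine ⟨fun f => if ∃ k, k < K ∧ f = te k then none else φ f, ?_, ?_, ?_, ?_⟩
  · intro e₁ e₂ v c h1 h2 h3 h4
    exact hc.proper e₁ e₂ v c h1 h2 (hsome _ _ h3).2 (hsome _ _ h4).2
  · intro f
    by_cases hf : ∃ k, k < K ∧ f = te k
    · simp [hf]
    · simp only [iff_false, hf]
      refine hc.col f fun hfe => hf ⟨k₀, hk₀, ?_⟩
      rw [hfe, hk₀e]
  · intro v c h f hf h1
    exact h f hf (hsome _ _ h1).2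
  · intro k hk v hv c hcol f hf h1
    obtain ⟨h2, h3⟩ := hsome _ _ h1
    exact h2 ⟨k, hk, hc.proper f (te k) v c hf hv h3 hcol⟩

end Pool.Agent.Helper82.EC3
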