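import Pool.Agent.Helper82.EC3.GM

/-!
# MP_47b98d_co, third generation: a certificate

Terminals `x y v w t t'`, edges `xy`, `yv`, `vw`, `wt`, `wt'`.
-/

set_option autoImplicit false

namespace Pool.Agent.Helper82.EC3

/-- the configuration -/
def cfgB : Cfg := ⟨6, [(0, 1), (1, 2), (2, 3), (3, 4), (3, 5)], 49, 6⟩

/-- the table -/
def certB : List (List ℕ × Op) :=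
[
  ⟨[7, 13, 19, 25, 41], .win [2, 0, 1, 3, 4]⟩,
  ⟨[7, 13, 25, 35, 41], .win [3, 0, 1, 2, 4]⟩,
  ⟨[3, 7, 13, 25, 41], .win [0, 1, 2, 3, 4]⟩,
  ⟨[13, 22, 25, 35, 41], .win [3, 1, 0, 2, 4]⟩,
  ⟨[13, 19, 25, 38, 41], .win [1, 3, 0, 2, 4]⟩,
  ⟨[6, 13, 25, 41, 51], .win [4, 0, 1, 2, 3]⟩,
  ⟨[13, 19, 31, 41], .win [1, 2, 0, 2, 3]⟩,
  ⟨[13, 31, 35, 41], .win [2, 1, 0, 1, 3]⟩,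
  ⟨[3, 13, 31, 41], .win [0, 2, 1, 2, 3]⟩,
  ⟨[13, 19, 25, 41, 55], .win [1, 4, 0, 2, 3]⟩,
  ⟨[13, 25, 35, 41, 55], .win [2, 4, 0, 1, 3]⟩,
  ⟨[3, 13, 25, 41, 55], .win [0, 4, 1, 2, 3]⟩,
  ⟨[13, 22, 41, 59], .win [3, 1, 0, 3, 2]⟩,
  ⟨[13, 19, 41, 62], .win [1, 3, 0, 3, 2]⟩,
  ⟨[13, 30, 41, 51], .win [3, 1, 0, 1, 2]⟩,
  ⟨[13, 41, 55, 59], .win [3, 2, 0, 3, 1]⟩,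
  ⟨[13, 19, 41, 55, 56], .win [1, 3, 0, 4, 2]⟩,
  ⟨[13, 24, 41, 51, 55], .win [3, 4, 0, 1, 2]⟩,
  ⟨[7, 19, 41, 56, 61], .win [1, 0, 4, 3, 2]⟩,
  ⟨[7, 41, 59, 61], .win [2, 0, 3, 2, 1]⟩,
  ⟨[7, 27, 41, 61], .win [1, 0, 3, 1, 2]⟩,
  ⟨[22, 25, 35, 41, 61], .win [2, 0, 4, 1, 3]⟩,
  ⟨[19, 25, 38, 41, 61], .win [0, 2, 4, 1, 3]⟩,
  ⟨[6, 25, 41, 51, 61], .win [3, 0, 4, 1, 2]⟩,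
  ⟨[22, 25, 41, 47], .win [3, 0, 3, 1, 2]⟩,
  ⟨[31, 41, 47], .win [2, 0, 2, 0, 1]⟩,
  ⟨[23, 24, 41, 47], .win [3, 0, 3, 1, 2]⟩,
  ⟨[25, 31, 38, 41], .win [1, 2, 1, 0, 3]⟩,
  ⟨[31, 31, 41], .win [0, 1, 0, 1, 2]⟩,
  ⟨[28, 31, 35, 41], .win [2, 1, 0, 1, 3]⟩,
  ⟨[19, 31, 41, 44], .win [0, 1, 3, 1, 2]⟩,
  ⟨[30, 31, 41], .win [1, 0, 1, 0, 2]⟩,
  ⟨[7, 31, 41, 56], .win [1, 0, 1, 3, 2]⟩,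
  ⟨[24, 31, 39, 41], .win [1, 2, 1, 0, 3]⟩,
  ⟨[6, 25, 41, 63], .win [3, 0, 3, 1, 2]⟩,
  ⟨[31, 41, 63], .win [0, 2, 0, 2, 1]⟩,
  ⟨[12, 19, 41, 63], .win [1, 3, 0, 3, 2]⟩,
  ⟨[19, 25, 41, 55, 61], .win [0, 3, 4, 1, 2]⟩,
  ⟨[25, 35, 41, 55, 61], .win [1, 3, 4, 0, 2]⟩,
  ⟨[3, 25, 41, 55, 61], .win [0, 3, 4, 1, 2]⟩,
  ⟨[19, 25, 44, 47], .win [0, 3, 2, 1, 3]⟩,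
  ⟨[13, 19, 47, 56], .win [1, 2, 0, 3, 2]⟩,
  ⟨[19, 24, 45, 47], .win [0, 3, 2, 1, 3]⟩,
  ⟨[41, 55, 59, 61], .win [2, 1, 3, 2, 0]⟩,
  ⟨[19, 41, 55, 56, 61], .win [0, 2, 4, 3, 1]⟩,
  ⟨[24, 41, 51, 55, 61], .win [2, 3, 4, 0, 1]⟩,
  ⟨[19, 47, 56, 61], .win [0, 1, 3, 2, 1]⟩,
  ⟨[19, 25, 47, 61], .win [0, 2, 3, 1, 2]⟩,
  ⟨[19, 47, 57, 61], .win [0, 1, 3, 2, 1]⟩,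
  ⟨[27, 41, 45, 55], .win [0, 3, 2, 0, 1]⟩,
  ⟨[27, 39, 41, 61], .win [0, 1, 3, 0, 2]⟩,
  ⟨[19, 41, 61, 62], .win [0, 3, 2, 3, 1]⟩,
  ⟨[22, 41, 59, 61], .win [2, 0, 3, 2, 1]⟩,
  ⟨[27, 41, 54, 61], .win [0, 2, 3, 0, 1]⟩,
  ⟨[31, 44, 59], .win [2, 0, 1, 0, 2]⟩,
  ⟨[31, 59, 61], .win [1, 0, 2, 0, 1]⟩,
  ⟨[31, 45, 59], .win [2, 0, 1, 0, 2]⟩,
  ⟨[27, 44, 63], .win [0, 2, 1, 0, 2]⟩,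
  ⟨[27, 61, 63], .win [0, 2, 1, 0, 2]⟩,
  ⟨[27, 45, 63], .win [0, 2, 1, 0, 2]⟩,
  ⟨[25, 35, 47, 61], .win [1, 2, 3, 0, 2]⟩,
  ⟨[47, 59, 61], .win [1, 0, 2, 1, 0]⟩,
  ⟨[27, 47, 61], .win [0, 1, 2, 0, 1]⟩,
  ⟨[13, 47, 59], .win [2, 1, 0, 2, 1]⟩,
  ⟨[45, 47, 59], .win [2, 1, 0, 2, 1]⟩,
  ⟨[27, 45, 47], .win [0, 2, 1, 0, 2]⟩,
  ⟨[31, 35, 56, 61], .win [1, 0, 3, 0, 2]⟩,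
  ⟨[31, 40, 51, 61], .win [2, 0, 3, 0, 1]⟩,
  ⟨[19, 31, 41, 61], .win [0, 1, 3, 1, 2]⟩,
  ⟨[25, 31, 41, 55], .win [1, 3, 1, 0, 2]⟩,
  ⟨[31, 41, 51, 61], .win [2, 0, 3, 0, 1]⟩,
  ⟨[31, 41, 55, 57], .win [0, 2, 0, 3, 1]⟩,
  ⟨[19, 29, 41, 63], .win [0, 3, 1, 3, 2]⟩,
  ⟨[23, 25, 41, 63], .win [3, 0, 3, 1, 2]⟩,
  ⟨[29, 41, 51, 63], .win [2, 3, 0, 3, 1]⟩,
  ⟨[23, 41, 57, 63], .win [3, 0, 3, 2, 1]⟩,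
  ⟨[41, 63, 63], .win [1, 2, 1, 2, 0]⟩,
  ⟨[25, 35, 44, 63], .win [1, 3, 2, 0, 3]⟩,
  ⟨[19, 41, 44, 63], .win [0, 3, 2, 3, 1]⟩,
  ⟨[44, 59, 63], .win [1, 2, 0, 1, 2]⟩,
  ⟨[13, 24, 35, 63], .win [2, 3, 0, 1, 3]⟩,
  ⟨[7, 24, 41, 63], .win [3, 0, 3, 1, 2]⟩,
  ⟨[24, 47, 63], .win [1, 2, 1, 0, 2]⟩,
  ⟨[15, 24, 63], .win [0, 2, 0, 1, 2]⟩,
  ⟨[25, 47, 63], .win [1, 2, 1, 0, 2]⟩,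
  ⟨[13, 59, 63], .win [1, 2, 0, 1, 2]⟩,
  ⟨[13, 19, 41, 63], .win [1, 3, 0, 3, 2]⟩,
  ⟨[13, 25, 35, 63], .win [2, 3, 0, 1, 3]⟩,
  ⟨[3, 13, 57, 63], .win [0, 3, 1, 2, 3]⟩,
  ⟨[25, 35, 45, 63], .win [1, 3, 2, 0, 3]⟩,
  ⟨[19, 41, 45, 63], .win [0, 3, 2, 3, 1]⟩,
  ⟨[45, 59, 63], .win [1, 2, 0, 1, 2]⟩,
  ⟨[31, 47, 56], .win [0, 1, 0, 2, 1]⟩,
  ⟨[31, 41, 55, 56], .win [0, 2, 0, 3, 1]⟩,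
  ⟨[31, 39, 56, 57], .win [0, 1, 0, 2, 3]⟩,
  ⟨[29, 35, 56, 63], .win [1, 3, 0, 2, 3]⟩,
  ⟨[23, 41, 56, 63], .win [3, 0, 3, 2, 1]⟩,
  ⟨[15, 56, 63], .win [0, 2, 0, 1, 2]⟩,
  ⟨[56, 63, 63], .win [1, 2, 1, 0, 2]⟩,
  ⟨[31, 56, 63], .win [0, 2, 0, 1, 2]⟩,
  ⟨[25, 47, 47], .win [1, 2, 1, 0, 2]⟩,
  ⟨[25, 41, 47, 55], .win [2, 3, 2, 0, 1]⟩,
  ⟨[29, 35, 47, 57], .win [1, 2, 0, 3, 2]⟩,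
  ⟨[23, 41, 47, 57], .win [2, 0, 2, 3, 1]⟩,
  ⟨[15, 47, 57], .win [0, 1, 0, 2, 1]⟩,
  ⟨[47, 57, 63], .win [0, 2, 0, 1, 2]⟩,
  ⟨[31, 47, 57], .win [0, 1, 0, 2, 1]⟩,
  ⟨[31, 41, 62], .win [0, 2, 0, 2, 1]⟩,
  ⟨[31, 42, 61], .move 1 2 (.ask 0 2 (.act 5 92 [0, 1, 2]) (.ask 0 4 (.act 6 54 [0, 1, 2]) (.ask 1 2 (.act 6 54 [0, 1, 2]) (.ask 1 4 (.act 5 92 [0, 1, 2]) (.act 3 107 [0, 1, 2])))))⟩,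
  ⟨[27, 37, 47, 57], .move 0 1 (.ask 1 2 (.act 6 102 [0, 1, 2, 3]) (.ask 2 3 (.act 12 103 [0, 1, 2, 3]) (.ask 2 4 (.act 20 104 [0, 2, 3]) (.ask 2 5 (.act 36 105 [2, 3, 0]) (.act 4 106 [0, 2, 3])))))⟩,
  ⟨[25, 37, 47, 59], .move 1 3 (.ask 1 2 (.act 6 60 [0, 1, 2, 3]) (.ask 2 3 (.act 12 101 [0, 1, 2, 3]) (.ask 2 4 (.act 10 100 [0, 1, 2]) (.act 4 84 [0, 2, 3]))))⟩,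
  ⟨[11, 47, 61], .move 0 2 (.ask 1 4 (.act 18 100 [0, 1, 2]) (.ask 2 4 (.act 20 25 [0, 2, 1]) (.ask 4 5 (.act 6 63 [0, 1, 2]) (.act 16 65 [0, 2, 1]))))⟩,
  ⟨[27, 37, 56, 63], .move 0 1 (.ask 1 2 (.act 6 95 [0, 1, 2, 3]) (.ask 2 3 (.act 12 96 [0, 1, 2, 3]) (.ask 2 4 (.act 20 97 [0, 2, 3]) (.ask 2 5 (.act 36 98 [2, 0, 3]) (.act 4 99 [0, 2, 3])))))⟩,
  ⟨[31, 37, 56, 59], .move 1 3 (.ask 1 2 (.act 6 66 [0, 1, 2, 3]) (.ask 1 3 (.act 10 92 [0, 1, 2]) (.ask 1 4 (.act 12 93 [0, 1, 3, 2]) (.act 2 94 [0, 1, 2, 3]))))⟩,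
  ⟨[11, 45, 63], .move 0 3 (.ask 1 4 (.act 18 89 [0, 3, 1, 2]) (.ask 3 4 (.act 24 90 [0, 3, 1, 2]) (.ask 4 5 (.act 10 91 [1, 3, 2]) (.act 16 59 [0, 1, 2]))))⟩,
  ⟨[11, 13, 63], .move 0 3 (.ask 1 3 (.act 10 85 [1, 3, 2]) (.ask 3 4 (.act 24 86 [1, 0, 3, 2]) (.ask 3 5 (.act 18 87 [1, 0, 3, 2]) (.act 8 88 [0, 1, 3, 2]))))⟩,
  ⟨[11, 61, 63], .move 0 1 (.ask 1 4 (.act 18 84 [0, 1, 2]) (.ask 2 4 (.act 20 35 [0, 1, 2]) (.ask 4 5 (.act 6 85 [0, 1, 2]) (.act 16 59 [0, 1, 2]))))⟩,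
  ⟨[11, 24, 37, 63], .move 0 2 (.ask 1 2 (.act 6 80 [0, 1, 2, 3]) (.ask 2 3 (.act 12 81 [0, 1, 2, 3]) (.ask 2 5 (.act 10 82 [1, 2, 3]) (.act 4 83 [0, 1, 3]))))⟩,
  ⟨[11, 44, 63], .move 0 3 (.ask 1 4 (.act 18 77 [0, 3, 1, 2]) (.ask 3 4 (.act 24 78 [0, 3, 1, 2]) (.ask 4 5 (.act 10 79 [1, 3, 2]) (.act 16 57 [0, 1, 2]))))⟩,
  ⟨[27, 41, 53, 63], .move 0 2 (.ask 1 2 (.act 6 74 [0, 1, 2, 3]) (.ask 2 3 (.act 12 75 [0, 1, 2, 3]) (.ask 2 5 (.act 10 76 [1, 2, 3]) (.act 4 35 [0, 1, 3]))))⟩,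
  ⟨[21, 27, 41, 63], .move 0 1 (.ask 1 2 (.act 8 72 [1, 0, 2, 3]) (.ask 1 3 (.act 4 35 [1, 2, 3]) (.act 2 73 [0, 1, 2, 3])))⟩,
  ⟨[31, 41, 53, 59], .move 2 3 (.ask 1 2 (.act 8 70 [0, 1, 3, 2]) (.ask 1 3 (.act 4 35 [0, 1, 3]) (.act 2 71 [0, 1, 2, 3])))⟩,
  ⟨[21, 31, 41, 59], .move 0 3 (.ask 1 2 (.act 6 68 [0, 1, 2, 3]) (.ask 2 3 (.act 12 69 [0, 1, 2, 3]) (.ask 2 5 (.act 10 28 [0, 1, 2]) (.act 4 35 [1, 2, 3]))))⟩,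
  ⟨[31, 41, 50, 61], .move 1 2 (.ask 0 1 (.act 3 108 [0, 1, 3]) (.ask 0 3 (.act 9 55 [0, 2, 3]) (.ask 0 4 (.act 10 66 [0, 1, 2, 3]) (.act 1 67 [0, 1, 2, 3]))))⟩,
  ⟨[27, 41, 47, 53], .move 1 3 (.ask 2 3 (.act 16 109 [0, 3, 2, 1]) (.ask 2 4 (.act 8 62 [0, 2, 3]) (.act 4 65 [0, 1, 2])))⟩,
  ⟨[21, 41, 47, 59], .move 0 1 (.ask 2 3 (.act 12 110 [0, 1, 2, 3]) (.ask 2 4 (.act 20 61 [2, 3, 1]) (.ask 2 5 (.act 24 63 [0, 2, 3]) (.act 4 64 [1, 2, 3]))))⟩,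
  ⟨[19, 41, 47, 61], .move 0 1 (.ask 1 3 (.act 10 60 [0, 1, 2, 3]) (.ask 3 4 (.act 24 111 [0, 2, 3]) (.ask 3 5 (.act 18 61 [2, 1, 3]) (.act 8 62 [0, 2, 3]))))⟩,
  ⟨[27, 41, 52, 63], .move 1 2 (.ask 0 2 (.act 5 57 [0, 1, 3]) (.ask 2 3 (.act 12 112 [0, 1, 2, 3]) (.ask 2 4 (.act 9 58 [0, 2, 3]) (.act 4 59 [0, 1, 3]))))⟩,
  ⟨[31, 41, 52, 59], .move 1 2 (.ask 0 2 (.act 5 54 [0, 1, 3]) (.ask 2 3 (.act 12 113 [0, 1, 2, 3]) (.ask 2 4 (.act 9 55 [0, 3, 2]) (.act 4 56 [0, 1, 3]))))⟩,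
  ⟨[11, 20, 41, 63], .move 1 2 (.ask 0 2 (.act 5 118 [0, 2, 3]) (.ask 2 3 (.act 12 117 [0, 1, 2, 3]) (.ask 2 4 (.act 20 116 [0, 2, 3]) (.ask 2 5 (.act 36 115 [0, 2, 3]) (.act 4 114 [0, 2, 3])))))⟩,
  ⟨[26, 41, 55, 61], .move 0 2 (.ask 0 2 (.act 5 123 [0, 1, 2, 3]) (.ask 0 3 (.act 9 51 [0, 1, 3, 2]) (.ask 0 5 (.act 12 52 [0, 1, 2, 3]) (.act 1 53 [0, 1, 2, 3]))))⟩,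
  ⟨[27, 37, 41, 63], .move 1 3 (.ask 1 3 (.act 16 124 [0, 2, 3, 1]) (.ask 1 4 (.act 8 49 [0, 2, 1, 3]) (.act 2 50 [0, 1, 2, 3])))⟩,
  ⟨[31, 37, 41, 59], .move 0 1 (.ask 1 4 (.act 18 15 [0, 2, 1, 3]) (.ask 1 5 (.act 24 19 [0, 2, 3, 1]) (.ask 3 4 (.act 24 19 [0, 2, 3, 1]) (.ask 3 5 (.act 18 15 [0, 2, 1, 3]) (.act 10 125 [0, 2, 1, 3])))))⟩,
  ⟨[8, 19, 47, 61], .move 0 4 (.ask 0 3 (.act 9 46 [1, 2, 4, 3]) (.ask 3 4 (.act 24 126 [1, 4, 2, 3]) (.ask 3 5 (.act 17 47 [1, 0, 2, 3]) (.act 8 48 [1, 2, 4, 3]))))⟩,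
  ⟨[25, 41, 50, 55, 61], .move 0 2 (.ask 0 1 (.act 3 130 [0, 1, 3, 4]) (.ask 0 3 (.act 9 43 [1, 3, 2, 4]) (.ask 0 5 (.act 10 44 [0, 1, 3, 2, 4]) (.act 1 45 [0, 1, 2, 3, 4]))))⟩,
  ⟨[4, 27, 41, 63], .move 0 4 (.ask 0 2 (.act 5 127 [1, 2, 4, 3]) (.ask 2 4 (.act 20 131 [1, 4, 2, 3]) (.ask 2 5 (.act 17 120 [0, 1, 2, 3]) (.act 4 119 [1, 2, 4, 3]))))⟩,
  ⟨[4, 31, 41, 59], .move 0 4 (.ask 0 2 (.act 5 128 [1, 2, 4, 3]) (.ask 2 4 (.act 20 132 [1, 4, 2, 3]) (.ask 2 5 (.act 17 122 [0, 1, 2, 3]) (.act 4 121 [1, 2, 4, 3]))))⟩,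
  ⟨[19, 28, 41, 47], .move 1 2 (.ask 0 2 (.act 5 40 [0, 1, 2, 3]) (.ask 2 4 (.act 20 133 [1, 0, 3, 2]) (.ask 2 5 (.act 17 41 [1, 0, 3, 2]) (.act 4 42 [0, 1, 2, 3]))))⟩,
  ⟨[2, 25, 41, 55, 61], .move 0 5 (.ask 0 1 (.act 3 134 [1, 2, 5, 3, 4]) (.ask 0 4 (.act 17 37 [0, 1, 2, 3, 4]) (.ask 0 5 (.act 18 38 [1, 5, 2, 3, 4]) (.act 1 39 [0, 1, 2, 3, 4]))))⟩,
  ⟨[5, 26, 41, 63], .move 0 1 (.ask 0 1 (.act 3 34 [0, 1, 2, 3]) (.ask 0 2 (.act 5 35 [1, 2, 3]) (.ask 0 3 (.act 9 36 [0, 1, 2, 3]) (.ask 0 4 (.act 17 129 [1, 0, 2, 3]) (.act 1 135 [0, 1, 2, 3])))))⟩,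
  ⟨[26, 31, 37, 41], .move 0 2 (.ask 0 1 (.act 3 27 [0, 1, 2, 3]) (.ask 0 2 (.act 5 28 [0, 1, 3]) (.ask 1 2 (.act 6 29 [0, 1, 2, 3]) (.ask 1 3 (.act 10 25 [1, 3, 2]) (.ask 1 4 (.ask 2 3 (.act 33 136 [2, 1, 3, 0]) (.ask 2 5 (.act 9 30 [0, 1, 3, 2]) (.act 4 31 [0, 1, 3]))) (.ask 1 5 (.act 34 32 [2, 1, 3, 0]) (.act 2 33 [0, 1, 2, 3])))))))⟩,
  ⟨[21, 26, 41, 47], .move 0 1 (.ask 0 1 (.act 3 24 [0, 1, 2, 3]) (.ask 1 2 (.act 6 137 [0, 1, 2, 3]) (.ask 1 3 (.act 5 25 [1, 2, 3]) (.act 2 26 [0, 1, 2, 3]))))⟩,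
  ⟨[7, 25, 41, 50, 61], .move 0 3 (.ask 0 2 (.act 5 138 [0, 1, 2, 3, 4]) (.ask 0 4 (.act 17 21 [0, 1, 3, 2, 4]) (.ask 0 5 (.act 20 22 [0, 1, 3, 2, 4]) (.act 1 23 [0, 1, 2, 3, 4]))))⟩,
  ⟨[7, 26, 41, 61], .move 1 4 (.ask 0 1 (.act 3 142 [0, 1, 2, 4, 3]) (.ask 0 3 (.act 9 18 [0, 1, 2, 4, 3]) (.ask 0 5 (.act 10 19 [0, 2, 4, 3]) (.act 1 20 [0, 1, 2, 3]))))⟩,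
  ⟨[13, 26, 41, 55], .move 0 3 (.ask 1 3 (.act 10 143 [0, 1, 2, 3]) (.ask 3 4 (.act 24 141 [0, 1, 2, 3]) (.ask 3 5 (.act 18 140 [1, 0, 3, 2]) (.act 8 139 [0, 1, 2, 3]))))⟩,
  ⟨[13, 25, 41, 50, 55], .move 1 3 (.ask 0 1 (.act 3 144 [0, 1, 2, 4]) (.ask 0 3 (.act 9 15 [0, 2, 4, 3]) (.ask 0 5 (.act 10 16 [0, 1, 2, 4, 3]) (.act 1 17 [0, 1, 2, 3, 4]))))⟩,
  ⟨[13, 31, 41, 50], .move 1 3 (.ask 0 2 (.act 5 144 [0, 1, 2, 3]) (.ask 0 3 (.act 9 12 [0, 1, 2, 3]) (.ask 0 5 (.act 12 13 [0, 1, 2, 3]) (.act 1 14 [0, 1, 2, 3]))))⟩,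
  ⟨[2, 13, 25, 41, 55], .move 0 5 (.ask 0 1 (.act 3 145 [1, 2, 3, 5, 4]) (.ask 0 4 (.act 17 9 [1, 0, 2, 3, 4]) (.ask 0 5 (.act 18 10 [1, 2, 5, 3, 4]) (.act 1 11 [0, 1, 2, 3, 4]))))⟩,
  ⟨[2, 13, 31, 41], .move 0 4 (.ask 0 1 (.act 3 146 [1, 2, 3, 4]) (.ask 0 4 (.act 17 6 [1, 0, 2, 3]) (.ask 0 5 (.act 18 7 [1, 2, 4, 3]) (.act 1 8 [0, 1, 2, 3]))))⟩,
  ⟨[7, 13, 25, 41, 50], .move 0 4 (.ask 0 2 (.act 5 147 [0, 1, 2, 3, 4]) (.ask 0 4 (.act 17 3 [1, 0, 2, 4, 3]) (.ask 0 5 (.act 20 4 [1, 0, 2, 4, 3]) (.act 1 5 [0, 1, 2, 3, 4]))))⟩,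
  ⟨[2, 7, 13, 25, 41], .move 0 5 (.ask 0 1 (.act 3 149 [1, 2, 3, 4, 5]) (.ask 0 4 (.act 17 0 [1, 2, 0, 3, 4]) (.ask 0 5 (.act 18 1 [1, 2, 3, 5, 4]) (.act 1 2 [0, 1, 2, 3, 4]))))⟩]

theorem certB_ok : tabOk cfgB [] certB = true := by decide +kernel

end Pool.Agent.Helper82.EC3
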