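import Pool.Agent.Helper82.EC3.St
import Pool.Agent.Helper82.EC3.CertB

/-!
# MP_47b98d_co, third generation: module LAD, fork lemma with two different light vertices
-/

set_option autoImplicit false

open Finset
open scoped Classical

namespace Pool.Agent.Helper82.EC3

open EC EC.MGraph EC2

namespace LAD

/-- the terminals -/
def TT {V : Type} (x y v w t₁ t₂ : V) : ℕ → V
  | 0 => x
  | 1 => y
  | 2 => v
  | 3 => w
  | 4 => t₁
  | _ => t₂

/-- the tracked edges -/
def ee {E : Type} (e f g h₁ h₂ : E) : ℕ → E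
  | 0 => e
  | 1 => f
  | 2 => g
  | 3 => h₁
  | _ => h₂

theorem pos {V E : Type} [Fintype V] [Fintype E] {G : MGraph V E} {D : ℕ}
    {e f g h₁ h₂ : E} {x y v w t₁ t₂ : V} (hn : G.NoCol D)
    (he : G.ends e = s(x, y)) (hf : G.ends f = s(y, v)) (hg : G.ends g = s(v, w))
    (hh1 : G.ends h₁ = s(w, t₁)) (hh2 : G.ends h₂ = s(w, t₂))
    (hxv : x ≠ v) (hxw : x ≠ w) (hyw : y ≠ w) (hxt1 : x ≠ t₁) (hyt1 : y ≠ t₁) (hvt1 : v ≠ t₁)
    (hxt2 : x ≠ t₂) (hyt2 : y ≠ t₂) (hvt2 : v ≠ t₂) (htt : t₁ ≠ t₂)
    (hroom : G.deg x + G.deg t₁ + G.deg t₂ + 6 ≤ D) :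
    Pos cfgB G D (TT x y v w t₁ t₂) (ee e f g h₁ h₂) := by
  have hxy : x ≠ y := ne_of_ends he
  have hyv : y ≠ v := ne_of_ends hf
  have hvw : v ≠ w := ne_of_ends hg
  have hwt1 : w ≠ t₁ := ne_of_ends hh1
  have hwt2 : w ≠ t₂ := ne_of_ends hh2
  have n1 : e ≠ f := by
    rintro rfl
    rcases (mem_ends_iff hf).1 (mem_ends_left he) with h | h
    · exact hxy h
    · exact hxv h
  have n2 : e ≠ g := by
    rintro rfl
    rcases (mem_ends_iff hg).1 (mem_ends_left he) with h | h
    · exact hxv h
    · exact hxw h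
  have n3 : e ≠ h₁ := by
    rintro rfl
    rcases (mem_ends_iff hh1).1 (mem_ends_left he) with h | h
    · exact hxw h
    · exact hxt1 h
  have n4 : e ≠ h₂ := by
    rintro rfl
    rcases (mem_ends_iff hh2).1 (mem_ends_left he) with h | h
    · exact hxw h
    · exact hxt2 h
  have n5 : f ≠ g := by
    rintro rfl
    rcases (mem_ends_iff hg).1 (mem_ends_left hf) with h | h
    · exact hyv h
    · exact hyw h
  have n6 : f ≠ h₁ := by
    rintro rfl
    rcases (mem_ends_iff hh1).1 (mem_ends_left hf) with h | h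
    · exact hyw h
    · exact hyt1 h
  have n7 : f ≠ h₂ := by
    rintro rfl
    rcases (mem_ends_iff hh2).1 (mem_ends_left hf) with h | h
    · exact hyw h
    · exact hyt2 h
  have n8 : g ≠ h₁ := by
    rintro rfl
    rcases (mem_ends_iff hh1).1 (mem_ends_left hg) with h | h
    · exact hvw h
    · exact hvt1 h
  have n9 : g ≠ h₂ := by
    rintro rfl
    rcases (mem_ends_iff hh2).1 (mem_ends_left hg) with h | h
    · exact hvw h
    · exact hvt2 h
  have n10 : h₁ ≠ h₂ := by
    rintro rfl
    rcases (mem_ends_iff hh2).1 (mem_ends_right hh1) with h | h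
    · exact hwt1 h.symm
    · exact htt h
  have hlen : cfgB.edges.length = 5 := rfl
  refine ⟨?_, ?_, hn, ?_, ?_, ?_⟩
  · intro k hk
    rw [hlen] at hk
    interval_cases k
    · exact he
    · exact hf
    · exact hg
    · exact hh1
    · exact hh2
  · intro k hk l hl h
    rw [hlen] at hk hl
    interval_cases k <;> interval_cases l <;>
      first
        | rfl
        | exact absurd h n1
        | exact absurd h n2
        | exact absurd h n3
        | exact absurd h n4
        | exact absurd h n5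
        | exact absurd h n6
        | exact absurd h n7
        | exact absurd h n8
        | exact absurd h n9
        | exact absurd h n10
        | exact absurd h.symm n1
        | exact absurd h.symm n2
        | exact absurd h.symm n3
        | exact absurd h.symm n4
        | exact absurd h.symm n5
        | exact absurd h.symm n6
        | exact absurd h.symm n7
        | exact absurd h.symm n8
        | exact absurd h.symm n9
        | exact absurd h.symm n10
  · intro i hi j hj h
    have hcn : cfgB.n = 6 := rfl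
    rw [hcn] at hi hj
    interval_cases i <;> interval_cases j <;>
      first
        | rfl
        | exact absurd h hxy
        | exact absurd h hxv
        | exact absurd h hxw
        | exact absurd h hxt1
        | exact absurd h hxt2
        | exact absurd h hyv
        | exact absurd h hyw
        | exact absurd h hyt1
        | exact absurd h hyt2
        | exact absurd h hvw
        | exact absurd h hvt1
        | exact absurd h hvt2
        | exact absurd h hwt1
        | exact absurd h hwt2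
        | exact absurd h htt
        | exact absurd h.symm hxy
        | exact absurd h.symm hxv
        | exact absurd h.symm hxw
        | exact absurd h.symm hxt1
        | exact absurd h.symm hxt2
        | exact absurd h.symm hyv
        | exact absurd h.symm hyw
        | exact absurd h.symm hyt1
        | exact absurd h.symm hyt2
        | exact absurd h.symm hvw
        | exact absurd h.symm hvt1
        | exact absurd h.symm hvt2
        | exact absurd h.symm hwt1
        | exact absurd h.symm hwt2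
        | exact absurd h.symm htt
  · intro k hk
    rw [hlen] at hk
    have hcn : cfgB.n = 6 := rfl
    rw [hcn]
    interval_cases k <;> exact ⟨by decide, by decide⟩
  · have h1 : ((range cfgB.n).filter (fun i => cfgB.light.testBit i = true)) = {0, 4, 5} := by
      ext i
      have hcn : cfgB.n = 6 := rfl
      have hcl : cfgB.light = 49 := rfl
      rw [mem_filter, mem_range, hcn, hcl]
      constructor
      · rintro ⟨hi, ht⟩
        interval_cases i <;> first | exact absurd ht (by decide) | simp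
      · intro hi
        simp only [mem_insert, mem_singleton] at hi
        rcases hi with rfl | rfl | rfl
        · exact ⟨by norm_num, by decide⟩
        · exact ⟨by norm_num, by decide⟩
        · exact ⟨by norm_num, by decide⟩
    have hcap : cfgB.cap = 6 := rfl
    rw [h1, hcap, sum_insert (by decide), sum_insert (by decide), sum_singleton]
    have e0 : TT x y v w t₁ t₂ 0 = x := rfl
    have e4 : TT x y v w t₁ t₂ 4 = t₁ := rfl
    have e5 : TT x y v w t₁ t₂ 5 = t₂ := rfl
    rw [e0, e4, e5]
    omega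

theorem mem1 : ∃ q ∈ certB, q.1 = [2, 7, 13, 25, 41] := by decide +kernel

theorem mem2 : ∃ q ∈ certB, q.1 = [2, 13, 31, 41] := by decide +kernel

theorem core (hGM : StGM) (hIni : StIni) (hCard : StCard) {V E : Type} [Fintype V] [Fintype E]
    {G : MGraph V E} {D : ℕ} {φ : E → Option (Fin D)} {e : E} {x y : V} (hc : G.Crit D φ e x y)
    (hy : G.deg y ≤ D) {β γ τ₁ τ₂ : Fin D} {f g h₁ h₂ : E} {v w t₁ t₂ : V} (hβ : G.Miss φ x β)
    (hf : G.ends f = s(y, v)) (hfβ : φ f = some β) (hγ : G.Miss φ x γ) (hg : G.ends g = s(v, w))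
    (hgγ : φ g = some γ) (hwx : w ≠ x) (hwy : w ≠ y) (hτ1 : G.Miss φ x τ₁) (hτ2 : G.Miss φ x τ₂)
    (hh1 : G.ends h₁ = s(w, t₁)) (hh1τ : φ h₁ = some τ₁) (hh2 : G.ends h₂ = s(w, t₂))
    (hh2τ : φ h₂ = some τ₂) (htt : t₁ ≠ t₂) (ht1x : t₁ ≠ x) (ht1y : t₁ ≠ y) (ht1v : t₁ ≠ v)
    (ht2x : t₂ ≠ x) (ht2y : t₂ ≠ y) (ht2v : t₂ ≠ v)
    (hroom : G.deg x + G.deg t₁ + G.deg t₂ + 6 ≤ D) (hτβ : τ₂ ≠ β) : False := by
  have hvx : v ≠ x := by
    rintro rfl
    exact hβ f (mem_ends_right hf) hfβ
  have hpos := pos hc.nocol hc.ends_eq hf hg hh1 hh2 hvx.symm hwx.symm hwy.symm ht1x.symm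
    ht1y.symm ht1v.symm ht2x.symm ht2y.symm ht2v.symm htt hroom
  obtain ⟨al, hal⟩ : ∃ al, G.Miss φ y al := by
    have h1 := (hCard V E G D φ e x y hc).2.1
    have h2 : 0 < (G.miss φ y).card := by omega
    obtain ⟨al, h3⟩ := card_pos.1 h2
    exact ⟨al, mem_miss.1 h3⟩
  have hal' : ∀ c, G.Miss φ x c → al ≠ c := by
    rintro c hcx rfl
    exact hc.disj hcx hal
  have hβγ : β ≠ γ := by
    rintro rfl
    have h1 := hc.proper f g v β (mem_ends_right hf) (mem_ends_left hg) hfβ hgγ
    rw [h1] at hf
    rcases (mem_ends_iff hg).1 (mem_ends_left hf) with h | h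
    · exact ne_of_ends hf h
    · exact hwy h.symm
  have hγ1 : γ ≠ τ₁ := by
    rintro rfl
    have h1 := hc.proper g h₁ w γ (mem_ends_right hg) (mem_ends_left hh1) hgγ hh1τ
    rw [h1] at hg
    rcases (mem_ends_iff hh1).1 (mem_ends_left hg) with h | h
    · exact ne_of_ends hg h
    · exact ht1v h.symm
  have hγ2 : γ ≠ τ₂ := by
    rintro rfl
    have h1 := hc.proper g h₂ w γ (mem_ends_right hg) (mem_ends_left hh2) hgγ hh2τ
    rw [h1] at hg
    rcases (mem_ends_iff hh2).1 (mem_ends_left hg) with h | h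
    · exact ne_of_ends hg h
    · exact ht2v h.symm
  have hττ : τ₁ ≠ τ₂ := by
    rintro rfl
    have h1 := hc.proper h₁ h₂ w τ₁ (mem_ends_left hh1) (mem_ends_left hh2) hh1τ hh2τ
    rw [h1] at hh1
    rcases (mem_ends_iff hh2).1 (mem_ends_right hh1) with h | h
    · exact ne_of_ends hh1 h.symm
    · exact htt h
  obtain ⟨ψ, hψ1, hψ2, hψ3, hψ4⟩ := hIni V E G D φ e x y hc 5 (ee e f g h₁ h₂) ⟨0, by norm_num, rfl⟩
  have a1 : G.Miss ψ y al := hψ3 y al hal
  have b0 : G.Miss ψ x β := hψ3 x β hβ
  have b1 : G.Miss ψ y β := hψ4 1 (by norm_num) y (mem_ends_left hf) β hfβ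
  have b2 : G.Miss ψ v β := hψ4 1 (by norm_num) v (mem_ends_right hf) β hfβ
  have c0 : G.Miss ψ x γ := hψ3 x γ hγ
  have c2 : G.Miss ψ v γ := hψ4 2 (by norm_num) v (mem_ends_left hg) γ hgγ
  have c3 : G.Miss ψ w γ := hψ4 2 (by norm_num) w (mem_ends_right hg) γ hgγ
  have d0 : G.Miss ψ x τ₁ := hψ3 x τ₁ hτ1
  have d3 : G.Miss ψ w τ₁ := hψ4 3 (by norm_num) w (mem_ends_left hh1) τ₁ hh1τ
  have d4 : G.Miss ψ t₁ τ₁ := hψ4 3 (by norm_num) t₁ (mem_ends_right hh1) τ₁ hh1τ
  have f0 : G.Miss ψ x τ₂ := hψ3 x τ₂ hτ2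
  have f3 : G.Miss ψ w τ₂ := hψ4 4 (by norm_num) w (mem_ends_left hh2) τ₂ hh2τ
  have f5 : G.Miss ψ t₂ τ₂ := hψ4 4 (by norm_num) t₂ (mem_ends_right hh2) τ₂ hh2τ
  have hlen : cfgB.edges.length = 5 := rfl
  have hcn : cfgB.n = 6 := rfl
  by_cases h1β : τ₁ = β
  · obtain ⟨q, hq, hq1⟩ := mem2
    refine hGM cfgB certB certB_ok V E G D _ _ hpos q hq ψ [al, γ, β, τ₂] ?_
    rw [hq1]
    rw [h1β] at d0 d3 d4
    refine ⟨hψ1, fun k => by rw [hlen]; exact hψ2 k, ?_, rfl, ?_⟩
    · have n1 := hal' γ hγ
      have n2 := hal' β hβ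
      have n3 := hal' τ₂ hτ2
      have n4 := hβγ.symm
      have n5 := hτβ.symm
      simp only [List.nodup_cons, List.mem_cons, List.not_mem_nil, or_false, not_or, not_false_eq_true,
        List.nodup_nil, and_true]
      exact ⟨⟨n1, n2, n3⟩, ⟨n4, hγ2⟩, n5⟩
    · intro k hk i hi ht
      have hk' : k < 4 := hk
      rw [hcn] at hi
      interval_cases k <;> interval_cases i <;>
        first
          | exact absurd ht (by decide)
          | exact a1
          | exact b0
          | exact b1
          | exact b2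
          | exact c0
          | exact c2
          | exact c3
          | exact d0
          | exact d3
          | exact d4
          | exact f0
          | exact f3
          | exact f5
  · obtain ⟨q, hq, hq1⟩ := mem1
    refine hGM cfgB certB certB_ok V E G D _ _ hpos q hq ψ [al, β, γ, τ₁, τ₂] ?_
    rw [hq1]
    refine ⟨hψ1, fun k => by rw [hlen]; exact hψ2 k, ?_, rfl, ?_⟩
    · have n1 := hal' γ hγ
      have n2 := hal' β hβ
      have n3 := hal' τ₂ hτ2
      have n4 := hal' τ₁ hτ1
      have n5 := hτβ.symm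
      have n6 : β ≠ τ₁ := fun h => h1β h.symm
      simp only [List.nodup_cons, List.mem_cons, List.not_mem_nil, or_false, not_or, not_false_eq_true,
        List.nodup_nil, and_true]
      exact ⟨⟨n2, n1, n4, n3⟩, ⟨hβγ, n6, n5⟩, ⟨hγ1, hγ2⟩, hττ⟩
    · intro k hk i hi ht
      have hk' : k < 5 := hk
      rw [hcn] at hi
      interval_cases k <;> interval_cases i <;>
        first
          | exact absurd ht (by decide)
          | exact a1
          | exact b0
          | exact b1
          | exact b2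
          | exact c0
          | exact c2
          | exact c3
          | exact d0
          | exact d3
          | exact d4
          | exact f0
          | exact f3
          | exact f5

end LAD

theorem stLAd (hGM : StGM) (hIni : StIni) (hCard : StCard) : StLAd := by
  intro V E _ _ G D φ e x y hc hy β γ τ₁ τ₂ f g h₁ h₂ v w t₁ t₂ hβ hf hfβ hγ hg hgγ hwx hwy hτ1 hτ2
    hh1 hh1τ hh2 hh2τ htt ht1x ht1y ht1v ht2x ht2y ht2v hroom
  by_cases h : τ₂ = β
  · refine LAD.core hGM hIni hCard hc hy hβ hf hfβ hγ hg hgγ hwx hwy hτ2 hτ1 hh2 hh2τ hh1 hh1τ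
      htt.symm ht2x ht2y ht2v ht1x ht1y ht1v (by omega) ?_
    intro h'
    have h1 := hc.proper h₁ h₂ w β (mem_ends_left hh1) (mem_ends_left hh2) (by rw [hh1τ, h'])
      (by rw [hh2τ, h])
    rw [h1] at hh1
    rcases (mem_ends_iff hh2).1 (mem_ends_right hh1) with h | h
    · exact ne_of_ends hh1 h.symm
    · exact htt h
  · exact LAD.core hGM hIni hCard hc hy hβ hf hfβ hγ hg hgγ hwx hwy hτ1 hτ2 hh1 hh1τ hh2 hh2τ
      htt ht1x ht1y ht1v ht2x ht2y ht2v hroom h

end Pool.Agent.Helper82.EC3
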