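import Pool.Agent.Helper82.EC3.GM

/-!
# MP_47b98d_co, third generation: a certificate

Terminals `x y v w t`, edges `xy`, `yv`, `vw`, `wt`, `wt`.
-/

set_option autoImplicit false

namespace Pool.Agent.Helper82.EC3

/-- the configuration -/
def cfgA : Cfg := ⟨5, [(0, 1), (1, 2), (2, 3), (3, 4), (3, 4)], 17, 6⟩

/-- the table -/
def certA : List (List ℕ × Op) :=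
[
  ⟨[7, 13, 19, 25, 25], .win [2, 0, 1, 3, 4]⟩,
  ⟨[3, 7, 13, 25, 25], .win [0, 1, 2, 3, 4]⟩,
  ⟨[13, 19, 25, 31], .win [1, 3, 0, 2, 3]⟩,
  ⟨[3, 13, 25, 31], .win [0, 3, 1, 2, 3]⟩,
  ⟨[3, 13, 22, 25, 25], .win [0, 2, 1, 3, 4]⟩,
  ⟨[6, 13, 19, 25, 25], .win [2, 0, 1, 3, 4]⟩,
  ⟨[13, 22, 25, 27], .win [3, 1, 0, 2, 3]⟩,
  ⟨[13, 19, 25, 30], .win [1, 3, 0, 2, 3]⟩,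
  ⟨[13, 19, 23, 25, 25], .win [1, 2, 0, 3, 4]⟩,
  ⟨[3, 13, 23, 25, 25], .win [0, 2, 1, 3, 4]⟩,
  ⟨[13, 19, 23, 24, 25], .win [1, 2, 0, 3, 4]⟩,
  ⟨[13, 23, 25, 27], .win [3, 1, 0, 2, 3]⟩,
  ⟨[23, 25, 25, 31], .win [3, 0, 3, 1, 2]⟩,
  ⟨[15, 23, 25, 25], .win [0, 1, 0, 2, 3]⟩,
  ⟨[3, 23, 25, 25, 28], .win [0, 1, 4, 2, 3]⟩,
  ⟨[12, 19, 23, 25, 25], .win [1, 2, 0, 3, 4]⟩,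
  ⟨[6, 25, 25, 31], .win [3, 0, 3, 1, 2]⟩,
  ⟨[15, 22, 25, 25], .win [0, 1, 0, 2, 3]⟩,
  ⟨[7, 25, 27, 28], .win [2, 0, 3, 1, 2]⟩,
  ⟨[7, 24, 25, 31], .win [3, 0, 3, 1, 2]⟩,
  ⟨[7, 19, 24, 25, 29], .win [1, 0, 4, 2, 3]⟩,
  ⟨[7, 25, 27, 29], .win [2, 0, 3, 1, 2]⟩,
  ⟨[3, 22, 25, 25, 29], .win [0, 1, 4, 2, 3]⟩,
  ⟨[6, 19, 25, 25, 29], .win [1, 0, 4, 2, 3]⟩,
  ⟨[19, 23, 25, 25, 29], .win [0, 1, 4, 2, 3]⟩,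
  ⟨[3, 23, 25, 25, 29], .win [0, 1, 4, 2, 3]⟩,
  ⟨[23, 25, 27, 29], .win [2, 0, 3, 1, 2]⟩,
  ⟨[19, 23, 24, 25, 29], .win [0, 1, 4, 2, 3]⟩,
  ⟨[19, 25, 29, 30], .win [0, 3, 2, 1, 3]⟩,
  ⟨[22, 25, 27, 29], .win [2, 0, 3, 1, 2]⟩,
  ⟨[27, 29, 31], .win [0, 2, 1, 0, 2]⟩,
  ⟨[19, 24, 29, 31], .win [0, 3, 2, 1, 3]⟩,
  ⟨[25, 30, 31], .win [2, 1, 2, 0, 1]⟩,
  ⟨[24, 31, 31], .win [1, 2, 1, 0, 2]⟩,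
  ⟨[27, 28, 31], .win [0, 2, 1, 0, 2]⟩,
  ⟨[26, 29, 31], .move 0 1 (.ask 0 1 (.act 4 32 [1, 0, 2]) (.ask 0 2 (.act 2 33 [0, 1, 2]) (.act 1 34 [0, 1, 2])))⟩,
  ⟨[18, 25, 29, 31], .move 0 1 (.ask 0 1 (.act 8 35 [0, 2, 3]) (.ask 0 3 (.act 2 30 [1, 2, 3]) (.act 1 31 [0, 1, 2, 3])))⟩,
  ⟨[23, 25, 26, 29], .move 0 2 (.ask 0 2 (.act 8 36 [2, 1, 3, 0]) (.ask 0 3 (.act 4 28 [0, 1, 3, 2]) (.act 1 29 [0, 1, 2, 3])))⟩,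
  ⟨[18, 23, 25, 25, 29], .move 0 2 (.ask 0 1 (.act 8 37 [1, 3, 0, 4]) (.ask 0 3 (.act 2 26 [1, 3, 2, 4]) (.act 1 27 [0, 1, 2, 3, 4])))⟩,
  ⟨[2, 23, 25, 25, 29], .move 0 5 (.ask 0 1 (.act 16 38 [0, 1, 2, 3, 4]) (.ask 0 4 (.act 2 24 [5, 1, 2, 3, 4]) (.act 1 25 [0, 1, 2, 3, 4])))⟩,
  ⟨[7, 18, 25, 25, 29], .move 0 1 (.ask 0 2 (.act 16 39 [1, 0, 2, 3, 4]) (.ask 0 4 (.act 4 22 [0, 1, 2, 3, 4]) (.act 1 23 [0, 1, 2, 3, 4])))⟩,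
  ⟨[7, 25, 26, 29], .move 2 4 (.ask 0 1 (.act 8 40 [0, 2, 1, 4, 3]) (.ask 0 3 (.act 2 20 [0, 4, 2, 1, 3]) (.act 1 21 [0, 1, 2, 3])))⟩,
  ⟨[7, 25, 25, 30], .move 1 3 (.ask 0 1 (.act 4 41 [0, 2, 3, 1]) (.ask 0 2 (.act 2 18 [0, 2, 1, 3]) (.act 1 19 [0, 1, 2, 3])))⟩,
  ⟨[14, 23, 25, 25], .move 0 1 (.ask 0 3 (.act 16 42 [1, 2, 3, 0]) (.ask 0 4 (.act 8 16 [0, 2, 3, 1]) (.act 1 17 [0, 1, 2, 3])))⟩,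
  ⟨[13, 18, 23, 25, 25], .move 0 1 (.ask 0 1 (.act 3 43 [0, 2, 3, 4]) (.ask 0 2 (.ask 1 3 (.act 16 39 [1, 2, 3, 4, 0]) (.ask 1 4 (.act 18 12 [2, 3, 4, 0]) (.act 2 13 [0, 2, 3, 4]))) (.ask 0 3 (.ask 1 2 (.act 16 39 [1, 2, 3, 4, 0]) (.ask 1 4 (.act 18 12 [2, 3, 4, 0]) (.act 2 13 [0, 2, 3, 4]))) (.ask 0 4 (.act 17 14 [1, 2, 3, 4, 0]) (.act 1 15 [0, 1, 2, 3, 4])))))⟩,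
  ⟨[13, 23, 25, 26], .move 3 4 (.ask 0 1 (.act 8 44 [0, 3, 1, 2, 4]) (.ask 0 3 (.act 2 10 [0, 4, 1, 3, 2]) (.act 1 11 [0, 1, 2, 3])))⟩,
  ⟨[2, 13, 23, 25, 25], .move 0 5 (.ask 0 1 (.act 16 44 [1, 0, 2, 3, 4]) (.ask 0 4 (.act 2 8 [1, 5, 2, 3, 4]) (.act 1 9 [0, 1, 2, 3, 4])))⟩,
  ⟨[13, 18, 25, 31], .move 1 3 (.ask 0 2 (.act 8 45 [0, 3, 2, 1]) (.ask 0 3 (.act 4 6 [0, 1, 2, 3]) (.act 1 7 [0, 1, 2, 3])))⟩,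
  ⟨[7, 13, 18, 25, 25], .move 0 2 (.ask 0 2 (.act 16 46 [2, 1, 0, 3, 4]) (.ask 0 4 (.act 4 4 [0, 1, 2, 3, 4]) (.act 1 5 [0, 1, 2, 3, 4])))⟩,
  ⟨[2, 13, 25, 31], .move 0 4 (.ask 0 1 (.act 16 47 [1, 0, 2, 3]) (.ask 0 4 (.act 2 2 [1, 4, 2, 3]) (.act 1 3 [0, 1, 2, 3])))⟩,
  ⟨[2, 7, 13, 25, 25], .move 0 5 (.ask 0 1 (.act 16 48 [1, 2, 0, 3, 4]) (.ask 0 4 (.act 2 0 [1, 2, 5, 3, 4]) (.act 1 1 [0, 1, 2, 3, 4])))⟩]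

theorem certA_ok : tabOk cfgA [] certA = true := by decide +kernel

end Pool.Agent.Helper82.EC3
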