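import Pool.Agent.Helper82.EC3.St
import Pool.Agent.Helper82.EC3.CertA

/-!
# MP_47b98d_co, third generation: fork lemma, one light vertex
-/

set_option autoImplicit false

open Finset
open scoped Classical

namespace Pool.Agent.Helper82.EC3

open EC EC.MGraph EC2

namespace LAS

theorem mem1 : ∃ o, (([2, 7, 13, 25, 25], o) : List ℕ × Op) ∈ certA :=
  ⟨_, List.getElem_mem (l := certA) (n := 50) (by decide)⟩

theorem mem2 : ∃ o, (([2, 13, 25, 31], o) : List ℕ × Op) ∈ certA :=
  ⟨_, List.getElem_mem (l := certA) (n := 49) (by decide)⟩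

theorem main (hGM : StGM) (hIni : StIni) (hCard : StCard) {V E : Type} [Fintype V] [Fintype E]
    {G : MGraph V E} {D : ℕ} {φ : E → Option (Fin D)} {e : E} {x y : V} (hc : G.Crit D φ e x y)
    (hy : G.deg y ≤ D) {β γ τ₁ τ₂ : Fin D} {f g h₁ h₂ : E} {v w t : V} (hβ : G.Miss φ x β)
    (hf : G.ends f = s(y, v)) (hfβ : φ f = some β) (hγ : G.Miss φ x γ) (hg : G.ends g = s(v, w))
    (hgγ : φ g = some γ) (hwx : w ≠ x) (hwy : w ≠ y) (hτ₁ : G.Miss φ x τ₁)
    (hτ₂ : G.Miss φ x τ₂) (hh₁ : G.ends h₁ = s(w, t)) (hhτ₁ : φ h₁ = some τ₁)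
    (hh₂ : G.ends h₂ = s(w, t)) (hhτ₂ : φ h₂ = some τ₂) (hne : h₁ ≠ h₂) (htx : t ≠ x)
    (hty : t ≠ y) (htv : t ≠ v) (hD : G.deg x + G.deg t + 6 ≤ D) (hτβ : τ₂ ≠ β) : False := by
  -- the vertices are different
  have hxy : x ≠ y := hc.ne
  have hyv : y ≠ v := ne_of_ends hf
  have hvw : v ≠ w := ne_of_ends hg
  have hwt : w ≠ t := ne_of_ends hh₁
  have hvx : v ≠ x := by
    rintro rfl
    exact hβ f (mem_ends_right hf) hfβ
  -- the edges are different
  have hef : e ≠ f := by
    rintro rfl
    rw [hc.unc] at hfβ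
    cases hfβ
  have heg : e ≠ g := by
    rintro rfl
    rw [hc.unc] at hgγ
    cases hgγ
  have heh₁ : e ≠ h₁ := by
    rintro rfl
    rw [hc.unc] at hhτ₁
    cases hhτ₁
  have heh₂ : e ≠ h₂ := by
    rintro rfl
    rw [hc.unc] at hhτ₂
    cases hhτ₂
  have hfg : f ≠ g := by
    rintro rfl
    have h1 : y ∈ G.ends f := mem_ends_left hf
    rw [mem_ends_iff hg] at h1
    rcases h1 with h1 | h1
    · exact hyv h1
    · exact hwy h1.symm
  have hfh : ∀ h, G.ends h = s(w, t) → f ≠ h := by
    rintro h hh rfl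
    have h1 : y ∈ G.ends f := mem_ends_left hf
    rw [mem_ends_iff hh] at h1
    rcases h1 with h1 | h1
    · exact hwy h1.symm
    · exact hty h1.symm
  have hgh : ∀ h, G.ends h = s(w, t) → g ≠ h := by
    rintro h hh rfl
    have h1 : v ∈ G.ends g := mem_ends_left hg
    rw [mem_ends_iff hh] at h1
    rcases h1 with h1 | h1
    · exact hvw h1
    · exact htv h1.symm
  -- the colours
  obtain ⟨α, hα⟩ : ∃ α, G.Miss φ y α := by
    have h1 := (hCard V E G D φ e x y hc).2.1
    have h2 : 0 < (G.miss φ y).card := by omega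
    obtain ⟨α, hα⟩ := Finset.card_pos.1 h2
    exact ⟨α, mem_miss.1 hα⟩
  have hαx : ∀ c, G.Miss φ x c → α ≠ c := by
    rintro c hcx rfl
    exact hc.disj hcx hα
  have hβγ : β ≠ γ := by
    rintro rfl
    exact hfg (hc.proper f g v _ (mem_ends_right hf) (mem_ends_left hg) hfβ hgγ)
  have hτ : τ₁ ≠ τ₂ := by
    rintro rfl
    exact hne (hc.proper h₁ h₂ w _ (mem_ends_left hh₁) (mem_ends_left hh₂) hhτ₁ hhτ₂)
  have hγτ₁ : γ ≠ τ₁ := by
    rintro rfl
    exact hgh h₁ hh₁ (hc.proper g h₁ w _ (mem_ends_right hg) (mem_ends_left hh₁) hgγ hhτ₁)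
  have hγτ₂ : γ ≠ τ₂ := by
    rintro rfl
    exact hgh h₂ hh₂ (hc.proper g h₂ w _ (mem_ends_right hg) (mem_ends_left hh₂) hgγ hhτ₂)
  -- the configuration
  set T : ℕ → V := fun i => [x, y, v, w, t].getD i t with hT
  set te : ℕ → E := fun i => [e, f, g, h₁, h₂].getD i h₂ with hte
  have hPos : Pos cfgA G D T te := by
    refine ⟨?_, ?_, hc.nocol, ?_, ?_, ?_⟩
    · intro k hk
      change k < 5 at hk
      interval_cases k
      · exact hc.ends_eq
      · exact hf
      · exact hg
      · exact hh₁
      · exact hh₂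
    · intro k hk l hl h
      change k < 5 at hk
      change l < 5 at hl
      have a1 := hfh h₁ hh₁
      have a2 := hfh h₂ hh₂
      have a3 := hgh h₁ hh₁
      have a4 := hgh h₂ hh₂
      interval_cases k <;> interval_cases l <;>
        first
        | rfl
        | exact absurd h hef
        | exact absurd h heg
        | exact absurd h heh₁
        | exact absurd h heh₂
        | exact absurd h hfg
        | exact absurd h a1
        | exact absurd h a2
        | exact absurd h a3
        | exact absurd h a4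
        | exact absurd h hne
        | exact absurd h hef.symm
        | exact absurd h heg.symm
        | exact absurd h heh₁.symm
        | exact absurd h heh₂.symm
        | exact absurd h hfg.symm
        | exact absurd h a1.symm
        | exact absurd h a2.symm
        | exact absurd h a3.symm
        | exact absurd h a4.symm
        | exact absurd h hne.symm
    · intro k hk l hl h
      change k < 5 at hk
      change l < 5 at hl
      interval_cases k <;> interval_cases l <;>
        first
        | rfl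
        | exact absurd h hxy
        | exact absurd h hvx.symm
        | exact absurd h hwx.symm
        | exact absurd h htx.symm
        | exact absurd h hyv
        | exact absurd h hwy.symm
        | exact absurd h hty.symm
        | exact absurd h hvw
        | exact absurd h htv.symm
        | exact absurd h hwt
        | exact absurd h hxy.symm
        | exact absurd h hvx
        | exact absurd h hwx
        | exact absurd h htx
        | exact absurd h hyv.symm
        | exact absurd h hwy
        | exact absurd h hty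
        | exact absurd h hvw.symm
        | exact absurd h htv
        | exact absurd h hwt.symm
    · intro k hk
      change k < 5 at hk
      interval_cases k <;> decide
    · have h1 : (range cfgA.n).filter (fun i => cfgA.light.testBit i = true) = {0, 4} := by
        decide
      rw [h1, Finset.sum_pair (by norm_num)]
      exact hD
  obtain ⟨ψ, hψ, hunc, hmiss, hte'⟩ := hIni V E G D φ e x y hc 5 te ⟨0, by norm_num, rfl⟩
  have mα : G.Miss ψ y α := hmiss y α hα
  have mβx : G.Miss ψ x β := hmiss x β hβ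
  have mβy : G.Miss ψ y β := hte' 1 (by norm_num) y (mem_ends_left hf) β hfβ
  have mβv : G.Miss ψ v β := hte' 1 (by norm_num) v (mem_ends_right hf) β hfβ
  have mγx : G.Miss ψ x γ := hmiss x γ hγ
  have mγv : G.Miss ψ v γ := hte' 2 (by norm_num) v (mem_ends_left hg) γ hgγ
  have mγw : G.Miss ψ w γ := hte' 2 (by norm_num) w (mem_ends_right hg) γ hgγ
  have m1x : G.Miss ψ x τ₁ := hmiss x τ₁ hτ₁
  have m1w : G.Miss ψ w τ₁ := hte' 3 (by norm_num) w (mem_ends_left hh₁) τ₁ hhτ₁
  have m1t : G.Miss ψ t τ₁ := hte' 3 (by norm_num) t (mem_ends_right hh₁) τ₁ hhτ₁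
  have m2x : G.Miss ψ x τ₂ := hmiss x τ₂ hτ₂
  have m2w : G.Miss ψ w τ₂ := hte' 4 (by norm_num) w (mem_ends_left hh₂) τ₂ hhτ₂
  have m2t : G.Miss ψ t τ₂ := hte' 4 (by norm_num) t (mem_ends_right hh₂) τ₂ hhτ₂
  have aβ := hαx β hβ
  have aγ := hαx γ hγ
  have a₁ := hαx τ₁ hτ₁
  have a₂ := hαx τ₂ hτ₂
  by_cases h : τ₁ = β
  · subst h
    obtain ⟨o, ho⟩ := mem2
    refine hGM cfgA certA certA_ok V E G D T te hPos _ ho ψ [α, γ, τ₂, τ₁] ?_
    refine ⟨hψ, hunc, ?_, rfl, ?_⟩
    · simp only [List.nodup_cons, List.mem_cons, List.not_mem_nil, or_false, not_or,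
        not_false_eq_true, List.nodup_nil, and_true]
      exact ⟨⟨aγ, a₂, a₁⟩, ⟨hγτ₂, hγτ₁⟩, hτ.symm⟩
    · intro k hk i hi hb
      change k < 4 at hk
      change i < 5 at hi
      change (([2, 13, 25, 31] : List ℕ).getD k 0).testBit i = true at hb
      interval_cases k <;> interval_cases i <;>
        first
        | exact absurd hb (by decide)
        | exact mα
        | exact mγx
        | exact mγv
        | exact mγw
        | exact m2x
        | exact m2w
        | exact m2t
        | exact m1x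
        | exact mβy
        | exact mβv
        | exact m1w
        | exact m1t
  · obtain ⟨o, ho⟩ := mem1
    refine hGM cfgA certA certA_ok V E G D T te hPos _ ho ψ [α, β, γ, τ₁, τ₂] ?_
    refine ⟨hψ, hunc, ?_, rfl, ?_⟩
    · simp only [List.nodup_cons, List.mem_cons, List.not_mem_nil, or_false, not_or,
        not_false_eq_true, List.nodup_nil, and_true]
      exact ⟨⟨aβ, aγ, a₁, a₂⟩, ⟨hβγ, fun h' => h h'.symm, hτβ.symm⟩, ⟨hγτ₁, hγτ₂⟩, hτ⟩
    · intro k hk i hi hb
      change k < 5 at hk
      change i < 5 at hi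
      change (([2, 7, 13, 25, 25] : List ℕ).getD k 0).testBit i = true at hb
      interval_cases k <;> interval_cases i <;>
        first
        | exact absurd hb (by decide)
        | exact mα
        | exact mβx
        | exact mβy
        | exact mβv
        | exact mγx
        | exact mγv
        | exact mγw
        | exact m2x
        | exact m2w
        | exact m2t
        | exact m1x
        | exact m1w
        | exact m1t

end LAS

theorem stLAs (hGM : StGM) (hIni : StIni) (hCard : StCard) : StLAs := by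
  intro V E _ _ G D φ e x y hc hy β γ τ₁ τ₂ f g h₁ h₂ v w t hβ hf hfβ hγ hg hgγ hwx hwy hτ₁ hτ₂
    hh₁ hhτ₁ hh₂ hhτ₂ hne htx hty htv hD
  by_cases h : τ₂ = β
  · have h' : τ₁ ≠ β := by
      intro h'
      have h2 : τ₁ = τ₂ := h'.trans h.symm
      subst h2
      exact hne (hc.proper h₁ h₂ w _ (mem_ends_left hh₁) (mem_ends_left hh₂) hhτ₁ hhτ₂)
    exact LAS.main hGM hIni hCard hc hy hβ hf hfβ hγ hg hgγ hwx hwy hτ₂ hτ₁ hh₂ hhτ₂ hh₁ hhτ₁
      hne.symm htx hty htv hD h'
  · exact LAS.main hGM hIni hCard hc hy hβ hf hfβ hγ hg hgγ hwx hwy hτ₁ hτ₂ hh₁ hhτ₁ hh₂ hhτ₂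
      hne htx hty htv hD h

end Pool.Agent.Helper82.EC3
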