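import Pool.Agent.Helper82.EC3.St

set_option autoImplicit false

open Finset
open scoped Classical

namespace Pool.Agent.Helper82.EC3

open EC EC.MGraph EC2

theorem stLk1 (hCard : StCard) (hF1 : StF1) : StLk1 := by
  intro V E _ _ G D φ e x y hcr hy c k t hk hφk htx hdeg
  refine ⟨∅, by simp, fun n _ hxn htn => ?_⟩
  by_contra hr
  have hψ := hcr.swap c n t
  have htk : t ∈ G.ends k := mem_ends_right hk
  have hψk : G.swapC φ c n t k = some n := by
    rw [swapC_of_reach htk (SimpleGraph.Reachable.refl t), hφk]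
    simp
  have hψx : G.Miss (G.swapC φ c n t) x n := (miss_swap_of_not_reach hr).mpr hxn
  have h1 := hF1 V E G D _ e x y hψ hy n k t hψx hk hψk
  obtain ⟨c1, -, c3⟩ := hCard V E G D _ e x y hψ
  have hty : t ≠ y := (ne_of_ends hk).symm
  have c4 := c3 t htx hty
  have hdisj : Disjoint (G.miss (G.swapC φ c n t) t) (G.miss (G.swapC φ c n t) x) := by
    rw [Finset.disjoint_left]
    intro c' h h'
    exact (h1 c' (mem_miss.mp h)).1 (mem_miss.mp h')
  have h2 := Finset.card_union_of_disjoint hdisj
  have h3 := Finset.card_le_univ (G.miss (G.swapC φ c n t) t ∪ G.miss (G.swapC φ c n t) x)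
  rw [Fintype.card_fin] at h3
  omega

end Pool.Agent.Helper82.EC3
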