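import Pool.Agent.Helper82.EC3.St

set_option autoImplicit false

open Finset
open scoped Classical

namespace Pool.Agent.Helper82.EC3

open EC EC.MGraph EC2

namespace LK2

variable {V E : Type} {G : MGraph V E} {D : ℕ}

theorem not_lk {φ : E → Option (Fin D)} {x t : V} {c : Fin D} (h : ¬ Lk G φ x t c)
    (Z : Finset (Fin D)) (hZ : Z.card ≤ 5) :
    ∃ n, n ∉ Z ∧ G.Miss φ x n ∧ G.Miss φ t n ∧ ¬ (G.KG φ c n).Reachable t x := by
  by_contra hcon
  apply h
  refine ⟨Z, hZ, fun n h1 h2 h3 => ?_⟩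
  by_contra h4
  exact hcon ⟨n, h1, h2, h3, h4⟩

theorem ne_of_miss {φ : E → Option (Fin D)} {t : V} {c n : Fin D} {h : E} (ht : t ∈ G.ends h)
    (hc : φ h = some c) (hn : G.Miss φ t n) : n ≠ c := by
  intro hnc
  exact hn h ht (by rw [hc, hnc])

theorem swap_some_iff {φ : E → Option (Fin D)} {a b : Fin D} {w : V} {f : E} {d : Fin D}
    (ha : d ≠ a) (hb : d ≠ b) : G.swapC φ a b w f = some d ↔ φ f = some d := by
  constructor
  · intro h
    unfold swapC at h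
    split_ifs at h with h1
    · cases hφ : φ f with
      | none => rw [hφ] at h; simp at h
      | some d' =>
        rw [hφ] at h
        simp only [Option.map_some] at h
        have h2 := Option.some_injective _ h
        have h3 : d' = Equiv.swap a b d := by rw [← h2, Equiv.swap_apply_self]
        rw [Equiv.swap_apply_of_ne_of_ne ha hb] at h3
        rw [h3]
    · exact h
  · intro h
    exact swapC_some h ha hb

theorem KG_swap {φ : E → Option (Fin D)} {a b c d : Fin D} {w : V} (hca : c ≠ a) (hcb : c ≠ b)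
    (hda : d ≠ a) (hdb : d ≠ b) : G.KG (G.swapC φ a b w) c d = G.KG φ c d := by
  ext u v
  constructor
  · rintro ⟨h1, f, hf, h2⟩
    refine ⟨h1, f, hf, ?_⟩
    rcases h2 with h2 | h2
    · exact Or.inl ((swap_some_iff hca hcb).mp h2)
    · exact Or.inr ((swap_some_iff hda hdb).mp h2)
  · rintro ⟨h1, f, hf, h2⟩
    refine ⟨h1, f, hf, ?_⟩
    rcases h2 with h2 | h2
    · exact Or.inl ((swap_some_iff hca hcb).mpr h2)
    · exact Or.inr ((swap_some_iff hda hdb).mpr h2)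

theorem swap_own {φ : E → Option (Fin D)} {c n : Fin D} {t : V} {h : E} (ht : t ∈ G.ends h)
    (hc : φ h = some c) : G.swapC φ c n t h = some n := by
  rw [swapC_of_reach ht (SimpleGraph.Reachable.refl t), hc]
  simp

end LK2

open LK2 in
theorem stLk2 (hd : StLAd) (hs : StLAs) : StLk2 := by
  intro V E _ _ G D φ e x y hcr hy β γ c₁ c₂ f g h₁ h₂ v w t₁ t₂ hxβ hf hφf hxγ hg hφg hwx hwy
    hh₁ hφ₁ hh₂ hφ₂ hne ht₁x ht₁y ht₁v ht₂x ht₂y ht₂v hdeg hn₁
  by_contra hn₂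
  have ht₁ : t₁ ∈ G.ends h₁ := mem_ends_right hh₁
  have ht₂ : t₂ ∈ G.ends h₂ := mem_ends_right hh₂
  have hw₁ : w ∈ G.ends h₁ := mem_ends_left hh₁
  have hw₂ : w ∈ G.ends h₂ := mem_ends_left hh₂
  have hwg : w ∈ G.ends g := mem_ends_right hg
  have hvg : v ∈ G.ends g := mem_ends_left hg
  have hvf : v ∈ G.ends f := mem_ends_right hf
  have hvw : v ≠ w := ne_of_ends hg
  have hyv : y ≠ v := ne_of_ends hf
  have hc12 : c₁ ≠ c₂ := fun h => hne (hcr.proper h₁ h₂ w c₁ hw₁ hw₂ hφ₁ (by rw [hφ₂, h]))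
  have hγ1 : γ ≠ c₁ := by
    intro h
    have h5 := hcr.proper g h₁ w γ hwg hw₁ hφg (by rw [hφ₁, h])
    rw [h5, hh₁] at hvg
    rcases Sym2.mem_iff.mp hvg with h6 | h6
    · exact hvw h6
    · exact ht₁v h6.symm
  have hγ2 : γ ≠ c₂ := by
    intro h
    have h5 := hcr.proper g h₂ w γ hwg hw₂ hφg (by rw [hφ₂, h])
    rw [h5, hh₂] at hvg
    rcases Sym2.mem_iff.mp hvg with h6 | h6
    · exact hvw h6
    · exact ht₂v h6.symm
  have hβγ : β ≠ γ := by
    intro h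
    have h5 := hcr.proper f g v β hvf hvg hφf (by rw [hφg, h])
    have hwf : w ∈ G.ends f := by rw [h5]; exact hwg
    rw [hf] at hwf
    rcases Sym2.mem_iff.mp hwf with h6 | h6
    · exact hwy h6
    · exact hvw h6.symm
  -- the end of the proof
  have fin : ∀ (ψ : E → Option (Fin D)) (τ₁ τ₂ : Fin D), G.Crit D ψ e x y → G.Miss ψ x β →
      ψ f = some β → G.Miss ψ x γ → ψ g = some γ → G.Miss ψ x τ₁ → ψ h₁ = some τ₁ →
      G.Miss ψ x τ₂ → ψ h₂ = some τ₂ → False := by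
    intro ψ τ₁ τ₂ k1 k2 k3 k4 k5 k6 k7 k8 k9
    by_cases htt : t₁ = t₂
    · subst htt
      exact hs V E G D ψ e x y k1 hy β γ τ₁ τ₂ f g h₁ h₂ v w t₁ k2 hf k3 k4 hg k5 hwx hwy k6 k8
        hh₁ k7 hh₂ k9 hne ht₁x ht₁y ht₁v (by omega)
    · exact hd V E G D ψ e x y k1 hy β γ τ₁ τ₂ f g h₁ h₂ v w t₁ t₂ k2 hf k3 k4 hg k5 hwx hwy k6
        k8 hh₁ k7 hh₂ k9 htt ht₁x ht₁y ht₁v ht₂x ht₂y ht₂v hdeg
  by_cases h1 : c₁ = β
  · -- only the second label
    have hc2 : c₂ ≠ β := fun h => hc12 (h1.trans h.symm)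
    obtain ⟨n, hnZ, hxn, htn, hr⟩ := not_lk hn₂ {β, γ} (Finset.card_le_two.trans (by norm_num))
    have hnβ : n ≠ β := fun h => hnZ (by simp [h])
    have hnγ : n ≠ γ := fun h => hnZ (by simp [h])
    refine fin (G.swapC φ c₂ n t₂) β n (hcr.swap c₂ n t₂)
      ((miss_swap_of_ne hc2.symm hnβ.symm).mpr hxβ) (swapC_some hφf hc2.symm hnβ.symm)
      ((miss_swap_of_ne hγ2 hnγ.symm).mpr hxγ) (swapC_some hφg hγ2 hnγ.symm)
      ((miss_swap_of_ne hc2.symm hnβ.symm).mpr hxβ)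
      (swapC_some (by rw [hφ₁, h1]) hc2.symm hnβ.symm)
      ((miss_swap_of_not_reach hr).mpr hxn) (swap_own ht₂ hφ₂)
  · by_cases h2 : c₂ = β
    · obtain ⟨n, hnZ, hxn, htn, hr⟩ := not_lk hn₁ {β, γ} (Finset.card_le_two.trans (by norm_num))
      have hnβ : n ≠ β := fun h => hnZ (by simp [h])
      have hnγ : n ≠ γ := fun h => hnZ (by simp [h])
      refine fin (G.swapC φ c₁ n t₁) n β (hcr.swap c₁ n t₁)
        ((miss_swap_of_ne (Ne.symm h1) hnβ.symm).mpr hxβ) (swapC_some hφf (Ne.symm h1) hnβ.symm)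
        ((miss_swap_of_ne hγ1 hnγ.symm).mpr hxγ) (swapC_some hφg hγ1 hnγ.symm)
        ((miss_swap_of_not_reach hr).mpr hxn) (swap_own ht₁ hφ₁)
        ((miss_swap_of_ne (Ne.symm h1) hnβ.symm).mpr hxβ)
        (swapC_some (by rw [hφ₂, h2]) (Ne.symm h1) hnβ.symm)
    · obtain ⟨n, hnZ, hxn, htn, hr⟩ := not_lk hn₁ {β, γ, c₂} (Finset.card_le_three.trans (by norm_num))
      have hnβ : n ≠ β := fun h => hnZ (by simp [h])
      have hnγ : n ≠ γ := fun h => hnZ (by simp [h])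
      have hnc2 : n ≠ c₂ := fun h => hnZ (by simp [h])
      obtain ⟨n', hnZ', hxn', htn', hr'⟩ := not_lk hn₂ {β, γ, c₁, n}
        (Finset.card_le_four.trans (by norm_num))
      have hnβ' : n' ≠ β := fun h => hnZ' (by simp [h])
      have hnγ' : n' ≠ γ := fun h => hnZ' (by simp [h])
      have hnc' : n' ≠ c₁ := fun h => hnZ' (by simp [h])
      have hnn' : n' ≠ n := fun h => hnZ' (by simp [h])
      -- first step
      have p1 := hcr.swap c₁ n t₁
      have p2 : G.Miss (G.swapC φ c₁ n t₁) x β := (miss_swap_of_ne (Ne.symm h1) hnβ.symm).mpr hxβ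
      have p3 : G.swapC φ c₁ n t₁ f = some β := swapC_some hφf (Ne.symm h1) hnβ.symm
      have p4 : G.Miss (G.swapC φ c₁ n t₁) x γ := (miss_swap_of_ne hγ1 hnγ.symm).mpr hxγ
      have p5 : G.swapC φ c₁ n t₁ g = some γ := swapC_some hφg hγ1 hnγ.symm
      have p6 : G.Miss (G.swapC φ c₁ n t₁) x n := (miss_swap_of_not_reach hr).mpr hxn
      have p7 : G.swapC φ c₁ n t₁ h₁ = some n := swap_own ht₁ hφ₁
      have p8 : G.swapC φ c₁ n t₁ h₂ = some c₂ := swapC_some hφ₂ hc12.symm hnc2.symm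
      have p9 : G.Miss (G.swapC φ c₁ n t₁) x n' := (miss_swap_of_ne hnc' hnn').mpr hxn'
      have p10 : ¬ (G.KG (G.swapC φ c₁ n t₁) c₂ n').Reachable t₂ x := by
        rw [KG_swap hc12.symm hnc2.symm hnc' hnn']
        exact hr'
      -- second step
      exact fin (G.swapC (G.swapC φ c₁ n t₁) c₂ n' t₂) n n' (p1.swap c₂ n' t₂)
        ((miss_swap_of_ne (Ne.symm h2) hnβ'.symm).mpr p2) (swapC_some p3 (Ne.symm h2) hnβ'.symm)
        ((miss_swap_of_ne hγ2 hnγ'.symm).mpr p4) (swapC_some p5 hγ2 hnγ'.symm)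
        ((miss_swap_of_ne hnc2 hnn'.symm).mpr p6) (swapC_some p7 hnc2 hnn'.symm)
        ((miss_swap_of_not_reach p10).mpr p9) (swap_own ht₂ p8)

end Pool.Agent.Helper82.EC3
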