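import Pool.Agent.Helper82.EC3.St

/-!
# MP_47b98d_co, third generation: module LK3, a linked label is missing neither at `x` nor at `y`
-/

set_option autoImplicit false

open Finset
open scoped Classical

namespace Pool.Agent.Helper82.EC3

open EC EC.MGraph EC2

theorem isol_LK3 {V E : Type} {G : MGraph V E} {D : ℕ} {φ : E → Option (Fin D)} {a b : Fin D}
    {x t : V} (hx : G.Miss φ x a) (hx' : G.Miss φ x b) (h : (G.KG φ a b).Reachable t x)
    (hne : t ≠ x) : False := by
  obtain ⟨w⟩ := h.symm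
  cases w with
  | nil => exact hne rfl
  | cons h1 _ =>
    obtain ⟨-, f, hf, hcol⟩ := h1
    rcases hcol with hcol | hcol
    · exact hx f (mem_ends_left hf) hcol
    · exact hx' f (mem_ends_left hf) hcol

theorem stLk3 (hEnd : StEnd) (hCard : StCard) : StLk3 := by
  intro V E _ _ G D φ e x y hc c t htx hty hdeg hlk
  obtain ⟨Z, hZ, hlk⟩ := hlk
  obtain ⟨h1, -, h3⟩ := hCard V E G D φ e x y hc
  have h4 := h3 t htx hty
  -- a common missing colour
  have h5 : ∃ n, n ∉ Z ∧ n ∈ G.miss φ x ∧ n ∈ G.miss φ t := by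
    by_contra hcon
    push Not at hcon
    have h6 : G.miss φ x ∩ G.miss φ t ⊆ Z := by
      intro n hn
      rw [mem_inter] at hn
      by_contra h7
      exact hcon n h7 hn.1 hn.2
    have h7 := card_le_card h6
    have h8 := card_union_add_card_inter (G.miss φ x) (G.miss φ t)
    have h9 : (G.miss φ x ∪ G.miss φ t).card ≤ D := by
      have := card_le_univ (G.miss φ x ∪ G.miss φ t)
      simpa using this
    omega
  obtain ⟨n, hnZ, hnx, hnt⟩ := h5
  rw [mem_miss] at hnx hnt
  have hr := hlk n hnZ hnx hnt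
  refine ⟨fun hmx => isol_LK3 hmx hnx hr htx, fun hmy => ?_⟩
  have hxy : x ≠ y := hc.ne
  exact hEnd V E G D φ c n hc.proper x y t hxy htx.symm (Ne.symm hty)
    (hc.link hmy hnx) hr.symm (Or.inr hnx) (Or.inl hmy) (Or.inr hnt)

end Pool.Agent.Helper82.EC3
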