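import Pool.Agent.Helper82.EC3.St

/-!
# EC3: module LK4
-/

set_option autoImplicit false

open Finset
open scoped Classical

namespace Pool.Agent.Helper82.EC3

open EC EC.MGraph EC2

theorem stLk4 (hEnd : StEnd) (hCard : StCard) : StLk4 := by
  intro V E _ _ G D φ e x y hcrit c t₁ t₂ h12 h1x h1y h2x h2y hdeg hL₁ hL₂
  obtain ⟨Z₁, hZ₁, h₁⟩ := hL₁
  obtain ⟨Z₂, hZ₂, h₂⟩ := hL₂
  obtain ⟨hcx, -, hcv⟩ := hCard V E G D φ e x y hcrit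
  have hc1 := hcv t₁ h1x h1y
  have hc2 := hcv t₂ h2x h2y
  have hcompl : ∀ s : Finset (Fin D), sᶜ.card = D - s.card := fun s => by
    rw [Finset.card_compl, Fintype.card_fin]
  have hU : (Z₁ ∪ (Z₂ ∪ ((G.miss φ x)ᶜ ∪ ((G.miss φ t₁)ᶜ ∪ (G.miss φ t₂)ᶜ)))).card < D := by
    have e1 := Finset.card_union_le Z₁ (Z₂ ∪ ((G.miss φ x)ᶜ ∪ ((G.miss φ t₁)ᶜ ∪ (G.miss φ t₂)ᶜ)))
    have e2 := Finset.card_union_le Z₂ ((G.miss φ x)ᶜ ∪ ((G.miss φ t₁)ᶜ ∪ (G.miss φ t₂)ᶜ))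
    have e3 := Finset.card_union_le (G.miss φ x)ᶜ ((G.miss φ t₁)ᶜ ∪ (G.miss φ t₂)ᶜ)
    have e4 := Finset.card_union_le (G.miss φ t₁)ᶜ (G.miss φ t₂)ᶜ
    have f1 := hcompl (G.miss φ x)
    have f2 := hcompl (G.miss φ t₁)
    have f3 := hcompl (G.miss φ t₂)
    have g0 : ∀ s : Finset (Fin D), s.card ≤ D := fun s => by
      have := Finset.card_le_univ s
      rwa [Fintype.card_fin] at this
    have g1 := g0 (G.miss φ x)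
    have g2 := g0 (G.miss φ t₁)
    have g3 := g0 (G.miss φ t₂)
    omega
  obtain ⟨n, hn⟩ : ∃ n : Fin D,
      n ∉ Z₁ ∪ (Z₂ ∪ ((G.miss φ x)ᶜ ∪ ((G.miss φ t₁)ᶜ ∪ (G.miss φ t₂)ᶜ))) := by
    by_contra hcon
    push Not at hcon
    have : (univ : Finset (Fin D)) ⊆ Z₁ ∪ (Z₂ ∪ ((G.miss φ x)ᶜ ∪ ((G.miss φ t₁)ᶜ ∪ (G.miss φ t₂)ᶜ))) :=
      fun n _ => hcon n
    have := Finset.card_le_card this
    rw [Finset.card_univ, Fintype.card_fin] at this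
    omega
  simp only [Finset.mem_union, Finset.mem_compl, not_or, not_not, mem_miss] at hn
  obtain ⟨hnZ₁, hnZ₂, hnx, hn1, hn2⟩ := hn
  exact hEnd V E G D φ c n hcrit.proper x t₁ t₂ h1x.symm h2x.symm h12
    (h₁ n hnZ₁ hnx hn1).symm (h₂ n hnZ₂ hnx hn2).symm (Or.inr hnx) (Or.inr hn1) (Or.inr hn2)

end Pool.Agent.Helper82.EC3
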