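import Pool.Agent.Helper82.EC3.St
import Pool.Agent.Helper82.EC.A_Fan

/-!
# MP_47b98d_co, third generation: the master inequality
-/

set_option autoImplicit false

open Finset
open scoped Classical

namespace Pool.Agent.Helper82.EC3

open EC EC.MGraph EC2

theorem stMI (h1 : StLk1) (h2 : StLk2) (h3 : StLk3) (h4 : StLk4) (hCard : StCard) : StMI := by
  intro V E _ _ G D hdeg φ e x y hC hFan v hv
  obtain ⟨cx, cy, -⟩ := hCard V E G D φ e x y hC
  have hxy : x ≠ y := hC.ne
  obtain ⟨f, hf, hfv⟩ := mem_image.1 hv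
  have hf' := hf
  rw [fanSet, mem_filter, mem_inc] at hf'
  obtain ⟨hyf, β, hβ, hfβ⟩ := hf'
  have hends : G.ends f = s(y, v) := by rw [← hfv]; exact opp_spec hyf
  have hvx : v ≠ x := by rw [← hfv]; exact hFan.opp_ne f hf
  have hvy : v ≠ y := by rw [← hfv]; exact opp_ne hyf
  have hdx : G.deg x ≤ D := hdeg x
  have hdy : G.deg y ≤ D := hdeg y
  have hdv : G.deg v ≤ D := hdeg v
  -- degrees
  have hs1 := hFan.sum_le
  have hs2 : D - G.deg v ≤ ∑ v ∈ (fanSet G φ x y).image (G.opp y), (D - G.deg v) :=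
    single_le_sum (f := fun v => D - G.deg v) (fun _ _ => Nat.zero_le _) hv
  have hxdy : D + 2 ≤ G.deg x + G.deg y := by omega
  have hxdv : D + 2 ≤ G.deg x + G.deg v := by omega
  have hcolE : ∀ g : E, g ≠ e → ∃ c, φ g = some c := fun g hg =>
    Option.ne_none_iff_exists'.1 (hC.col g hg)
  set B : Finset E := (G.inc v).filter fun g => ∃ c, φ g = some c ∧ ¬ G.Miss φ x c with hB
  refine ⟨B, filter_subset _ _, ?_, ?_⟩
  · have hc1 : (fanCols φ B).card = B.card := by
      refine card_fanCols (v := v) hC.proper B ?_ ?_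
      · intro g hg
        rw [hB, mem_filter, mem_inc] at hg
        exact hg.1
      · intro g hg
        rw [hB, mem_filter] at hg
        obtain ⟨-, c, hc, -⟩ := hg
        rw [hc]; simp
    have hc2 : Disjoint (fanCols φ B) (G.miss φ x) := by
      rw [disjoint_left]
      intro c hc hc'
      obtain ⟨g, hg, hgc⟩ := mem_fanCols.1 hc
      rw [hB, mem_filter] at hg
      obtain ⟨-, c', hc1, hc2⟩ := hg
      rw [hgc] at hc1
      rw [← Option.some_injective _ hc1] at hc2
      exact hc2 (mem_miss.1 hc')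
    have hc3 := fan_card3 (X := fanCols φ B) (Y := G.miss φ x) (Z := (∅ : Finset (Fin D))) hc2
      (disjoint_empty_right _) (disjoint_empty_right _)
    rw [card_empty, add_zero, hc1] at hc3
    omega
  · intro S W hS hxW hyW hW
    have hSd : ∀ p ∈ S, G.deg x + 2 * G.deg p + 10 ≤ D := by
      intro p hp
      have := hS p hp p hp
      omega
    have hSy : ∀ p ∈ S, p ≠ y := by
      rintro p hp rfl
      have := hSd p hp
      omega
    have hSv : ∀ p ∈ S, p ≠ v := by
      rintro p hp rfl
      have := hSd p hp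
      omega
    let H : V → Finset E := fun w => (G.inc w).filter fun h => G.opp w h ∈ S.erase x
    let L : V → Finset E := fun w => (H w).filter fun h =>
      ∃ c, φ h = some c ∧ Lk G φ x (G.opp w h) c
    have hH : ∀ w h, h ∈ H w → w ∈ G.ends h ∧ G.ends h = s(w, G.opp w h) ∧ G.opp w h ∈ S ∧
        G.opp w h ≠ x ∧ G.opp w h ≠ y ∧ G.opp w h ≠ v := by
      intro w h hh
      obtain ⟨hi, ho⟩ := mem_filter.1 hh
      rw [mem_inc] at hi
      have hoS := mem_of_mem_erase ho
      exact ⟨hi, opp_spec hi, hoS, ne_of_mem_erase ho, hSy _ hoS, hSv _ hoS⟩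
    have hHcol : ∀ w ∈ insert y W, ∀ h ∈ H w, ∃ c, φ h = some c := by
      intro w hw h hh
      apply hcolE
      rintro rfl
      obtain ⟨hi, hi2, -, hi3, -, -⟩ := hH w h hh
      rw [mem_ends_iff hC.ends_eq] at hi
      rcases mem_insert.1 hw with hwy | hw'
      · rw [hwy] at hi3
        exact hi3 (opp_eq (by rw [hC.ends_eq, Sym2.eq_swap]))
      · rcases hi with hi | hi
        · exact hxW (hi ▸ hw')
        · exact hyW (hi ▸ hw')
    -- (1)
    have hLy : L y = H y := by
      refine filter_true_of_mem ?_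
      intro h hh
      obtain ⟨c, hc⟩ := hHcol y (mem_insert_self _ _) h hh
      obtain ⟨-, g2, g3, g4, -, -⟩ := hH y h hh
      refine ⟨c, hc, h1 V E G D φ e x y hC hdy c h _ g2 hc g4 ?_⟩
      have := hSd _ g3
      omega
    -- (2)
    have hLW : ∀ w ∈ W, (H w).card ≤ (L w).card + 1 := by
      intro w hw
      obtain ⟨g, hgB, hgvw⟩ := hW w hw
      have hgne : g ≠ e := by
        rintro rfl
        have hv' := mem_ends_left hgvw
        rw [mem_ends_iff hC.ends_eq] at hv'
        rcases hv' with h | h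
        · exact hvx h
        · exact hvy h
      obtain ⟨γ, hγ⟩ := hcolE g hgne
      have hγx : G.Miss φ x γ := by
        by_contra hcon
        exact hgB (by rw [hB, mem_filter, mem_inc]; exact ⟨mem_ends_left hgvw, γ, hγ, hcon⟩)
      have hwx : w ≠ x := fun h => hxW (h ▸ hw)
      have hwy : w ≠ y := fun h => hyW (h ▸ hw)
      have hle : ((H w) \ (L w)).card ≤ 1 := by
        rw [card_le_one]
        intro a ha b hb
        by_contra hab
        obtain ⟨ha1, ha2⟩ := mem_sdiff.1 ha
        obtain ⟨hb1, hb2⟩ := mem_sdiff.1 hb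
        obtain ⟨c₁, hc₁⟩ := hHcol w (mem_insert_of_mem hw) a ha1
        obtain ⟨c₂, hc₂⟩ := hHcol w (mem_insert_of_mem hw) b hb1
        obtain ⟨-, a2, a3, a4, a5, a6⟩ := hH w a ha1
        obtain ⟨-, b2, b3, b4, b5, b6⟩ := hH w b hb1
        have hn : ¬ Lk G φ x (G.opp w a) c₁ := fun hl => ha2 (mem_filter.2 ⟨ha1, c₁, hc₁, hl⟩)
        have hl := h2 V E G D φ e x y hC hdy β γ c₁ c₂ f g a b v w _ _ hβ hends hfβ hγx hgvw hγ hwx
          hwy a2 hc₁ b2 hc₂ hab a4 a5 a6 b4 b5 b6 (by have := hS _ a3 _ b3; omega) hn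
        exact hb2 (mem_filter.2 ⟨hb1, c₂, hc₂, hl⟩)
      have := card_sdiff_add_card_eq_card (filter_subset (fun h =>
        ∃ c, φ h = some c ∧ Lk G φ x (G.opp w h) c) (H w))
      have e1 : (H w).filter (fun h => ∃ c, φ h = some c ∧ Lk G φ x (G.opp w h) c) = L w := rfl
      rw [e1] at this
      omega
    -- the colours
    have hmemL : ∀ w c, c ∈ fanCols φ (L w) → ∃ h ∈ H w, φ h = some c ∧
        Lk G φ x (G.opp w h) c := by
      intro w c hc
      obtain ⟨h, hh, hhc⟩ := mem_fanCols.1 hc
      obtain ⟨hh1, c', hc', hl⟩ := mem_filter.1 hh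
      rw [hhc] at hc'
      rw [← Option.some_injective _ hc'] at hl
      exact ⟨h, hh1, hhc, hl⟩
    have hLcard : ∀ w ∈ insert y W, (fanCols φ (L w)).card = (L w).card := by
      intro w hw
      refine card_fanCols (v := w) hC.proper _ ?_ ?_
      · intro h hh
        exact (hH w h (mem_of_mem_filter h hh)).1
      · intro h hh
        obtain ⟨c, hc⟩ := hHcol w hw h (mem_of_mem_filter h hh)
        rw [hc]; simp
    -- (3)
    have hL3 : ∀ w c, c ∈ fanCols φ (L w) → ¬ G.Miss φ x c ∧ ¬ G.Miss φ y c := by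
      intro w c hc
      obtain ⟨h, hh, -, hl⟩ := hmemL w c hc
      obtain ⟨-, -, g3, g4, g5, -⟩ := hH w h hh
      refine h3 V E G D φ e x y hC c _ g4 g5 ?_ hl
      have := hSd _ g3
      omega
    -- (4)
    have hL4 : (↑(insert y W) : Set V).PairwiseDisjoint fun w => fanCols φ (L w) := by
      intro w _ w' _ hww
      show Disjoint (fanCols φ (L w)) (fanCols φ (L w'))
      rw [disjoint_left]
      intro c hc hc'
      obtain ⟨h, hh, hhc, hl⟩ := hmemL w c hc
      obtain ⟨h', hh', hhc', hl'⟩ := hmemL w' c hc'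
      obtain ⟨-, g2, g3, g4, g5, -⟩ := hH w h hh
      obtain ⟨-, g2', g3', g4', g5', -⟩ := hH w' h' hh'
      by_cases ht : G.opp w h = G.opp w' h'
      · have hm : G.opp w h ∈ G.ends h := mem_ends_right g2
        have hm' : G.opp w h ∈ G.ends h' := by rw [ht]; exact mem_ends_right g2'
        have heq : h = h' := hC.proper h h' _ c hm hm' hhc hhc'
        subst heq
        apply hww
        have e1 : G.ends h = s(G.opp w h, w) := by rw [g2, Sym2.eq_swap]
        have e2 : G.ends h = s(G.opp w h, w') := by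
          conv_rhs => rw [ht, Sym2.eq_swap]
          exact g2'
        rw [e1] at e2
        exact Sym2.congr_right.1 e2
      · exact h4 V E G D φ e x y hC c _ _ ht g4 g5 g4' g5' (hS _ g3 _ g3') hl hl'
    -- counting
    have hdxy : Disjoint (G.miss φ x) (G.miss φ y) := by
      rw [disjoint_left]
      intro c h1 h2
      exact hC.disj (mem_miss.mp h1) (mem_miss.mp h2)
    have hcnt := fan_card3 (X := (insert y W).biUnion fun w => fanCols φ (L w))
      (Y := G.miss φ x) (Z := G.miss φ y)
      (by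
        rw [disjoint_biUnion_left]
        intro w _
        rw [disjoint_left]
        intro c hc hc'
        exact (hL3 w c hc).1 (mem_miss.1 hc'))
      (by
        rw [disjoint_biUnion_left]
        intro w _
        rw [disjoint_left]
        intro c hc hc'
        exact (hL3 w c hc).2 (mem_miss.1 hc')) hdxy
    rw [card_biUnion hL4, sum_congr rfl hLcard, sum_insert hyW, hLy] at hcnt
    have hsum : ∑ w ∈ W, (G.degTo w (S.erase x) - 1) ≤ ∑ w ∈ W, (L w).card := by
      refine sum_le_sum fun w hw => ?_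
      have h5 := hLW w hw
      have h6 : (H w).card = G.degTo w (S.erase x) := rfl
      omega
    have h7 : (H y).card = G.degTo y (S.erase x) := rfl
    omega

end Pool.Agent.Helper82.EC3
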