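import Pool.Agent.Helper82.EC3.St
import Pool.Agent.Helper82.EC.Basic

/-! # Module MNY (MP_47b98d_co) -/

set_option autoImplicit false

open Finset
open scoped Classical

namespace Pool.Agent.Helper82.EC3

open EC EC.MGraph EC2

theorem stMany (hPay : StPay) (hAc : StAc2) : StMany := by
  intro V E _ _ G D μ dt Q hT h3 w a hDeb S hS
  obtain ⟨hQw, hSm, hsp⟩ := hDeb
  have hAc' := hAc V E G D μ dt Q hT w hQw hSm
  have hsum := hAc'.2.1
  have hD : (2 : ℝ) ≤ D := by exact_mod_cast hT.two_le
  have hQpos : 0 < Q := by linarith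
  have hwD : G.deg w ≤ D := dt.deg_le w
  -- `s ≥ 1`
  have hs1 : 1 ≤ G.deg (dt.xx w) := by
    have : dt.ee w ∈ G.inc (dt.xx w) := by
      rw [mem_inc]
      exact mem_ends_left (dt.ends_eq w)
    exact Finset.card_pos.mpr ⟨_, this⟩
  have hs1' : (1 : ℝ) ≤ G.deg (dt.xx w) := by exact_mod_cast hs1
  set s : ℝ := (G.deg (dt.xx w) : ℝ) with hs
  set F1 : Finset E := (G.inc w).filter fun f => (G.deg (G.opp w f) : ℝ) + Q < D + 1 with hF1
  -- first claim
  have hM1 : F1.card ≤ G.degTo w (S.erase a) + G.mult a w := by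
    have hsub : F1 ⊆ ((G.inc w).filter fun f => G.opp w f ∈ S.erase a) ∪
        (univ.filter fun f => G.ends f = s(a, w)) := by
      intro f hf
      rw [hF1, Finset.mem_filter] at hf
      have hw : w ∈ G.ends f := mem_inc.mp hf.1
      have hsp := opp_spec hw
      rw [Finset.mem_union, Finset.mem_filter, Finset.mem_filter]
      by_cases ha : G.opp w f = a
      · right
        refine ⟨Finset.mem_univ _, ?_⟩
        rw [hsp, ha, Sym2.eq_swap]
      · left
        refine ⟨hf.1, ?_⟩
        rcases hS _ hf.2 with h | h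
        · exact absurd h ha
        · exact Finset.mem_erase.mpr ⟨ha, h⟩
    calc F1.card ≤ _ := Finset.card_le_card hsub
      _ ≤ _ := Finset.card_union_le _ _
  -- second claim
  have hQQ : QQ G D Q w ≤ (mm dt Q w : ℝ) + (F1.card : ℝ) * (Q / s - 2) := by
    have hb : ∀ f ∈ G.inc w, pay G D Q w (G.opp w f) ≤
        (if (G.deg (G.opp w f) : ℝ) < Q then (1 : ℝ) else 0) +
          (if (G.deg (G.opp w f) : ℝ) + Q < D + 1 then (Q / s - 2) else 0) := by
      intro f hf
      have hmin : s ≤ (G.deg (G.opp w f) : ℝ) := by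
        rw [hs]; exact_mod_cast dt.min_deg w f hf
      by_cases hsm : (G.deg (G.opp w f) : ℝ) + Q < D + 1
      · have hp : (G.deg (G.opp w f) : ℝ) < Q := by
          have := hT.lo
          linarith
        rw [if_pos hp, if_pos hsm]
        unfold EC2.pay
        rw [if_pos ⟨hQw, hp⟩, if_pos hsm]
        have : Q / (G.deg (G.opp w f) : ℝ) ≤ Q / s :=
          div_le_div_of_nonneg_left hQpos.le (by linarith) hmin
        linarith
      · by_cases hp : (G.deg (G.opp w f) : ℝ) < Q
        · rw [if_pos hp, if_neg hsm]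
          have h1 := (hPay V E G D μ dt Q hT w (G.opp w f)).2 (by linarith) hp
          have h2 : gg Q ((D : ℝ) + 1 - Q) = 1 := by
            unfold EC2.gg
            have : (D : ℝ) + 1 - Q = Q / 2 := by linarith
            rw [this]
            field_simp
            norm_num
          linarith [h1.2.1, h1.2.2]
        · rw [if_neg hp, if_neg hsm]
          unfold EC2.pay
          rw [if_neg (fun h => hp h.2)]
          norm_num
    have h1 : QQ G D Q w ≤ ∑ f ∈ G.inc w, ((if (G.deg (G.opp w f) : ℝ) < Q then (1 : ℝ) else 0) +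
          (if (G.deg (G.opp w f) : ℝ) + Q < D + 1 then (Q / s - 2) else 0)) := by
      unfold QQ
      exact Finset.sum_le_sum hb
    have h2 : ∑ f ∈ G.inc w, ((if (G.deg (G.opp w f) : ℝ) < Q then (1 : ℝ) else 0) +
          (if (G.deg (G.opp w f) : ℝ) + Q < D + 1 then (Q / s - 2) else 0)) =
        (mm dt Q w : ℝ) + (F1.card : ℝ) * (Q / s - 2) := by
      rw [Finset.sum_add_distrib, ← Finset.sum_filter, ← Finset.sum_filter, Finset.sum_const,
        Finset.sum_const, nsmul_eq_mul, nsmul_eq_mul, mul_one]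
      rfl
    linarith
  have hsp' : (G.deg w : ℝ) - Q - QQ G D Q w - al D Q * jj dt Q w < 0 := by
    unfold spare at hsp
    rwa [if_pos hSm] at hsp
  have hal : al D Q * (jj dt Q w : ℝ) ≤ jj dt Q w := by
    have h0 : (0 : ℝ) ≤ jj dt Q w := Nat.cast_nonneg _
    have h1 : al D Q ≤ 1 := by
      unfold EC2.al
      rw [div_le_one (by linarith)]
      linarith
    nlinarith
  have hcount : (mm dt Q w : ℝ) + jj dt Q w + ((D : ℝ) - G.deg w) + 1 = s := by
    have : ((mm dt Q w + jj dt Q w + (D - G.deg w) + 1 : ℕ) : ℝ) = s := by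
      rw [hs, hsum]
    rw [← this]
    push_cast [Nat.cast_sub hwD]
    ring
  have hSm' : s + Q < D + 1 := hSm
  set c : ℝ := (D : ℝ) + 1 - Q - s with hc
  have hcpos : 0 < c := by linarith
  have hkey : c < (F1.card : ℝ) * (Q / s - 2) := by linarith
  have hQs : Q / s - 2 = 2 * c / s := by
    have hQc : Q = 2 * (c + s) := by rw [hc]; linarith
    rw [eq_div_iff (by linarith), sub_mul, div_mul_cancel₀ _ (by linarith)]
    linarith
  have hfin : s < 2 * (F1.card : ℝ) := by
    rw [hQs] at hkey
    have h4 : (F1.card : ℝ) * (2 * c / s) = (2 * (F1.card : ℝ)) * c / s := by ring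
    rw [h4, lt_div_iff₀ (by linarith)] at hkey
    nlinarith
  have hfin' : G.deg (dt.xx w) < 2 * F1.card := by
    have : ((G.deg (dt.xx w) : ℕ) : ℝ) < ((2 * F1.card : ℕ) : ℝ) := by
      push_cast
      exact hfin
    exact_mod_cast this
  omega

end Pool.Agent.Helper82.EC3
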