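import Pool.Agent.Helper82.EC3.St

/-!
# EC3, module NC4: four polynomial inequalities
-/

set_option autoImplicit false

namespace Pool.Agent.Helper82.EC3

/-- reduction to an inequality multiplied by `D` -/
theorem red_NC4 {D R N L X : ℝ} (hD : 0 < D) (hR : R * D = N) (h : D * L ≤ (D - N) * X) :
    L ≤ (1 - R) * X := by
  have h1 : (D - N) * X = D * ((1 - R) * X) := by rw [← hR]; ring
  rw [h1] at h
  exact le_of_mul_le_mul_left h hD

theorem stNC4 : StNC4 := by
  intro D M s Q a R hD hM1 hM hs1 hs hQ ha hR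
  have hD0 : 0 < D := by linarith
  obtain ⟨d, hd, rfl⟩ : ∃ d : ℝ, 0 ≤ d ∧ D = d + 240 := ⟨D - 240, by linarith, by ring⟩
  obtain ⟨u, hu, rfl⟩ : ∃ u : ℝ, 0 ≤ u ∧ M = (d + 240) / 20 - u :=
    ⟨(d + 240) / 20 - M, by linarith, by ring⟩
  obtain ⟨v, hv, rfl⟩ : ∃ v : ℝ, 0 ≤ v ∧ s = ((d + 240) / 20 - u) * (9 / 4) - v :=
    ⟨((d + 240) / 20 - u) * (9 / 4) - s, by linarith, by ring⟩
  obtain rfl : Q = (2 * (d + 240) + 2) / 3 := by linarith
  obtain rfl : a = ((d + 240) - 2) / 3 := by linarith
  refine ⟨?_, ?_, fun _ => ⟨?_, ?_⟩⟩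
  · refine red_NC4 hD0 hR ?_
    rw [← sub_nonneg]
    have h : (d + 240 - (3 * ((d + 240) / 20 - u) + (((d + 240) / 20 - u) * (9 / 4) - v) - 1)) *
        (((d + 240) + 1 - (((d + 240) / 20 - u) * (9 / 4) - v)) * (((d + 240) - 2) / 3)) -
        (d + 240) * (((d + 240) / 20 - u) * (((d + 240) / 20 - u) * (9 / 4) - v) + ((2 * (d +
            240) + 2) / 3) * (2 * (((d + 240) / 20 - u) * (9 / 4) - v) - 4 + ((d + 240) / 20 -
            u)) + (((d + 240) / 20 - u) * (9 / 4) - v) - 4 + 2 * ((d + 240) / 20 - u)) =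
        (187/6400) * d^3 + (2879/480) * d^2 * u + (77/40) * d^2 * v + (224771/9600) * d^2 +
            (27/16) * d * u^2 + (3/2) * d * u * v + (692449/240) * d * u + (1/3) * d * v^2 +
            (11111/12) * d * v + (92932/15) * d + (3177/8) * u^2 + 355 * u * v + 346964 * u +
            (238/3) * v^2 + (334016/3) * v + (1626616/3) := by ring
    rw [h]
    positivity
  · rw [hR]
    refine red_NC4 hD0 hR ?_
    rw [← sub_nonneg]
    have h : (d + 240 - (3 * ((d + 240) / 20 - u) + (((d + 240) / 20 - u) * (9 / 4) - v) - 1)) *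
        (((d + 240) + 1 - (((d + 240) / 20 - u) * (9 / 4) - v)) * (((d + 240) - 2) / 3) -  (3 *
        ((d + 240) / 20 - u) + (((d + 240) / 20 - u) * (9 / 4) - v) - 1)  * ((((d + 240) - 2) /
        3) + 1 - (((d + 240) / 20 - u) * (9 / 4) - v))) -
        (d + 240) * (((d + 240) / 20 - u) * (((d + 240) / 20 - u) * (9 / 4) - v) + ((2 * (d +
            240) + 2) / 3) * ((((d + 240) / 20 - u) * (9 / 4) - v) - 4 + ((d + 240) / 20 - u)) +
            2 * (((d + 240) / 20 - u) - 2)) =
        (31471/512000) * d^3 + (354281/76800) * d^2 * u + (22457/19200) * d^2 * v +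
            (449857/9600) * d^2 + (17133/1280) * d * u^2 + (1181/160) * d * u * v + (533023/240)
            * d * u + (247/240) * d * v^2 + (2251/4) * d * v + (712661/60) * d + (3969/64) * u^3
            + (819/16) * u^2 * v + (25899/8) * u^2 + (51/4) * u * v^2 + 1785 * u * v + 267313 *
            u + 1 * v^3 + (746/3) * v^2 + (203068/3) * v + (3003656/3) := by ring
    rw [h]
    positivity
  · refine red_NC4 hD0 hR ?_
    rw [← sub_nonneg]
    have h : (d + 240 - (3 * ((d + 240) / 20 - u) + (((d + 240) / 20 - u) * (9 / 4) - v) - 1)) *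
        (((d + 240) + 1 - (((d + 240) / 20 - u) * (9 / 4) - v)) * (((d + 240) - 2) / 3)) -
        (d + 240) * (((d + 240) / 20 - u) * (((d + 240) / 20 - u) * (9 / 4) - v) + 3 * ((2 * (d
            + 240) + 2) / 3) * ((d + 240) / 20 - u) + (((2 * (d + 240) + 2) / 3) + 2) * ((((d +
            240) / 20 - u) * (9 / 4) - v) - 2)) =
        (721/19200) * d^3 + (933/160) * d^2 * u + (151/120) * d^2 * v + (269531/9600) * d^2 +
            (27/16) * d * u^2 + (3/2) * d * u * v + (224423/80) * d * u + (1/3) * d * v^2 +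
            (2425/4) * d * v + (104882/15) * d + (3177/8) * u^2 + 355 * u * v + 337384 * u +
            (238/3) * v^2 + (219056/3) * v + (1740136/3) := by ring
    rw [h]
    positivity
  · rw [hR]
    refine red_NC4 hD0 hR ?_
    rw [← sub_nonneg]
    have h : (d + 240 - (3 * ((d + 240) / 20 - u) + (((d + 240) / 20 - u) * (9 / 4) - v) - 1)) *
        (((d + 240) + 1 - (((d + 240) / 20 - u) * (9 / 4) - v)) * (((d + 240) - 2) / 3) -  (3 *
        ((d + 240) / 20 - u) + (((d + 240) / 20 - u) * (9 / 4) - v) - 1)  * ((((d + 240) - 2) /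
        3) + 1 - (((d + 240) / 20 - u) * (9 / 4) - v))) -
        (d + 240) * (((d + 240) / 20 - u) * (((d + 240) / 20 - u) * (9 / 4) - v) + ((2 * (d +
            240) + 2) / 3) * ((d + 240) / 20 - u) + (((2 * (d + 240) + 2) / 3) + 2) * ((((d +
            240) / 20 - u) * (9 / 4) - v) - 2)) =
        (31471/512000) * d^3 + (354281/76800) * d^2 * u + (22457/19200) * d^2 * v +
            (435857/9600) * d^2 + (17133/1280) * d * u^2 + (1181/160) * d * u * v + (533623/240)
            * d * u + (247/240) * d * v^2 + (2259/4) * d * v + (223527/20) * d + (3969/64) * u^3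
            + (819/16) * u^2 * v + (25899/8) * u^2 + (51/4) * u * v^2 + 1785 * u * v + 267913 *
            u + 1 * v^3 + (746/3) * v^2 + (204508/3) * v + (2750696/3) := by ring
    rw [h]
    positivity

end Pool.Agent.Helper82.EC3
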