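import Pool.Agent.Helper82.EC3.St

/-! # EC3 module NCM: reduction of the numerical inequality to four inequalities -/

set_option autoImplicit false

open Finset
open scoped Classical

namespace Pool.Agent.Helper82.EC3

open EC EC.MGraph EC2

theorem stNC_real_NCM (h4 : StNC4) (D M s m j t w Q a R OM K E : ℝ) (hD : 240 ≤ D) (hM : 1 ≤ M)
    (hMD : 20 * M ≤ D) (hs : 4 * s ≤ 9 * M) (hsum : m + j + t + 1 = s) (hj : 0 ≤ j) (ht : 0 ≤ t)
    (hw : 1 ≤ w) (hwm : w ≤ m) (hwM : w ≤ M) (hQ : 3 * Q = 2 * D + 2) (ha : 3 * a = D - 2)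
    (hR : R * D = 3 * M + s - 1) (hOM : (D + 1 - s) * OM ≤ Q + 2) (hE0 : 0 < E)
    (hE : E ≤ (a + 1 - s) * (2 * m / s - 1))
    (hKA : M ≤ m → K ≤ Q) (hKB : m ≤ M → K ≤ Q * (M / m)) :
    M * (s - 2 - t) + K * (s + j - 1) + (D + 1 - s) * OM * (j - 1 + w) ≤
      (1 - R) * ((D + 1 - s) * a - (3 * M + s - 1) * E) := by
  have hm : 1 ≤ m := hw.trans hwm
  have hs1 : 1 ≤ s := by linarith
  have hs0 : 0 < s := by linarith
  have has : 0 < a + 1 - s := by linarith
  have hms : m ≤ s := by linarith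
  set θ : ℝ := 2 * m / s - 1 with hθ
  have hθpos : 0 < θ := by
    by_contra hcon
    have h1 : (a + 1 - s) * θ ≤ 0 := mul_nonpos_of_nonneg_of_nonpos has.le (not_lt.1 hcon)
    linarith
  have hm2 : 2 * m = s * (1 + θ) := by
    rw [hθ]; field_simp; ring
  have hθ1 : θ ≤ 1 := by
    rw [hθ, sub_le_iff_le_add, div_le_iff₀ hs0]; linarith
  have hN : 0 ≤ 3 * M + s - 1 := by linarith
  have hR1 : 0 ≤ 1 - R := by
    have h1 : R * D ≤ 1 * D := by rw [hR]; linarith
    have h2 := le_of_mul_le_mul_right h1 (by linarith)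
    linarith
  have hQ0 : 0 ≤ Q := by linarith
  obtain ⟨i1, i2, i3⟩ := h4 D M s Q a R hD hM hMD hs1 hs hQ ha hR
  -- the right side
  have hRight : (1 - R) * ((D + 1 - s) * a - (3 * M + s - 1) * ((a + 1 - s) * θ)) ≤
      (1 - R) * ((D + 1 - s) * a - (3 * M + s - 1) * E) := by
    refine mul_le_mul_of_nonneg_left ?_ hR1
    have := mul_le_mul_of_nonneg_left hE hN
    linarith
  refine le_trans ?_ hRight
  have hRl : (1 - R) * ((D + 1 - s) * a - (3 * M + s - 1) * ((a + 1 - s) * θ)) =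
      (1 - θ) * ((1 - R) * ((D + 1 - s) * a)) +
        θ * ((1 - R) * ((D + 1 - s) * a - R * D * (a + 1 - s))) := by
    rw [hR]; ring
  rw [hRl]
  have hθ' : 0 ≤ 1 - θ := by linarith
  have ht1 : M * (s - 2 - t) ≤ M * s := by
    refine mul_le_mul_of_nonneg_left ?_ (by linarith)
    linarith
  have hjle : j ≤ s - 1 - m := by linarith
  have hjw : 0 ≤ j - 1 + w := by linarith
  have hom : (D + 1 - s) * OM * (j - 1 + w) ≤ (Q + 2) * (j - 1 + w) :=
    mul_le_mul_of_nonneg_right hOM hjw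
  have hsj : 0 ≤ s + j - 1 := by linarith
  rcases le_total M m with hMm | hmM
  · -- case A
    have h1 : K * (s + j - 1) ≤ Q * (s + j - 1) := mul_le_mul_of_nonneg_right (hKA hMm) hsj
    have h2 : Q * (s + j - 1) ≤ Q * (2 * s - 2 - m) :=
      mul_le_mul_of_nonneg_left (by linarith) hQ0
    have h3 : (Q + 2) * (j - 1 + w) ≤ (Q + 2) * (s - 2 - m + M) :=
      mul_le_mul_of_nonneg_left (by linarith) (by linarith)
    have h4 : M * s + Q * (2 * s - 2 - m) + (Q + 2) * (s - 2 - m + M) =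
        (1 - θ) * (M * s + Q * (2 * s - 4 + M) + s - 4 + 2 * M) +
          θ * (M * s + Q * (s - 4 + M) + 2 * (M - 2)) := by
      have h5 : m = s * (1 + θ) / 2 := by linarith
      rw [h5]; ring
    have h5 := mul_le_mul_of_nonneg_left i1 hθ'
    have h6 := mul_le_mul_of_nonneg_left i2 hθpos.le
    linarith
  · -- case B
    obtain ⟨i4, i5⟩ := i3 (by
      have : s ≤ s * (1 + θ) := by nlinarith
      linarith)
    have hm0 : 0 < m := by linarith
    have h1 : K * (s + j - 1) ≤ Q * (M / m) * (s + j - 1) :=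
      mul_le_mul_of_nonneg_right (hKB hmM) hsj
    have h2 : (M / m) * (s + j - 1) ≤ M * (3 - 2 * θ) := by
      rw [div_mul_eq_mul_div, div_le_iff₀ hm0, mul_assoc]
      refine mul_le_mul_of_nonneg_left ?_ (by linarith)
      -- `s + j - 1 ≤ 2 s - 2 - m ≤ (3 - 2 θ) m`
      have h3 : s + j - 1 ≤ 2 * s - 2 - m := by linarith
      have h4 : 2 * s - m ≤ (3 - 2 * θ) * m := by
        have h5 : m = s * (1 + θ) / 2 := by linarith
        rw [h5]
        nlinarith [mul_nonneg hs0.le (mul_nonneg hθpos.le hθ')]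
      linarith
    have h3 : Q * (M / m) * (s + j - 1) ≤ Q * (M * (3 - 2 * θ)) := by
      rw [mul_assoc]
      exact mul_le_mul_of_nonneg_left h2 hQ0
    have h4 : (Q + 2) * (j - 1 + w) ≤ (Q + 2) * (s - 2) :=
      mul_le_mul_of_nonneg_left (by linarith) (by linarith)
    have h5 := mul_le_mul_of_nonneg_left i4 hθ'
    have h6 := mul_le_mul_of_nonneg_left i5 hθpos.le
    have h7 : M * s + Q * (M * (3 - 2 * θ)) + (Q + 2) * (s - 2) =
        (1 - θ) * (M * s + 3 * Q * M + (Q + 2) * (s - 2)) +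
          θ * (M * s + Q * M + (Q + 2) * (s - 2)) := by ring
    linarith

theorem stNC (h4 : StNC4) : StNC := by
  intro D μ s m j t w hD hμD hs hsum hw hwm hwμ hE
  have hD' : (240 : ℝ) ≤ D := by exact_mod_cast hD
  have hμD' : 20 * (μ : ℝ) ≤ D := by exact_mod_cast hμD
  have hs' : 4 * (s : ℝ) ≤ 9 * μ := by exact_mod_cast hs.le
  have hsum' : (m : ℝ) + j + t + 1 = s := by exact_mod_cast hsum
  have hw' : (1 : ℝ) ≤ w := by exact_mod_cast hw
  have hwm' : (w : ℝ) ≤ m := by exact_mod_cast hwm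
  have hwμ' : (w : ℝ) ≤ μ := by exact_mod_cast hwμ
  have hj : (0 : ℝ) ≤ j := Nat.cast_nonneg _
  have ht : (0 : ℝ) ≤ t := Nat.cast_nonneg _
  have hDpos : (0 : ℝ) < D := by linarith
  have hQ : 3 * qE D = 2 * (D : ℝ) + 2 := by unfold qE; ring
  have hs0 : (0 : ℝ) < s := by linarith
  have hm1 : (1 : ℝ) ≤ m := hw'.trans hwm'
  refine stNC_real_NCM h4 D μ s m j t w (qE D) ((D : ℝ) - qE D) ((3 * (μ : ℝ) + s - 1) / D)
    (om D s) (KK D μ s m) (EE D (qE D) s m j t) hD' (hw'.trans hwμ') hμD' hs' hsum' hj ht hw'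
    hwm' hwμ' hQ (by linarith) (by rw [div_mul_cancel₀ _ hDpos.ne']) ?_ hE ?_ ?_ ?_ |>.trans
    (le_of_eq ?_)
  · -- `om`
    have h1 : (0 : ℝ) < D - s - 3 := by linarith
    unfold om
    rw [← mul_div_assoc, div_le_iff₀ h1]
    nlinarith
  · -- `EE`
    have h1 : EE D (qE D) s m j t ≤ m * (qE D / s - 1) + t + j - ((D : ℝ) - qE D) := by
      unfold EE EC2.gg EC2.al
      have h2 : ((D : ℝ) - qE D) / D * j ≤ 1 * j := by
        refine mul_le_mul_of_nonneg_right ?_ hj
        rw [div_le_one hDpos]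
        linarith
      linarith
    refine h1.trans (le_of_eq ?_)
    have h2 : (j : ℝ) = s - 1 - m - t := by linarith
    have h3 : qE D = 2 * ((D : ℝ) - qE D + 1) := by linarith
    have h4 : (m : ℝ) * (qE D / s - 1) = m * (2 * ((D : ℝ) - qE D + 1) / s - 1) := by
      rw [← h3]
    rw [h4, h2]
    field_simp
    ring
  · -- case A
    intro hMm
    unfold KK
    have h1 : (μ : ℝ) / min (s : ℝ) (m + 2) ≤ 1 := by
      rw [div_le_one (lt_min hs0 (by linarith))]
      exact le_min (by linarith) (by linarith)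
    rw [max_eq_right h1, mul_one]
  · intro hmM
    unfold KK
    refine mul_le_mul_of_nonneg_left (max_le ?_ ?_) (by linarith)
    · exact div_le_div_of_nonneg_left (by linarith) (by linarith)
        (le_min (by linarith) (by linarith))
    · rw [le_div_iff₀ (by linarith)]; linarith
  · ring

end Pool.Agent.Helper82.EC3
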