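import Pool.Agent.Helper82.EC3.St

/-!
# MP_47b98d_co: references to earlier entries of the table (module REF)
-/

set_option autoImplicit false

open Finset
open scoped Classical

namespace Pool.Agent.Helper82.EC3

open EC EC.MGraph EC2

theorem stRef : StRef := by
  intro c V E _ _ G D T te φ C cur p tab j hOk href
  simp only [refOk, Bool.and_eq_true, decide_eq_true_eq, beq_iff_eq, List.all_eq_true,
    List.mem_range] at href
  obtain ⟨⟨⟨-, hlen⟩, hnd⟩, hall⟩ := href
  have hlt : ∀ k, k < p.length → p.getD k 0 < C.length := fun k hk => by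
    rw [hOk.len]; exact (hall k hk).1
  have hgp : ∀ k (hk : k < p.length), p.getD k 0 = p[k] := fun k hk =>
    List.getD_eq_getElem _ _ hk
  set C' : List (Fin D) := List.ofFn fun k : Fin p.length => C[p.getD k.1 0]'(hlt k.1 k.2) with hC'
  have hC'len : C'.length = p.length := by rw [hC', List.length_ofFn]
  refine ⟨C', hOk.proper, hOk.unc, ?_, ?_, ?_⟩
  · rw [hC', List.nodup_ofFn]
    intro k l hkl
    have h1 : p.getD k.1 0 = p.getD l.1 0 := (hOk.nodup.getElem_inj_iff).1 hkl
    rw [hgp k.1 k.2, hgp l.1 l.2] at h1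
    exact Fin.ext ((hnd.getElem_inj_iff).1 h1)
  · rw [hC'len, hlen]
  · intro k hk i hi hbit
    have hk' : k < p.length := by rwa [hC'len] at hk
    obtain ⟨h1, h2⟩ := hall k hk'
    have h3 : (cur.getD (p.getD k 0) 0).testBit i = true := by
      rw [← h2, Nat.testBit_and, Bool.and_eq_true] at hbit
      exact hbit.2
    have h4 := hOk.miss (p.getD k 0) (hlt k hk') i hi h3
    have h5 : C'[k] = C[p.getD k 0]'(hlt k hk') := by
      simp only [hC', List.getElem_ofFn]
    rw [h5]
    exact h4

end Pool.Agent.Helper82.EC3
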