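import Pool.Agent.Helper82.EC3.St

/-!
# MP_47b98d_co, third generation: decision trees are sound
-/

set_option autoImplicit false

open Finset
open scoped Classical

namespace Pool.Agent.Helper82.EC3

open EC EC.MGraph EC2

theorem getD_set_REV (l : List ℕ) (i k a : ℕ) (hi : i < l.length) :
    (l.set i a).getD k 0 = if k = i then a else l.getD k 0 := by
  rw [List.getD_eq_getElem?_getD, List.getD_eq_getElem?_getD, List.getElem?_set]
  by_cases h : k = i
  · subst h
    simp [hi]
  · rw [if_neg (fun h' => h h'.symm), if_neg h]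

theorem actv_iff_REV {X Y i : ℕ} : actv X Y i = true ↔ X.testBit i ≠ Y.testBit i := by
  unfold actv
  exact bne_iff_ne

section
variable {V E : Type} {G : MGraph V E} {D : ℕ}

/-- the set on which the colours are exchanged -/
def PP_REV (G : MGraph V E) (φ : E → Option (Fin D)) (a b : Fin D) (T : ℕ → V) (n S : ℕ) :
    V → Prop :=
  fun u => ∃ i, i < n ∧ S.testBit i = true ∧ (G.KG φ a b).Reachable (T i) u

theorem PP_closed_REV (φ : E → Option (Fin D)) (a b : Fin D) (T : ℕ → V) (n S : ℕ) :
    ∀ u v, (G.KG φ a b).Adj u v → (PP_REV G φ a b T n S u ↔ PP_REV G φ a b T n S v) := by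
  intro u v h
  constructor
  · rintro ⟨i, h1, h2, h3⟩
    exact ⟨i, h1, h2, h3.trans h.reachable⟩
  · rintro ⟨i, h1, h2, h3⟩
    exact ⟨i, h1, h2, h3.trans h.symm.reachable⟩

/-- the digits of one of the exchanged colours after the change -/
theorem swap_digit_REV {φ ψ : E → Option (Fin D)} {T : ℕ → V} {n S Z Z' : ℕ} {a b c c' : Fin D}
    (hcc : Equiv.swap a b c = c')
    (h1 : ∀ v c, PP_REV G φ a b T n S v → (G.Miss ψ v c ↔ G.Miss φ v (Equiv.swap a b c)))
    (h2 : ∀ v c, ¬ PP_REV G φ a b T n S v → (G.Miss ψ v c ↔ G.Miss φ v c))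
    (hZ : ∀ i, i < n → Z.testBit i = true → G.Miss φ (T i) c)
    (hZ' : ∀ i, i < n → Z'.testBit i = true → G.Miss φ (T i) c')
    (hS : ∀ i, i < n → S.testBit i = true → Z.testBit i ≠ Z'.testBit i)
    (hK : ∀ i j, i < n → j < n → S.testBit i = true → S.testBit j = false →
      Z.testBit j ≠ Z'.testBit j → ¬ (G.KG φ a b).Reachable (T i) (T j)) :
    ∀ i, i < n → (Z ^^^ S).testBit i = true → G.Miss ψ (T i) c := by
  intro i hi hbit
  rw [Nat.testBit_xor] at hbit
  by_cases hSi : S.testBit i = true
  · rw [hSi] at hbit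
    have hZi : Z.testBit i = false := by
      cases h : Z.testBit i
      · rfl
      · rw [h] at hbit; exact absurd hbit (by decide)
    have h3 := hS i hi hSi
    have hZi' : Z'.testBit i = true := by
      cases h : Z'.testBit i
      · rw [hZi, h] at h3; exact absurd rfl h3
      · rfl
    rw [h1 (T i) c ⟨i, hi, hSi, SimpleGraph.Reachable.refl _⟩, hcc]
    exact hZ' i hi hZi'
  · have hSi' : S.testBit i = false := by
      cases h : S.testBit i
      · rfl
      · exact absurd h hSi
    rw [hSi'] at hbit
    have hZi : Z.testBit i = true := by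
      cases h : Z.testBit i
      · rw [h] at hbit; exact absurd hbit (by decide)
      · rfl
    by_cases hP : PP_REV G φ a b T n S (T i)
    · obtain ⟨i₀, h3, h4, h5⟩ := hP
      have hZi' : Z'.testBit i = true := by
        cases h : Z'.testBit i
        · exfalso
          refine hK i₀ i h3 hi h4 hSi' ?_ h5
          rw [hZi, h]
          decide
        · rfl
      rw [h1 (T i) c ⟨i₀, h3, h4, h5⟩, hcc]
      exact hZ' i hi hZi'
    · rw [h2 (T i) c hP]
      exact hZ i hi hZi

/-- the answers are correct -/
def Good_REV (G : MGraph V E) (φ : E → Option (Fin D)) (a b : Fin D) (T : ℕ → V) (n X Y : ℕ)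
    (ys ns : List (ℕ × ℕ)) : Prop :=
  (∀ q ∈ ys, q.1 < n ∧ q.2 < n ∧ q.1 ≠ q.2 ∧ actv X Y q.1 = true ∧ actv X Y q.2 = true ∧
    (G.KG φ a b).Reachable (T q.1) (T q.2)) ∧
  ∀ q ∈ ns, ¬ (G.KG φ a b).Reachable (T q.1) (T q.2)

/-- the answers show that two terminals are in different components -/
theorem apart_REV [Fintype V] (hEnd : StEnd) {φ : E → Option (Fin D)} {T : ℕ → V} {n X Y : ℕ}
    {a b : Fin D} (hprop : G.Proper φ)
    (hinj : ∀ i, i < n → ∀ j, j < n → T i = T j → i = j)
    (hact : ∀ i, i < n → actv X Y i = true → G.Miss φ (T i) a ∨ G.Miss φ (T i) b)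
    {ys ns : List (ℕ × ℕ)} (hg : Good_REV G φ a b T n X Y ys ns) {i j : ℕ} (hi : i < n)
    (hj : j < n) (hij : i ≠ j) (hai : actv X Y i = true) (haj : actv X Y j = true)
    (hap : apart ys ns i j = true) : ¬ (G.KG φ a b).Reachable (T i) (T j) := by
  intro hr
  -- three different active terminals in one component
  have key : ∀ k, k < n → k ≠ i → k ≠ j → actv X Y k = true →
      (G.KG φ a b).Reachable (T i) (T k) → False := by
    intro k hk hki hkj hak hrk
    refine hEnd V E G D φ a b hprop (T i) (T j) (T k) (fun h => hij (hinj i hi j hj h))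
      (fun h => hki (hinj i hi k hk h).symm) (fun h => hkj (hinj j hj k hk h).symm) hr hrk
      (hact i hi hai) (hact j hj haj) (hact k hk hak)
  unfold apart at hap
  rw [Bool.or_eq_true, List.any_eq_true, List.any_eq_true] at hap
  rcases hap with ⟨q, hq, h⟩ | ⟨q, hq, h⟩
  · have h1 := hg.2 q hq
    rw [Bool.or_eq_true, Bool.and_eq_true, Bool.and_eq_true, beq_iff_eq, beq_iff_eq, beq_iff_eq,
      beq_iff_eq] at h
    rcases h with ⟨h2, h3⟩ | ⟨h2, h3⟩
    · rw [h2, h3] at h1
      exact h1 hr
    · rw [h2, h3] at h1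
      exact h1 hr.symm
  · obtain ⟨g1, g2, g3, g4, g5, g6⟩ := hg.1 q hq
    rw [Bool.or_eq_true, Bool.or_eq_true, Bool.or_eq_true, Bool.and_eq_true, Bool.and_eq_true,
      Bool.and_eq_true, Bool.and_eq_true, beq_iff_eq, beq_iff_eq, beq_iff_eq, beq_iff_eq,
      bne_iff_ne, bne_iff_ne, bne_iff_ne, bne_iff_ne] at h
    rcases h with ((⟨h2, h3⟩ | ⟨h2, h3⟩) | ⟨h2, h3⟩) | ⟨h2, h3⟩
    · subst h2
      exact key q.2 g2 (fun h => g3 h.symm) h3 g5 g6
    · subst h2
      exact key q.1 g1 g3 h3 g4 g6.symm
    · subst h2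
      exact key q.2 g2 h3 (fun h => g3 h.symm) g5 (hr.trans g6)
    · subst h2
      exact key q.1 g1 h3 g3 g4 (hr.trans g6.symm)

end

theorem stRev (hEnd : StEnd) (hSw : StSwP) (hRef : StRef) : StRev := by
  intro c V E _ _ G D T te hpos φ C cur x y tab r hok hxy hx hy hrev
  have hxC : x < C.length := by rw [hok.len]; exact hx
  have hyC : y < C.length := by rw [hok.len]; exact hy
  set X : ℕ := cur.getD x 0 with hX
  set Y : ℕ := cur.getD y 0 with hY
  have hact : ∀ i, i < c.n → actv X Y i = true →
      G.Miss φ (T i) C[x] ∨ G.Miss φ (T i) C[y] := by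
    intro i hi h
    rw [actv_iff_REV] at h
    cases hXi : X.testBit i
    · right
      refine hok.miss y hyC i hi ?_
      cases hYi : Y.testBit i
      · rw [hXi, hYi] at h; exact absurd rfl h
      · rfl
    · left
      exact hok.miss x hxC i hi hXi
  have hne : C[x] ≠ C[y] := fun h => hxy ((List.Nodup.getElem_inj_iff hok.nodup).1 h)
  suffices H : ∀ (r : Rev) (ys ns : List (ℕ × ℕ)),
      Good_REV G φ C[x] C[y] T c.n X Y ys ns → revOk c.n tab cur x y ys ns r = true →
        ∃ (ψ : E → Option (Fin D)) (C' : List (Fin D)) (j : ℕ), j < tab.length ∧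
          Ok c G D T te ψ C' (tab.getD j []) from
    H r [] [] ⟨by intro q hq; exact absurd hq (List.not_mem_nil),
      by intro q hq; exact absurd hq (List.not_mem_nil)⟩ hrev
  intro r
  induction r with
  | act S j p =>
    intro ys ns hg h
    rw [revOk, Bool.and_eq_true] at h
    obtain ⟨hcl, href⟩ := h
    have hj : j < tab.length := by
      unfold refOk at href
      rw [Bool.and_eq_true, Bool.and_eq_true, Bool.and_eq_true, decide_eq_true_iff] at href
      exact href.1.1.1
    -- what closedB says
    have hcl' : ∀ i, i < c.n → S.testBit i = true → actv X Y i = true ∧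
        ∀ k, k < c.n → S.testBit k = false → actv X Y k = true → apart ys ns i k = true := by
      intro i hi hSi
      unfold closedB at hcl
      rw [List.all_eq_true] at hcl
      have h1 := hcl i (List.mem_range.2 hi)
      rw [hSi] at h1
      simp only [Bool.not_true, Bool.false_or, Bool.and_eq_true, List.all_eq_true] at h1
      refine ⟨h1.1, ?_⟩
      intro k hk hSk hak
      have h2 := h1.2 k (List.mem_range.2 hk)
      rw [hSk] at h2
      rw [← hX, ← hY, hak] at h2
      simpa using h2
    have hK : ∀ i k, i < c.n → k < c.n → S.testBit i = true → S.testBit k = false →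
        actv X Y k = true → ¬ (G.KG φ C[x] C[y]).Reachable (T i) (T k) := by
      intro i k hi hk hSi hSk hak
      have h1 := hcl' i hi hSi
      refine apart_REV hEnd hok.proper hpos.inj hact hg hi hk ?_ h1.1 hak (h1.2 k hk hSk hak)
      intro h
      rw [h, hSk] at hSi
      exact absurd hSi (by decide)
    obtain ⟨s1, s2, s3, s4⟩ := hSw V E G D φ C[x] C[y] (PP_REV G φ C[x] C[y] T c.n S)
      (PP_closed_REV φ C[x] C[y] T c.n S) hok.proper
    set ψ : E → Option (Fin D) := swapP G φ C[x] C[y] (PP_REV G φ C[x] C[y] T c.n S) with hψ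
    set cur' : List ℕ := (cur.set x (X ^^^ S)).set y (Y ^^^ S) with hcur'
    have hget : ∀ k, cur'.getD k 0 = if k = y then Y ^^^ S else
        if k = x then X ^^^ S else cur.getD k 0 := by
      intro k
      rw [hcur', getD_set_REV _ _ _ _ (by rw [List.length_set]; exact hy),
        getD_set_REV _ _ _ _ hx]
    have hOk : Ok c G D T te ψ C cur' := by
      refine ⟨s1, ?_, hok.nodup, ?_, ?_⟩
      · intro f
        rw [s2 f]
        exact hok.unc f
      · rw [hcur', List.length_set, List.length_set]
        exact hok.len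
      · intro k hk i hi hbit
        rw [hget k] at hbit
        by_cases hky : k = y
        · subst hky
          rw [if_pos rfl] at hbit
          refine swap_digit_REV (a := C[x]) (b := C[k]) (c := C[k]) (c' := C[x])
            (Equiv.swap_apply_right _ _) s3 s4
            (fun i hi h => hok.miss k hk i hi h) (fun i hi h => hok.miss x hxC i hi h)
            ?_ ?_ i hi hbit
          · intro i hi hSi
            exact (actv_iff_REV.1 (hcl' i hi hSi).1).symm
          · intro i l hi hl hSi hSl hne'
            exact hK i l hi hl hSi hSl (actv_iff_REV.2 hne'.symm)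
        · rw [if_neg hky] at hbit
          by_cases hkx : k = x
          · subst hkx
            rw [if_pos rfl] at hbit
            refine swap_digit_REV (a := C[k]) (b := C[y]) (c := C[k]) (c' := C[y])
              (Equiv.swap_apply_left _ _) s3 s4
              (fun i hi h => hok.miss k hk i hi h) (fun i hi h => hok.miss y hyC i hi h)
              ?_ ?_ i hi hbit
            · intro i hi hSi
              exact actv_iff_REV.1 (hcl' i hi hSi).1
            · intro i l hi hl hSi hSl hne'
              exact hK i l hi hl hSi hSl (actv_iff_REV.2 hne')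
          · rw [if_neg hkx] at hbit
            have h1 := hok.miss k hk i hi hbit
            have hkx' : C[k] ≠ C[x] := fun h => hkx ((List.Nodup.getElem_inj_iff hok.nodup).1 h)
            have hky' : C[k] ≠ C[y] := fun h => hky ((List.Nodup.getElem_inj_iff hok.nodup).1 h)
            by_cases hP : PP_REV G φ C[x] C[y] T c.n S (T i)
            · rw [s3 (T i) C[k] hP, Equiv.swap_apply_of_ne_of_ne hkx' hky']
              exact h1
            · rw [s4 (T i) C[k] hP]
              exact h1
    obtain ⟨C', hC'⟩ := hRef c V E G D T te ψ C cur' p tab j hOk href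
    exact ⟨ψ, C', j, hj, hC'⟩
  | ask v w r₁ r₂ ih₁ ih₂ =>
    intro ys ns hg h
    rw [revOk, Bool.and_eq_true, Bool.and_eq_true, Bool.and_eq_true, Bool.and_eq_true,
      Bool.and_eq_true, Bool.and_eq_true, decide_eq_true_iff, decide_eq_true_iff,
      bne_iff_ne] at h
    obtain ⟨⟨⟨⟨⟨⟨h1, h2⟩, h3⟩, h4⟩, h5⟩, h6⟩, h7⟩ := h
    by_cases hr : (G.KG φ C[x] C[y]).Reachable (T v) (T w)
    · refine ih₁ ((v, w) :: ys) ns ⟨?_, hg.2⟩ h6
      intro q hq
      rcases List.mem_cons.1 hq with hq | hq
      · subst hq
        exact ⟨h1, h2, h3, h4, h5, hr⟩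
      · exact hg.1 q hq
    · refine ih₂ ys ((v, w) :: ns) ⟨hg.1, ?_⟩ h7
      intro q hq
      rcases List.mem_cons.1 hq with hq | hq
      · subst hq
        exact hr
      · exact hg.2 q hq

end Pool.Agent.Helper82.EC3
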