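import Pool.Agent.Helper82.EC3.St
import Pool.Agent.Helper82.EC.M_Dart

/-!
# MP_47b98d_co, third generation: the discharging summation
-/

set_option autoImplicit false

open Finset
open scoped Classical

namespace Pool.Agent.Helper82.EC3

open EC EC.MGraph EC2

namespace Sum3Aux

variable {V E : Type} [Fintype V] [Fintype E] (G : MGraph V E)

omit [Fintype V] in
lemma mem_inc3 {v : V} {f : E} : f ∈ G.inc v ↔ v ∈ G.ends f := by
  simp [MGraph.inc]

omit [Fintype V] [Fintype E] in
lemma opp_eq3 {v : V} {f : E} (h : v ∈ G.ends f) : G.opp v f = Sym2.Mem.other h := by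
  rw [MGraph.opp, dif_pos h]

omit [Fintype V] [Fintype E] in
lemma opp_mem3 {v : V} {f : E} (h : v ∈ G.ends f) : G.opp v f ∈ G.ends f := by
  rw [opp_eq3 G h]
  exact Sym2.other_mem h

omit [Fintype V] [Fintype E] in
lemma opp_opp3 {v : V} {f : E} (h : v ∈ G.ends f) : G.opp (G.opp v f) f = v := by
  rw [opp_eq3 G (opp_mem3 G h)]
  have h1 := opp_eq3 G h
  have h2 : Sym2.Mem.other h ∈ G.ends f := Sym2.other_mem h
  have h3 := Sym2.other_invol h h2
  convert h3

end Sum3Aux

open Sum3Aux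

theorem stSum3 (_hPay : StPay) (hRec : StRec2) (hMp : StMp2) (hAc : StAc2) (hDebt : StDebt2)
    (hH1 : StH1) (hBad : StBad) (hGe : StGe) : StSum3 := by
  intro V E _ _ G D μ dt hF3 hT h240 h20 hμ hGood
  set Q : ℝ := qE D with hQdef
  have hDart : StDart := stDart
  have hD2 : (2 : ℝ) ≤ D := by exact_mod_cast hT.two_le
  have hDpos : (0 : ℝ) < D := by linarith
  have hQD : Q ≤ D := by linarith [hT.hi]
  have hal : 0 ≤ al D Q := by
    unfold EC2.al
    exact div_nonneg (by linarith) hDpos.le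
  have hSm3 : ∀ u, Sm dt Q u → 3 * G.deg (dt.xx u) ≤ D := by
    intro u hu
    unfold Sm at hu
    have h3 : 3 * Q = 2 * (D : ℝ) + 2 := by rw [hQdef, qE]; ring
    have h4 : (3 : ℝ) * (G.deg (dt.xx u) : ℝ) < (D : ℝ) + 1 := by linarith
    have h5 : 3 * G.deg (dt.xx u) < D + 1 := by exact_mod_cast h4
    omega
  -- step 1
  have hpay0 : ∀ u p : V, ¬ (Q ≤ G.deg u) → pay G D Q u p = 0 := by
    intro u p h
    rw [EC2.pay, if_neg (by tauto)]
  have hpay1 : ∀ u p : V, Q ≤ G.deg p → pay G D Q u p = 0 := by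
    intro u p h
    rw [EC2.pay, if_neg]
    rintro ⟨-, h2⟩
    linarith
  have hQ0 : ∀ v, ¬ (Q ≤ G.deg v) → QQ G D Q v = 0 := by
    intro v hv
    rw [QQ]
    exact Finset.sum_eq_zero fun f _ => hpay0 _ _ hv
  have hstep1 : ∑ v : V, QQ G D Q v = ∑ v : V, ∑ f ∈ G.inc v, pay G D Q (G.opp v f) v := by
    have h := hDart V E G (fun v f => pay G D Q v (G.opp v f))
    have h2 : ∑ v : V, QQ G D Q v = ∑ v : V, ∑ f ∈ G.inc v, pay G D Q v (G.opp v f) := rfl
    rw [h2, h]
    apply Finset.sum_congr rfl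
    intro v _
    apply Finset.sum_congr rfl
    intro f hf
    rw [opp_opp3 G ((mem_inc3 G).1 hf)]
  have hv : ∀ v : V, (if Q ≤ G.deg v then (G.deg v : ℝ) - Q else 0) -
      ∑ f ∈ G.inc v, pay G D Q (G.opp v f) v ≤ (G.deg v : ℝ) - Q := by
    intro v
    by_cases h : Q ≤ G.deg v
    · rw [if_pos h, Finset.sum_eq_zero fun f _ => hpay1 _ _ h]
      linarith
    · rw [if_neg h]
      have := hRec V E G D μ dt Q hT v (not_le.1 h)
      linarith
  have hstep2 : ∑ v : V, ((if Q ≤ G.deg v then (G.deg v : ℝ) - Q else 0) - QQ G D Q v) ≤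
      ∑ v : V, ((G.deg v : ℝ) - Q) := by
    calc _ = ∑ v : V, ((if Q ≤ G.deg v then (G.deg v : ℝ) - Q else 0) -
          ∑ f ∈ G.inc v, pay G D Q (G.opp v f) v) := by
          rw [Finset.sum_sub_distrib, Finset.sum_sub_distrib, hstep1]
      _ ≤ _ := Finset.sum_le_sum fun v _ => hv v
  -- the debtors
  let Db : V → Prop := fun w => Deb dt Q w
  let q : V → E → ℝ := fun u f =>
    if Db (G.opp u f) ∧ f ∈ dt.FF (G.opp u f) then tau3 dt Q (G.opp u f) f else 0
  have hFFinc : ∀ u, dt.FF u ⊆ G.inc u := fun u => (dt.fan u).sub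
  have hFFcard : ∀ u, ((dt.FF u).card : ℝ) = (D : ℝ) - G.deg (dt.xx u) + 1 := by
    intro u
    have h := (dt.fan u).card_eq
    have : ((dt.FF u).card : ℝ) + G.deg (dt.xx u) = D + 1 := by exact_mod_cast h
    linarith
  have hFFpos : ∀ u, (0 : ℝ) < (D : ℝ) - G.deg (dt.xx u) + 1 := by
    intro u
    have : (G.deg (dt.xx u) : ℝ) ≤ D := by exact_mod_cast dt.deg_le (dt.xx u)
    linarith
  have htau : ∀ u f, f ∈ G.inc u → tau dt Q (G.opp u f) f =
      if Sm dt Q u ∧ f ∉ dt.FF u then al D Q else kap dt Q u := by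
    intro u f hf
    rw [tau, opp_opp3 G ((mem_inc3 G).1 hf)]
  -- strong vertices
  have hstrong : ∀ u, Strong dt Q u →
      ∑ f ∈ G.inc u, q u f + (if Db u then spare dt Q u else 0) ≤
      (G.deg u : ℝ) - Q - QQ G D Q u := by
    intro u hStr
    obtain ⟨⟨f', hf', hnG⟩, hcapa⟩ := hStr
    have hStr : Strong dt Q u := ⟨⟨f', hf', hnG⟩, hcapa⟩
    have hset : {k | ∃ f ∈ Ask dt Q u, k = G.deg (dt.xx (G.opp u f))}.Nonempty :=
      ⟨_, f', hf', rfl⟩
    obtain ⟨f1, hf1, hs0⟩ := Nat.sInf_mem hset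
    have hs0' : s0 dt Q u = G.deg (dt.xx (G.opp u f1)) := hs0
    have hmin : ∀ f ∈ Ask dt Q u, s0 dt Q u ≤ G.deg (dt.xx (G.opp u f)) := fun f hf =>
      Nat.sInf_le ⟨f, hf, rfl⟩
    have hAskmem : ∀ f, f ∈ Ask dt Q u ↔ f ∈ G.inc u ∧ Deb dt Q (G.opp u f) ∧
        f ∈ dt.FF (G.opp u f) := by
      intro f
      rw [Ask, mem_filter]
    obtain ⟨hi1, hd1, hF1⟩ := (hAskmem f1).1 hf1
    obtain ⟨hi', hd', hF'⟩ := (hAskmem f').1 hf'
    have h3s : 3 * G.deg (dt.xx (G.opp u f')) ≤ D := hSm3 _ hd'.2.1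
    have h4s : 4 * G.deg (dt.xx (G.opp u f')) < 9 * μ := by
      by_contra hcon
      exact hnG (hGood _ h3s (not_lt.1 hcon))
    have h30 : 3 * G.deg (dt.xx (G.opp u f1)) + 30 ≤ D := by
      have := hmin f' hf'
      rw [hs0'] at this
      omega
    have hcard : (Ask dt Q u).card + 1 ≤ 3 * μ + G.deg (dt.xx (G.opp u f1)) := by
      refine hH1 V E G D μ dt hF3 hT (G.opp u f1) u f1 hd1 hF1
        (opp_opp3 G ((mem_inc3 G).1 hi1)) ?_ h30
      intro f hf
      rw [← hs0']
      exact hmin f hf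
    have hpos : 1 ≤ (Ask dt Q u).card := Finset.card_pos.2 ⟨f1, hf1⟩
    have hN : ((Ask dt Q u).card : ℝ) ≤ Nst dt Q u := by
      rw [Nst, hs0']
      have : (((Ask dt Q u).card + 1 : ℕ) : ℝ) ≤
          ((3 * μ + G.deg (dt.xx (G.opp u f1)) : ℕ) : ℝ) := by exact_mod_cast hcard
      push_cast at this
      linarith
    have hN0 : 0 < Nst dt Q u := by
      have : (1 : ℝ) ≤ ((Ask dt Q u).card : ℝ) := by exact_mod_cast hpos
      linarith
    have hcapa0 : 0 ≤ capa G D Q u := le_trans (mul_nonneg hal hN0.le) hcapa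
    have hsum : ∑ f ∈ G.inc u, q u f ≤ capa G D Q u := by
      have h1 : ∑ f ∈ G.inc u, q u f = ((Ask dt Q u).card : ℝ) * (capa G D Q u / Nst dt Q u) := by
        have h2 : ∀ f ∈ G.inc u, q u f =
            if Deb dt Q (G.opp u f) ∧ f ∈ dt.FF (G.opp u f) then capa G D Q u / Nst dt Q u
            else 0 := by
          intro f hf
          show (if Deb dt Q (G.opp u f) ∧ f ∈ dt.FF (G.opp u f) then
            tau3 dt Q (G.opp u f) f else 0) = _
          rw [tau3, opp_opp3 G ((mem_inc3 G).1 hf), if_pos hStr]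
        rw [Finset.sum_congr rfl h2, ← Finset.sum_filter, Finset.sum_const, nsmul_eq_mul]
        rfl
      rw [h1]
      calc ((Ask dt Q u).card : ℝ) * (capa G D Q u / Nst dt Q u)
          ≤ Nst dt Q u * (capa G D Q u / Nst dt Q u) :=
            mul_le_mul_of_nonneg_right hN (div_nonneg hcapa0 hN0.le)
        _ = capa G D Q u := by field_simp
    have hsp : (if Db u then spare dt Q u else 0) ≤ 0 := by
      split_ifs with h
      · exact h.2.2.le
      · exact le_rfl
    have : capa G D Q u = (G.deg u : ℝ) - Q - QQ G D Q u := rfl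
    linarith
  -- main claim for a rich vertex
  have hmain : ∀ u, Q ≤ G.deg u →
      ∑ f ∈ G.inc u, q u f + (if Db u then spare dt Q u else 0) ≤
      (G.deg u : ℝ) - Q - QQ G D Q u := by
    intro u hu
    by_cases hStr : Strong dt Q u
    · exact hstrong u hStr
    have htau3 : ∀ f, f ∈ G.inc u → tau3 dt Q (G.opp u f) f = tau dt Q (G.opp u f) f := by
      intro f hf
      rw [tau3, opp_opp3 G ((mem_inc3 G).1 hf), if_neg hStr]
    by_cases hS : Sm dt Q u
    · have hsp : spare dt Q u = (G.deg u : ℝ) - Q - QQ G D Q u - al D Q * jj dt Q u := by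
        rw [spare, if_pos hS]
      have hkap : kap dt Q u = max 0 (spare dt Q u) / ((D : ℝ) - G.deg (dt.xx u) + 1) := by
        rw [kap, if_pos hS]
      have hkap0 : 0 ≤ kap dt Q u := by
        rw [hkap]; exact div_nonneg (le_max_left _ _) (hFFpos u).le
      have hq : ∀ f ∈ G.inc u, q u f ≤
          (if f ∉ dt.FF u ∧ Q ≤ G.deg (G.opp u f) then al D Q else 0) +
            (if f ∈ dt.FF u then kap dt Q u else 0) := by
        intro f hf
        have h0 : 0 ≤ (if f ∉ dt.FF u ∧ Q ≤ G.deg (G.opp u f) then al D Q else 0) := by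
          split_ifs <;> simp [hal]
        have h1 : 0 ≤ (if f ∈ dt.FF u then kap dt Q u else 0) := by
          split_ifs <;> simp [hkap0]
        show (if Db (G.opp u f) ∧ f ∈ dt.FF (G.opp u f) then tau3 dt Q (G.opp u f) f else 0) ≤ _
        by_cases hc : Db (G.opp u f) ∧ f ∈ dt.FF (G.opp u f)
        · rw [if_pos hc, htau3 f hf, htau u f hf]
          by_cases hf2 : f ∈ dt.FF u
          · rw [if_neg (by tauto), if_neg (by tauto), if_pos hf2, zero_add]
          · rw [if_pos ⟨hS, hf2⟩, if_pos ⟨hf2, hc.1.1⟩, if_neg hf2, add_zero]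
        · rw [if_neg hc]; linarith
      have hsum : ∑ f ∈ G.inc u, q u f ≤ al D Q * jj dt Q u + max 0 (spare dt Q u) := by
        calc ∑ f ∈ G.inc u, q u f ≤ ∑ f ∈ G.inc u,
              ((if f ∉ dt.FF u ∧ Q ≤ G.deg (G.opp u f) then al D Q else 0) +
                (if f ∈ dt.FF u then kap dt Q u else 0)) := Finset.sum_le_sum hq
          _ = al D Q * jj dt Q u + max 0 (spare dt Q u) := by
            rw [Finset.sum_add_distrib, ← Finset.sum_filter, ← Finset.sum_filter,
              Finset.sum_const, Finset.sum_const, Finset.filter_mem_eq_inter,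
              Finset.inter_eq_right.2 (hFFinc u), nsmul_eq_mul, nsmul_eq_mul, hFFcard, hkap,
              mul_div_cancel₀ _ (hFFpos u).ne']
            rw [jj, mul_comm]
      have hmm : max 0 (spare dt Q u) + (if Db u then spare dt Q u else 0) ≤ spare dt Q u := by
        by_cases h : spare dt Q u < 0
        · rw [if_pos ⟨hu, hS, h⟩, max_eq_left h.le, zero_add]
        · rw [if_neg (by intro h2; exact h h2.2.2), max_eq_right (not_lt.1 h), add_zero]
      linarith
    · have hsp : spare dt Q u = (G.deg u : ℝ) - Q - QQ G D Q u := by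
        rw [spare, if_neg hS, sub_zero]
      have hkap : kap dt Q u = spare dt Q u / D := by
        rw [kap, if_neg hS]
      have hsp0 : 0 ≤ spare dt Q u := by
        have := hMp V E G D μ dt Q hT u hu hS
        rw [hsp]; linarith
      have hkap0 : 0 ≤ kap dt Q u := by
        rw [hkap]; exact div_nonneg hsp0 (by linarith)
      have hq : ∀ f ∈ G.inc u, q u f ≤ kap dt Q u := by
        intro f hf
        show (if Db (G.opp u f) ∧ f ∈ dt.FF (G.opp u f) then tau3 dt Q (G.opp u f) f else 0) ≤ _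
        by_cases hc : Db (G.opp u f) ∧ f ∈ dt.FF (G.opp u f)
        · rw [if_pos hc, htau3 f hf, htau u f hf, if_neg (by tauto)]
        · rw [if_neg hc]; exact hkap0
      have hsum : ∑ f ∈ G.inc u, q u f ≤ spare dt Q u := by
        calc ∑ f ∈ G.inc u, q u f ≤ ∑ _f ∈ G.inc u, kap dt Q u := Finset.sum_le_sum hq
          _ = (G.deg u : ℝ) * (spare dt Q u / D) := by
            rw [Finset.sum_const, nsmul_eq_mul, hkap]; rfl
          _ ≤ (D : ℝ) * (spare dt Q u / D) := by
            apply mul_le_mul_of_nonneg_right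
            · exact_mod_cast dt.deg_le u
            · exact div_nonneg hsp0 (by linarith)
          _ = spare dt Q u := by field_simp
      rw [if_neg (by intro h2; exact hS h2.2.1), add_zero]
      linarith
  -- poor vertices are given nothing
  have hpoor : ∀ u, ¬ (Q ≤ G.deg u) → ∑ f ∈ G.inc u, q u f = 0 := by
    intro u hu
    apply Finset.sum_eq_zero
    intro f hf
    show (if Db (G.opp u f) ∧ f ∈ dt.FF (G.opp u f) then tau3 dt Q (G.opp u f) f else 0) = 0
    rw [if_neg]
    rintro ⟨hc, hf2⟩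
    have := (hAc V E G D μ dt Q hT (G.opp u f) hc.1 hc.2.1).1 f hf2
    rw [opp_opp3 G ((mem_inc3 G).1 hf)] at this
    exact hu this
  have hstep3 : ∑ u : V, (∑ f ∈ G.inc u, q u f + (if Db u then spare dt Q u else 0)) ≤
      ∑ v : V, ((if Q ≤ G.deg v then (G.deg v : ℝ) - Q else 0) - QQ G D Q v) := by
    apply Finset.sum_le_sum
    intro u _
    by_cases hu : Q ≤ G.deg u
    · rw [if_pos hu]
      exact hmain u hu
    · rw [if_neg hu, hpoor u hu, if_neg (by intro h; exact hu h.1), hQ0 u hu]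
      simp
  have hstep4 : ∑ u : V, ∑ f ∈ G.inc u, q u f =
      ∑ u : V, if Db u then ∑ f ∈ dt.FF u, tau3 dt Q u f else 0 := by
    rw [hDart V E G q]
    apply Finset.sum_congr rfl
    intro u _
    by_cases hu : Db u
    · rw [if_pos hu, ← Finset.sum_subset (hFFinc u)]
      · apply Finset.sum_congr rfl
        intro f hf
        have hf2 := (mem_inc3 G).1 (hFFinc u hf)
        show (if Db (G.opp (G.opp u f) f) ∧ f ∈ dt.FF (G.opp (G.opp u f) f) then
          tau3 dt Q (G.opp (G.opp u f) f) f else 0) = _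
        rw [opp_opp3 G hf2, if_pos ⟨hu, hf⟩]
      · intro f hf hf3
        have hf2 := (mem_inc3 G).1 hf
        show (if Db (G.opp (G.opp u f) f) ∧ f ∈ dt.FF (G.opp (G.opp u f) f) then
          tau3 dt Q (G.opp (G.opp u f) f) f else 0) = _
        rw [opp_opp3 G hf2, if_neg (by tauto)]
    · rw [if_neg hu]
      apply Finset.sum_eq_zero
      intro f hf
      have hf2 := (mem_inc3 G).1 hf
      show (if Db (G.opp (G.opp u f) f) ∧ f ∈ dt.FF (G.opp (G.opp u f) f) then
        tau3 dt Q (G.opp (G.opp u f) f) f else 0) = _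
      rw [opp_opp3 G hf2, if_neg (by tauto)]
  have hstep5 : 0 ≤
      ∑ u : V, (∑ f ∈ G.inc u, q u f + (if Db u then spare dt Q u else 0)) := by
    rw [Finset.sum_add_distrib, hstep4, ← Finset.sum_add_distrib]
    apply Finset.sum_nonneg
    intro u _
    by_cases hu : Db u
    · rw [if_pos hu, if_pos hu]
      have hS := hu.2.1
      by_cases hg : Good D μ Q (G.deg (dt.xx u))
      · have h1 := hDebt V E G D μ dt Q hT u hu.1 hu.2.1 hg hu.2.2
        have h2 : ∑ f ∈ dt.FF u, tau dt Q u f ≤ ∑ f ∈ dt.FF u, tau3 dt Q u f :=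
          Finset.sum_le_sum fun f hf => hGe V E G D μ dt hT h20 hμ hGood u hu f hf
        linarith
      · have h4 : 4 * G.deg (dt.xx u) < 9 * μ := by
          by_contra hcon
          exact hg (hGood _ (hSm3 _ hS) (not_lt.1 hcon))
        have h1 := hBad V E G D μ dt hT h240 h20 hμ u hu hg h4
        linarith
    · rw [if_neg hu, if_neg hu]
      linarith
  linarith

end Pool.Agent.Helper82.EC3
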