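import Pool.Agent.Helper82.EC3.St

/-!
# MP_47b98d_co, third generation: module SWP, Kempe change on a union of components
-/

set_option autoImplicit false

open Finset
open scoped Classical

namespace Pool.Agent.Helper82.EC3

open EC EC.MGraph EC2

section
variable {V E : Type} {G : MGraph V E} {D : ℕ} {φ : E → Option (Fin D)} {a b : Fin D}
  {P : V → Prop}

theorem swapP_of_mem_SWP {v : V} {f : E} (hv : v ∈ G.ends f) (h : P v) :
    swapP G φ a b P f = (φ f).map (Equiv.swap a b) := by
  unfold swapP
  rw [if_pos ⟨v, hv, h⟩]

theorem swapP_of_ne_SWP {f : E} (ha : φ f ≠ some a) (hb : φ f ≠ some b) :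
    swapP G φ a b P f = φ f := by
  unfold swapP
  split_ifs with h
  · cases hφ : φ f with
    | none => rfl
    | some c =>
      rw [hφ] at ha hb
      have h1 : c ≠ a := fun h' => ha (by rw [h'])
      have h2 : c ≠ b := fun h' => hb (by rw [h'])
      simp only [Option.map_some]
      rw [Equiv.swap_apply_of_ne_of_ne h1 h2]
  · rfl

theorem swapP_of_not_mem_SWP (hP : ∀ u v, (G.KG φ a b).Adj u v → (P u ↔ P v)) {v : V} {f : E}
    (hv : v ∈ G.ends f) (h : ¬ P v) : swapP G φ a b P f = φ f := by
  by_cases hc : φ f = some a ∨ φ f = some b
  · unfold swapP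
    rw [if_neg]
    rintro ⟨u, hu, hPu⟩
    by_cases huv : u = v
    · exact h (huv ▸ hPu)
    · have hf : G.ends f = s(u, v) := by
        have h1 := opp_spec hu
        rw [h1] at hv
        rcases Sym2.mem_iff.mp hv with h2 | h2
        · exact absurd h2.symm huv
        · rw [h1, h2]
      exact h ((hP u v (KG_adj_of hf hc)).1 hPu)
  · exact swapP_of_ne_SWP (fun h' => hc (Or.inl h')) (fun h' => hc (Or.inr h'))

end

theorem stSwP : StSwP := by
  intro V E G D φ a b P hP hφ
  refine ⟨?_, ?_, ?_, ?_⟩
  · intro e f v c he hf hec hfc
    by_cases hr : P v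
    · rw [swapP_of_mem_SWP he hr] at hec
      rw [swapP_of_mem_SWP hf hr] at hfc
      cases h1 : φ e with
      | none => rw [h1] at hec; simp at hec
      | some c1 =>
        cases h2 : φ f with
        | none => rw [h2] at hfc; simp at hfc
        | some c2 =>
          rw [h1] at hec; rw [h2] at hfc
          simp only [Option.map_some] at hec hfc
          have h3 : Equiv.swap a b c1 = Equiv.swap a b c2 :=
            (Option.some_injective _ hec).trans (Option.some_injective _ hfc).symm
          have h4 : c1 = c2 := (Equiv.swap a b).injective h3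
          exact hφ e f v c1 he hf h1 (by rw [h2, h4])
    · rw [swapP_of_not_mem_SWP hP he hr] at hec
      rw [swapP_of_not_mem_SWP hP hf hr] at hfc
      exact hφ e f v c he hf hec hfc
  · intro f
    unfold swapP
    split_ifs <;> simp
  · intro v c h
    constructor
    · intro h1 f hf hfc
      apply h1 f hf
      rw [swapP_of_mem_SWP hf h, hfc]
      simp
    · intro h1 f hf hfc
      rw [swapP_of_mem_SWP hf h] at hfc
      apply h1 f hf
      cases hφ' : φ f with
      | none => rw [hφ'] at hfc; simp at hfc
      | some d =>
        rw [hφ'] at hfc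
        simp only [Option.map_some] at hfc
        have := Option.some_injective _ hfc
        rw [← this, Equiv.swap_apply_self]
  · intro v c h
    constructor
    · intro h1 f hf hfc
      apply h1 f hf
      rw [swapP_of_not_mem_SWP hP hf h, hfc]
    · intro h1 f hf hfc
      rw [swapP_of_not_mem_SWP hP hf h] at hfc
      exact h1 f hf hfc

end Pool.Agent.Helper82.EC3
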