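import Pool.Agent.Helper82.EC3.St

/-!
# MP_47b98d_co, third generation: module WIN, the instruction `win` is sound
-/

set_option autoImplicit false

open Finset
open scoped Classical

namespace Pool.Agent.Helper82.EC3

open EC EC.MGraph EC2

/-- unpacking `winOk` -/
theorem winOk_iff_WIN {c : Cfg} {m a : List ℕ} (h : winOk c m a = true) :
    ∀ k, k < c.edges.length → a.getD k 0 < m.length ∧
      (m.getD (a.getD k 0) 0).testBit (c.edges.getD k (0, 0)).1 = true ∧
      (m.getD (a.getD k 0) 0).testBit (c.edges.getD k (0, 0)).2 = true ∧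
      ∀ l, l < c.edges.length → k ≠ l → meet c k l = true → a.getD k 0 ≠ a.getD l 0 := by
  intro k hk
  unfold winOk at h
  rw [List.all_eq_true] at h
  have h1 := h k (List.mem_range.2 hk)
  rw [Bool.and_eq_true, Bool.and_eq_true, Bool.and_eq_true, decide_eq_true_eq,
    List.all_eq_true] at h1
  obtain ⟨⟨⟨h2, h3⟩, h4⟩, h5⟩ := h1
  refine ⟨h2, h3, h4, fun l hl hkl hm => ?_⟩
  have h6 := h5 l (List.mem_range.2 hl)
  rw [Bool.or_eq_true, Bool.or_eq_true, beq_iff_eq, hm] at h6
  rcases h6 with (h6 | h6) | h6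
  · exact absurd h6 hkl
  · simp at h6
  · simpa using h6

theorem stWin : StWin := by
  intro c V E _ _ G D T te hpos φ C m a hok hwin
  have hw := winOk_iff_WIN hwin
  -- the colours are missing at the ends of the tracked edges
  have hmiss : ∀ k, k < c.edges.length → ∀ v ∈ G.ends (te k), ∀ col : Fin D,
      C[a.getD k 0]? = some col → G.Miss φ v col := by
    intro k hk v hv col hcol
    obtain ⟨h1, h2, h3, -⟩ := hw k hk
    rw [← hok.len] at h1
    have h4 : C[a.getD k 0]'h1 = col := by
      rw [List.getElem?_eq_getElem h1] at hcol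
      exact Option.some_injective _ hcol
    rw [hpos.ends k hk, Sym2.mem_iff] at hv
    obtain ⟨h5, h6⟩ := hpos.lt k hk
    rcases hv with rfl | rfl
    · rw [← h4]; exact hok.miss _ h1 _ h5 h2
    · rw [← h4]; exact hok.miss _ h1 _ h6 h3
  -- the common end of two tracked edges
  have hmeet : ∀ k, k < c.edges.length → ∀ l, l < c.edges.length → ∀ v, v ∈ G.ends (te k) →
      v ∈ G.ends (te l) → meet c k l = true := by
    intro k hk l hl v hv hv'
    rw [hpos.ends k hk, Sym2.mem_iff] at hv
    rw [hpos.ends l hl, Sym2.mem_iff] at hv'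
    obtain ⟨k1, k2⟩ := hpos.lt k hk
    obtain ⟨l1, l2⟩ := hpos.lt l hl
    unfold meet
    rw [Bool.or_eq_true, Bool.or_eq_true, Bool.or_eq_true, beq_iff_eq, beq_iff_eq, beq_iff_eq,
      beq_iff_eq]
    rcases hv with hv | hv <;> rcases hv' with hv' | hv'
    · exact Or.inl (Or.inl (Or.inl (hpos.inj _ k1 _ l1 (hv.symm.trans hv'))))
    · exact Or.inl (Or.inl (Or.inr (hpos.inj _ k1 _ l2 (hv.symm.trans hv'))))
    · exact Or.inl (Or.inr (hpos.inj _ k2 _ l1 (hv.symm.trans hv')))
    · exact Or.inr (hpos.inj _ k2 _ l2 (hv.symm.trans hv'))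
  let ψ : E → Option (Fin D) := fun f =>
    if h : ∃ k, k < c.edges.length ∧ f = te k then C[a.getD (Classical.choose h) 0]? else φ f
  have hψ1 : ∀ k, k < c.edges.length → ψ (te k) = C[a.getD k 0]? := by
    intro k hk
    have h : ∃ k', k' < c.edges.length ∧ te k = te k' := ⟨k, hk, rfl⟩
    have h1 : ψ (te k) = C[a.getD (Classical.choose h) 0]? := dif_pos h
    obtain ⟨h2, h3⟩ := Classical.choose_spec h
    rw [h1, ← hpos.te_inj k hk _ h2 h3]
  have hψ2 : ∀ f, (¬ ∃ k, k < c.edges.length ∧ f = te k) → ψ f = φ f := fun f h => dif_neg h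
  refine hpos.nocol ⟨ψ, ?_, ?_⟩
  · intro e f v col he hf hec hfc
    by_cases h1 : ∃ k, k < c.edges.length ∧ e = te k
    · obtain ⟨k, hk, rfl⟩ := h1
      rw [hψ1 k hk] at hec
      by_cases h2 : ∃ l, l < c.edges.length ∧ f = te l
      · obtain ⟨l, hl, rfl⟩ := h2
        rw [hψ1 l hl] at hfc
        by_cases hkl : k = l
        · rw [hkl]
        · exfalso
          obtain ⟨h3, -, -, h4⟩ := hw k hk
          have h5 := h4 l hl hkl (hmeet k hk l hl v he hf)
          rw [← hok.len] at h3
          have h6 : C[a.getD k 0]? = C[a.getD l 0]? := hec.trans hfc.symm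
          exact h5 ((List.getElem?_inj h3 hok.nodup).1 h6)
      · rw [hψ2 f h2] at hfc
        exact absurd hfc (hmiss k hk v he col hec f hf)
    · rw [hψ2 e h1] at hec
      by_cases h2 : ∃ l, l < c.edges.length ∧ f = te l
      · obtain ⟨l, hl, rfl⟩ := h2
        rw [hψ1 l hl] at hfc
        exact absurd hec (hmiss l hl v hf col hfc e he)
      · rw [hψ2 f h2] at hfc
        exact hok.proper e f v col he hf hec hfc
  · intro f
    by_cases h1 : ∃ k, k < c.edges.length ∧ f = te k
    · obtain ⟨k, hk, rfl⟩ := h1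
      rw [hψ1 k hk]
      obtain ⟨h3, -⟩ := hw k hk
      rw [← hok.len] at h3
      rw [List.getElem?_eq_getElem h3]
      simp
    · rw [hψ2 f h1]
      intro h2
      exact h1 ((hok.unc f).1 h2)

end Pool.Agent.Helper82.EC3
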