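import Pool.Agent.Helper82.EC3.Fin
import Pool.Agent.Helper82.EC3.M_BAD
import Pool.Agent.Helper82.EC3.M_FRE
import Pool.Agent.Helper82.EC3.M_GEM
import Pool.Agent.Helper82.EC3.M_GMS
import Pool.Agent.Helper82.EC3.M_H1M
import Pool.Agent.Helper82.EC3.M_INI
import Pool.Agent.Helper82.EC3.M_LAD
import Pool.Agent.Helper82.EC3.M_LAS
import Pool.Agent.Helper82.EC3.M_LK1
import Pool.Agent.Helper82.EC3.M_LK2
import Pool.Agent.Helper82.EC3.M_LK3
import Pool.Agent.Helper82.EC3.M_LK4
import Pool.Agent.Helper82.EC3.M_LSM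
import Pool.Agent.Helper82.EC3.M_MIM
import Pool.Agent.Helper82.EC3.M_MNY
import Pool.Agent.Helper82.EC3.M_NC4
import Pool.Agent.Helper82.EC3.M_NCM
import Pool.Agent.Helper82.EC3.M_REF
import Pool.Agent.Helper82.EC3.M_REV
import Pool.Agent.Helper82.EC3.M_SM3
import Pool.Agent.Helper82.EC3.M_SWP
import Pool.Agent.Helper82.EC3.M_WIN
import Pool.Agent.Helper82.EC3.M_FNX
import Pool.Agent.Helper82.EC2.AllE
import Pool.Agent.Helper82.EC.M_FIA2

/-!
# MP_47b98d_co, third generation: everything together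
-/

set_option autoImplicit false

open scoped Classical

namespace Pool.Agent.Helper82.EC3

open EC EC.MGraph EC2

theorem all_FanX : StFanX := by
  have hCard := stCard
  have hEnd := stEnd
  have hFL := EC.stFL
  have hF1 := stF1 hEnd hCard
  have hFD := stFD hEnd hCard hFL
  have hF2 := stF2 hEnd hCard hF1 hFL
  have hK := stK hEnd hCard
  have hKd := stKd hCard hK
  have hT := stT hEnd hCard hF1 hKd
  have hU := stU hEnd hCard hKd
  exact stFanX hCard hF1 hFD hF2 hKd hT hU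

theorem all_GM : StGM := stGM stWin stFresh (stRev stEnd stSwP stRef)

theorem all_Lk2 : StLk2 := stLk2 (stLAd all_GM stIni stCard) (stLAs all_GM stIni stCard)

theorem all_MI : StMI :=
  stMI (stLk1 stCard (stF1 stEnd stCard)) all_Lk2 (stLk3 stEnd stCard) (stLk4 stEnd stCard) stCard

theorem all_Sum3 : StSum3 :=
  stSum3 all_Pay all_Rec2 all_Mp2 all_Ac2 all_Debt2 (stH1 (stMany all_Pay all_Ac2) all_Ac2)
    (stBad (stLs all_Pay all_Ac2) (stNC stNC4) all_Ac2 all_Pay all_Mp2) (stGe all_Ac2 all_Mp2)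

/-- Q1 for multiplicity at most `Δ / 20` -/
theorem all_lin {V E : Type} [Fintype V] [Fintype E] (G : MGraph V E) (hG : G.IsDeltaCritical)
    (hD : 2 ≤ G.maxDeg) (hμ : 20 * G.multiplicity ≤ G.maxDeg) :
    (2 * (G.maxDeg : ℝ) + 2) / 3 ≤ G.avgDeg :=
  final_lin all_FanX all_MI all_Sum3 all_NH
    (fun _ _ _ _ G hG hD hμ => final_exact2 all_Fan all_Sum stFIA2 G hG hD hμ) G hG hD hμ

end Pool.Agent.Helper82.EC3
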