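import Pool.Agent.Helper82.EC3.St
import Pool.Agent.Helper82.EC2.Crit3

/-!
# MP_47b98d_co, third generation: from the discharging to critical multigraphs
-/

set_option autoImplicit false

open Finset
open scoped Classical

namespace Pool.Agent.Helper82.EC3

open EC EC.MGraph EC2

/-- choice of the fans -/
theorem exists_data3 (hFan : StFanX) (hMI : StMI) {V E : Type} [Fintype V] [Fintype E]
    {G : MGraph V E} {D : ℕ} (hG : CritG G D) :
    ∃ dt : Data G D G.multiplicity, ∀ u, Fan3 G D (dt.xx u) u (dt.FF u) := by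
  have hex : ∀ u : V, ∃ p : V × E, G.ends p.2 = s(p.1, u) ∧
      ∀ f ∈ G.inc u, G.deg p.1 ≤ G.deg (G.opp u f) := by
    intro u
    have hne : (G.inc u).Nonempty := card_pos.mp (hG.deg_pos u)
    obtain ⟨g, hg, hmin⟩ := exists_min_image (G.inc u) (fun f => G.deg (G.opp u f)) hne
    refine ⟨(G.opp u g, g), ?_, hmin⟩
    rw [opp_spec (mem_inc.mp hg), Sym2.eq_swap]
  choose p hp1 hp2 using hex
  have hfan : ∀ e x y, G.ends e = s(x, y) → ∃ F, Fan G D e x y F ∧ Fan3 G D x y F := by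
    intro e x y h
    obtain ⟨φ, h1, h2, h3⟩ := hG.col e
    have hC : G.Crit D φ e x y := ⟨h, h1, h2, h3, hG.nocol⟩
    have hF := hFan V E G D hG φ e x y hC
    exact ⟨fanSet G φ x y, hF, hMI V E G D hG.deg_le φ e x y hC hF⟩
  choose F hF using fun u => hfan (p u).2 (p u).1 u (hp1 u)
  refine ⟨⟨hG.deg_le, G.mult_le_multiplicity, ?_, fun u => (p u).1, fun u => (p u).2, F, hp1, hp2,
    fun u => (hF u).1⟩, fun u => (hF u).2⟩
  intro e x y h
  obtain ⟨F', hF', _⟩ := hfan e x y h
  exact ⟨F', hF'⟩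

/-- Q1 for multiplicity at most `Δ / 20`, from the modules -/
theorem final_lin (hFan : StFanX) (hMI : StMI) (hSum : StSum3) (hH : StNH)
    (hsmall : ∀ (V E : Type) [Fintype V] [Fintype E] (G : MGraph V E), G.IsDeltaCritical →
      9 ≤ G.maxDeg → 25 * (2 * G.multiplicity + 1) ^ 2 ≤ 64 * (G.maxDeg + 1) →
        (2 * (G.maxDeg : ℝ) + 2) / 3 ≤ G.avgDeg)
    {V E : Type} [Fintype V] [Fintype E] (G : MGraph V E) (hG : G.IsDeltaCritical)
    (hD : 2 ≤ G.maxDeg) (hμ : 20 * G.multiplicity ≤ G.maxDeg) :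
    (2 * (G.maxDeg : ℝ) + 2) / 3 ≤ G.avgDeg := by
  have hμ1 : 1 ≤ G.multiplicity := one_le_multiplicity G (by omega)
  by_cases hs : 25 * (2 * G.multiplicity + 1) ^ 2 ≤ 64 * (G.maxDeg + 1)
  · exact hsmall V E G hG (by omega) hs
  have hD240 : 240 ≤ G.maxDeg := by
    by_contra hc
    have h1 : G.multiplicity ≤ 11 := by omega
    have h2 : 64 * (20 * G.multiplicity + 1) ≤ 64 * (G.maxDeg + 1) := by omega
    have h3 : 64 * (G.maxDeg + 1) < 25 * (2 * G.multiplicity + 1) ^ 2 := not_le.mp hs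
    generalize G.multiplicity = k at *
    interval_cases k <;> omega
  obtain ⟨dt, h3⟩ := exists_data3 hFan hMI hG.critG
  have h1 := hSum V E G G.maxDeg G.multiplicity dt h3 (thr_qE hD) hD240 hμ hμ1 (by
    intro s hs3 hs4
    exact hH G.maxDeg G.multiplicity s hD hμ1 hs4 (by omega) hs3)
  have h2 : ∑ v : V, ((G.deg v : ℝ) - qE G.maxDeg) =
      2 * (Fintype.card E : ℝ) - (Fintype.card V : ℝ) * qE G.maxDeg := by
    rw [sum_sub_distrib, sum_const, card_univ, nsmul_eq_mul]
    congr 1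
    have := sum_deg G
    exact_mod_cast this
  have hV : 0 < Fintype.card V := by
    by_contra h0
    have : Fintype.card V = 0 := by omega
    have hemp : IsEmpty V := Fintype.card_eq_zero_iff.mp this
    have : G.maxDeg = 0 := by
      unfold maxDeg
      rw [univ_eq_empty, sup_empty]; rfl
    omega
  have hV' : (0 : ℝ) < Fintype.card V := by exact_mod_cast hV
  rw [h2] at h1
  change qE G.maxDeg ≤ G.avgDeg
  unfold avgDeg
  rw [le_div_iff₀ hV']
  nlinarith

end Pool.Agent.Helper82.EC3
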