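import Pool.Agent.Helper82.EC.StA

/-!
# MP_47b98d_co, third generation: a machine that checks Kempe change arguments

A *configuration* is a list of `n` different vertices (terminals) and a list of edges (tracked edges)
between terminals. A *state* is a partial proper edge colouring of the whole graph that leaves exactly
the tracked edges uncoloured, together with a list of different colours and, for each of these colours,
a natural number whose binary digits say at which terminals the colour is certainly missing.
A certificate is a table of states; for each state either the tracked edges can be coloured directly,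
or a Kempe change leads to an earlier state.
-/

set_option autoImplicit false

open Finset
open scoped Classical

namespace Pool.Agent.Helper82.EC3

open EC EC.MGraph

/-- decision tree: ask whether two active terminals are in the same Kempe component, or exchange the
colours on the components of the terminals of `S` and continue with the entry `j` of the table, the
`k`-th colour of that entry being the `p[k]`-th colour of the present state -/
inductive Rev : Type
  | act (S j : ℕ) (p : List ℕ) : Rev
  | ask (v w : ℕ) (yes no : Rev) : Rev

/-- an instruction -/
inductive Op : Type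
  | win (a : List ℕ) : Op
  | move (x y : ℕ) (r : Rev) : Op

/-- a configuration: number of terminals, tracked edges, light terminals (binary digits), bound for
the number of colours -/
structure Cfg : Type where
  n : ℕ
  edges : List (ℕ × ℕ)
  light : ℕ
  cap : ℕ

/-- the terminal `i` is active: exactly one of the two colours is certainly missing -/
def actv (X Y i : ℕ) : Bool := X.testBit i != Y.testBit i

/-- by the answers `ys` (yes) and `ns` (no), the terminals `i` and `j` are in different components -/
def apart (ys ns : List (ℕ × ℕ)) (i j : ℕ) : Bool :=
  ns.any (fun q => (q.1 == i && q.2 == j) || (q.1 == j && q.2 == i)) ||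
  ys.any (fun q => (q.1 == i && q.2 != j) || (q.2 == i && q.1 != j) ||
    (q.1 == j && q.2 != i) || (q.2 == j && q.1 != i))

/-- the answers show that no active terminal outside `S` is in the component of a terminal of `S` -/
def closedB (n X Y S : ℕ) (ys ns : List (ℕ × ℕ)) : Bool :=
  (List.range n).all fun i => !(S.testBit i) || (actv X Y i &&
    (List.range n).all fun j => S.testBit j || !(actv X Y j) || apart ys ns i j)

/-- the present list of digits `cur` contains the entry `j` of the table -/
def refOk (tab : List (List ℕ)) (j : ℕ) (p cur : List ℕ) : Bool :=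
  decide (j < tab.length) && p.length == (tab.getD j []).length && decide p.Nodup &&
    (List.range p.length).all fun k => decide (p.getD k 0 < cur.length) &&
      ((tab.getD j []).getD k 0 &&& cur.getD (p.getD k 0) 0) == (tab.getD j []).getD k 0

/-- check of a decision tree for the exchange of the colours number `x` and `y` -/
def revOk (n : ℕ) (tab : List (List ℕ)) (cur : List ℕ) (x y : ℕ) :
    List (ℕ × ℕ) → List (ℕ × ℕ) → Rev → Bool
  | ys, ns, .act S j p => closedB n (cur.getD x 0) (cur.getD y 0) S ys ns &&
      refOk tab j p ((cur.set x (cur.getD x 0 ^^^ S)).set y (cur.getD y 0 ^^^ S))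
  | ys, ns, .ask v w r₁ r₂ => decide (v < n) && decide (w < n) && v != w &&
      actv (cur.getD x 0) (cur.getD y 0) v && actv (cur.getD x 0) (cur.getD y 0) w &&
      revOk n tab cur x y ((v, w) :: ys) ns r₁ && revOk n tab cur x y ys ((v, w) :: ns) r₂

/-- the tracked edges number `k` and `l` have a common end -/
def meet (c : Cfg) (k l : ℕ) : Bool :=
  (c.edges.getD k (0, 0)).1 == (c.edges.getD l (0, 0)).1 ||
  (c.edges.getD k (0, 0)).1 == (c.edges.getD l (0, 0)).2 ||
  (c.edges.getD k (0, 0)).2 == (c.edges.getD l (0, 0)).1 ||
  (c.edges.getD k (0, 0)).2 == (c.edges.getD l (0, 0)).2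

/-- the tracked edges can get the colours number `a[0]`, `a[1]`, ... -/
def winOk (c : Cfg) (m : List ℕ) (a : List ℕ) : Bool :=
  (List.range c.edges.length).all fun k => decide (a.getD k 0 < m.length) &&
    (m.getD (a.getD k 0) 0).testBit (c.edges.getD k (0, 0)).1 &&
    (m.getD (a.getD k 0) 0).testBit (c.edges.getD k (0, 0)).2 &&
    (List.range c.edges.length).all fun l => k == l || !(meet c k l) || a.getD k 0 != a.getD l 0

/-- check of one entry of the table -/
def opOk (c : Cfg) (tab : List (List ℕ)) (m : List ℕ) : Op → Bool
  | .win a => winOk c m a
  | .move x y r => x != y && decide (x < m.length) &&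
      ((decide (y < m.length) && revOk c.n tab m x y [] [] r) ||
        (y == m.length && decide (m.length < c.cap) &&
          revOk c.n tab (m ++ [c.light]) x y [] [] r))

/-- check of the table -/
def tabOk (c : Cfg) : List (List ℕ) → List (List ℕ × Op) → Bool
  | _, [] => true
  | pre, (m, o) :: l => opOk c pre m o && tabOk c (pre ++ [m]) l

/-- the configuration in a graph: `T` are the terminals and `te` the tracked edges -/
structure Pos (c : Cfg) {V E : Type} [Fintype V] [Fintype E] (G : MGraph V E) (D : ℕ) (T : ℕ → V)
    (te : ℕ → E) : Prop where
  ends : ∀ k, k < c.edges.length →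
    G.ends (te k) = s(T (c.edges.getD k (0, 0)).1, T (c.edges.getD k (0, 0)).2)
  te_inj : ∀ k, k < c.edges.length → ∀ l, l < c.edges.length → te k = te l → k = l
  nocol : G.NoCol D
  inj : ∀ i, i < c.n → ∀ j, j < c.n → T i = T j → i = j
  lt : ∀ k, k < c.edges.length → (c.edges.getD k (0, 0)).1 < c.n ∧ (c.edges.getD k (0, 0)).2 < c.n
  room : ∑ i ∈ (range c.n).filter (fun i => c.light.testBit i = true), G.deg (T i) + c.cap ≤ D

/-- the state with digits `m` in a graph -/
structure Ok (c : Cfg) {V E : Type} [Fintype V] [Fintype E] (G : MGraph V E) (D : ℕ) (T : ℕ → V)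
    (te : ℕ → E) (φ : E → Option (Fin D)) (C : List (Fin D)) (m : List ℕ) : Prop where
  proper : G.Proper φ
  unc : ∀ f, φ f = none ↔ ∃ k, k < c.edges.length ∧ f = te k
  nodup : C.Nodup
  len : C.length = m.length
  miss : ∀ k (h : k < C.length), ∀ i, i < c.n → (m.getD k 0).testBit i = true →
    G.Miss φ (T i) C[k]

/-- the machine is sound -/
def StGM : Prop := ∀ (c : Cfg) (tab : List (List ℕ × Op)), tabOk c [] tab = true →
  ∀ (V E : Type) [Fintype V] [Fintype E] (G : MGraph V E) (D : ℕ) (T : ℕ → V) (te : ℕ → E),
    Pos c G D T te → ∀ q ∈ tab, ∀ (φ : E → Option (Fin D)) (C : List (Fin D)),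
      ¬ Ok c G D T te φ C q.1

end Pool.Agent.Helper82.EC3
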