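import Pool.Agent.Helper82.EC3.St

/-!
# MP_47b98d_co, third generation: the sum of all losses at the fan neighbours of a debtor
-/

set_option autoImplicit false

open Finset
open scoped Classical

namespace Pool.Agent.Helper82.EC3

open EC EC.MGraph EC2

namespace LSM

lemma sum_ind {E : Type} (S : Finset E) (P : E → Prop) [DecidablePred P] (c : ℝ) :
    ∑ f ∈ S, (if P f then c else 0) = c * ((S.filter P).card : ℝ) := by
  rw [← Finset.sum_filter, Finset.sum_const, nsmul_eq_mul, mul_comm]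

lemma qE_eq (D : ℕ) : 3 * qE D = 2 * (D : ℝ) + 2 := by
  unfold qE
  ring

section
variable {V E : Type} [Fintype V] [Fintype E] {G : MGraph V E} {D μ : ℕ}

lemma deg_pos (dt : Data G D μ) (u : V) : 1 ≤ G.deg u := by
  unfold MGraph.deg
  rw [Nat.one_le_iff_ne_zero, Ne, Finset.card_eq_zero, ← Ne, ← Finset.nonempty_iff_ne_empty]
  refine ⟨dt.ee u, mem_inc.2 ?_⟩
  rw [dt.ends_eq u]
  exact Sym2.mem_mk_right _ _

/-- (1): bound for the total payment of `v` -/
lemma QQ_le (hPay : StPay) (dt : Data G D μ) (hT : Thr D (qE D)) (s : ℕ) (hs : 3 * s + 30 ≤ D)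
    (v x : V) :
    QQ G D (qE D) v ≤ qE D / G.deg (dt.xx v) *
      ((G.degTo v ((S0 G D s).erase x) : ℝ) + G.mult x v) +
      om D s * G.degTo v ((P0 G (qE D)).erase x) := by
  have hQ := qE_eq D
  have hsR : 3 * (s : ℝ) + 30 ≤ D := by exact_mod_cast hs
  have hs0 : (0 : ℝ) ≤ s := Nat.cast_nonneg _
  have hsv : (1 : ℝ) ≤ G.deg (dt.xx v) := by exact_mod_cast deg_pos dt (dt.xx v)
  have hQ0 : 0 < qE D := by linarith
  have hc0 : 0 ≤ qE D / G.deg (dt.xx v) := by positivity
  have hden : 0 < (D : ℝ) - s - 3 := by linarith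
  have hom0 : 0 ≤ om D s := by
    unfold om
    apply div_nonneg _ hden.le
    linarith
  have hbound : ∀ f ∈ G.inc v, EC2.pay G D (qE D) v (G.opp v f) ≤
      (if G.opp v f ∈ (S0 G D s).erase x then qE D / G.deg (dt.xx v) else 0) +
      (if G.opp v f = x then qE D / G.deg (dt.xx v) else 0) +
      (if G.opp v f ∈ (P0 G (qE D)).erase x then om D s else 0) := by
    intro f hf
    set p := G.opp v f with hp
    have hpdeg : (G.deg (dt.xx v) : ℝ) ≤ G.deg p := by exact_mod_cast dt.min_deg v f hf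
    have i1 : (0:ℝ) ≤ if p ∈ (S0 G D s).erase x then qE D / G.deg (dt.xx v) else 0 := by
      split_ifs <;> simp [hc0]
    have i2 : (0:ℝ) ≤ if p = x then qE D / G.deg (dt.xx v) else 0 := by
      split_ifs <;> simp [hc0]
    have i3 : (0:ℝ) ≤ if p ∈ (P0 G (qE D)).erase x then om D s else 0 := by
      split_ifs <;> simp [hom0]
    by_cases hpoor : (G.deg p : ℝ) < qE D
    · have hlec : EC2.pay G D (qE D) v p ≤ qE D / G.deg (dt.xx v) := by
        by_cases hsm : (G.deg p : ℝ) + qE D < D + 1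
        · unfold EC2.pay
          split_ifs with h1
          · have h3 : qE D / G.deg p ≤ qE D / G.deg (dt.xx v) :=
              div_le_div_of_nonneg_left hQ0.le (by linarith) hpdeg
            linarith
          · exact hc0
        · obtain ⟨-, h1⟩ := hPay V E G D μ dt (qE D) hT v p
          obtain ⟨-, h2, h3⟩ := h1 (not_lt.1 hsm) hpoor
          have h4 : EC2.gg (qE D) ((D : ℝ) + 1 - qE D) ≤ 1 := by
            unfold EC2.gg
            have : qE D / ((D : ℝ) + 1 - qE D) ≤ 2 := by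
              rw [div_le_iff₀ (by linarith)]
              linarith
            linarith
          have h5 : 1 ≤ qE D / G.deg (dt.xx v) := by
            rw [le_div_iff₀ (by linarith)]
            linarith
          linarith
      by_cases hpx : p = x
      · rw [if_pos hpx] at i2 ⊢
        linarith
      by_cases hpS : p ∈ S0 G D s
      · have h1 : p ∈ (S0 G D s).erase x := Finset.mem_erase.2 ⟨hpx, hpS⟩
        rw [if_pos h1] at i1 ⊢
        linarith
      · have h1 : p ∈ (P0 G (qE D)).erase x :=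
          Finset.mem_erase.2 ⟨hpx, Finset.mem_filter.2 ⟨Finset.mem_univ _, hpoor⟩⟩
        rw [if_pos h1]
        have h2 : D < s + 2 * G.deg p + 2 := by
          by_contra h3
          exact hpS (Finset.mem_filter.2 ⟨Finset.mem_univ _, not_lt.1 h3⟩)
        have h2R : (D : ℝ) + 1 ≤ s + 2 * G.deg p + 2 := by exact_mod_cast h2
        have hmed : (D : ℝ) + 1 ≤ G.deg p + qE D := by linarith
        obtain ⟨-, h4⟩ := hPay V E G D μ dt (qE D) hT v p
        obtain ⟨-, h5, -⟩ := h4 hmed hpoor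
        have h6 : ff D (qE D) (G.deg p) ≤ om D s := by
          unfold ff om
          have h7 : 2 * (D : ℝ) + 2 - 2 * qE D - G.deg p = qE D - G.deg p := by linarith
          rw [h7, div_self (by linarith), one_mul, div_le_div_iff₀ (by linarith) hden]
          have h8 : 0 ≤ (D : ℝ) - qE D := by linarith
          nlinarith
        linarith
    · have h1 : EC2.pay G D (qE D) v p = 0 := by
        unfold EC2.pay
        rw [if_neg fun h => hpoor h.2]
      rw [h1]
      linarith
  unfold QQ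
  refine (Finset.sum_le_sum hbound).trans ?_
  rw [Finset.sum_add_distrib, Finset.sum_add_distrib, sum_ind, sum_ind, sum_ind]
  have h1 : ((G.inc v).filter fun f' => G.opp v f' = x).card ≤ G.mult x v := by
    unfold MGraph.mult
    apply Finset.card_le_card
    intro f' hf'
    obtain ⟨h2, h3⟩ := Finset.mem_filter.1 hf'
    rw [Finset.mem_filter]
    refine ⟨Finset.mem_univ _, ?_⟩
    rw [opp_spec (mem_inc.1 h2), h3, Sym2.eq_swap]
  have h2 : (((G.inc v).filter fun f' => G.opp v f' = x).card : ℝ) ≤ G.mult x v := by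
    exact_mod_cast h1
  have h3 := mul_le_mul_of_nonneg_left h2 hc0
  unfold MGraph.degTo
  linarith

end

end LSM

open LSM in
theorem stLs (hPay : StPay) (hAc : StAc2) : StLs := by
  intro V E _ _ G D μ dt hT hμ w hR hS hs30
  obtain ⟨ac1, ac2, ac3, ac4, ac5, ac6, ac7, ac8, ac9⟩ := hAc V E G D μ dt (qE D) hT w hR hS
  have hQ := qE_eq D
  set x := dt.xx w with hx
  set s := G.deg x with hs
  set Q := qE D with hQdef
  set F := dt.FF w with hF
  set N := F.image (G.opp w) with hN
  have hsR : 3 * (s : ℝ) + 30 ≤ D := by exact_mod_cast hs30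
  have hs1 : (1 : ℝ) ≤ s := by exact_mod_cast deg_pos dt x
  have hQ0 : 0 < Q := by linarith
  have hμ1 : (1 : ℝ) ≤ μ := by exact_mod_cast hμ
  have hden : 0 < (D : ℝ) - s - 3 := by linarith
  have hom0 : 0 ≤ om D s := by
    unfold om
    apply div_nonneg _ hden.le
    linarith
  have hdle : ∀ v, (G.deg v : ℝ) ≤ D := fun v => by exact_mod_cast dt.deg_le v
  set m := mm dt Q w with hm
  set j := jj dt Q w with hj
  set h := G.mult x w with hh
  have hmin0 : 0 < min (s : ℝ) (m + 2) := lt_min (by linarith) (by positivity)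
  have hKK0 : 0 ≤ KK D μ s m := by
    unfold KK
    exact mul_nonneg hQ0.le (le_max_of_le_right zero_le_one)
  -- multiplicities
  let kv : V → ℕ := fun v => (F.filter fun f => G.opp w f = v).card
  have hFinc : ∀ f ∈ F, w ∈ G.ends f := fun f hf => mem_inc.1 ((dt.fan w).sub hf)
  have hkμ : ∀ v, (kv v : ℝ) ≤ μ := by
    intro v
    have h1 : kv v ≤ G.mult w v := by
      apply Finset.card_le_card
      intro f hf
      obtain ⟨h2, h3⟩ := Finset.mem_filter.1 hf
      rw [Finset.mem_filter]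
      refine ⟨Finset.mem_univ _, ?_⟩
      rw [opp_spec (hFinc f h2), h3]
    exact_mod_cast h1.trans (dt.mult_le w v)
  have hk0 : ∀ v, (0 : ℝ) ≤ kv v := fun v => Nat.cast_nonneg _
  -- (2)
  have hK : ∀ v ∈ N, (kv v : ℝ) * (Q / G.deg (dt.xx v)) ≤ KK D μ s m := by
    intro v hv
    obtain ⟨f₀, hf₀, hf₀v⟩ := Finset.mem_image.1 hv
    have hsv1 : (1 : ℝ) ≤ G.deg (dt.xx v) := by exact_mod_cast deg_pos dt (dt.xx v)
    have hmain : ∀ r : ℝ, min (s : ℝ) (m + 2) ≤ r → (kv v : ℝ) * (Q / r) ≤ KK D μ s m := by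
      intro r hr
      have hr0 : 0 < r := hmin0.trans_le hr
      have h1 : (kv v : ℝ) * (Q / r) ≤ μ * (Q / min (s : ℝ) (m + 2)) := by
        apply mul_le_mul (hkμ v) _ (by positivity) (by positivity)
        exact div_le_div_of_nonneg_left hQ0.le hmin0 hr
      refine h1.trans ?_
      unfold KK
      have h2 : (μ : ℝ) * (Q / min (s : ℝ) (m + 2)) = Q * (μ / min (s : ℝ) (m + 2)) := by ring
      rw [h2]
      exact mul_le_mul_of_nonneg_left (le_max_left _ _) hQ0.le
    by_cases hsv : s ≤ G.deg (dt.xx v)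
    · apply hmain
      exact (min_le_left _ _).trans (by exact_mod_cast hsv)
    have hsv' : G.deg (dt.xx v) < s := not_le.1 hsv
    by_cases hex : ∃ f ∈ F, G.opp w f = v ∧ f ∈ dt.FF v
    · obtain ⟨f, hf, hfv, hfF⟩ := hex
      have h1 := (ac9 f hf (by rw [hfv]; exact hfF) (by rw [hfv]; exact hsv')).1
      rw [hfv] at h1
      apply hmain
      refine (min_le_right _ _).trans ?_
      have h2 : m + 2 ≤ G.deg (dt.xx v) := by omega
      exact_mod_cast h2
    · push Not at hex
      have hRv : Q ≤ G.deg v := by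
        rw [← hf₀v]
        exact ac1 f₀ hf₀
      have hSv : Sm dt Q v := by
        unfold Sm
        have h1 : (G.deg (dt.xx v) : ℝ) < s := by exact_mod_cast hsv'
        have h2 : (s : ℝ) + Q < D + 1 := hS
        linarith
      obtain ⟨-, bc2, -⟩ := hAc V E G D μ dt Q hT v hRv hSv
      have h1 : kv v ≤ jj dt Q v := by
        apply Finset.card_le_card
        intro f hf
        obtain ⟨h2, h3⟩ := Finset.mem_filter.1 hf
        have hwf := hFinc f h2
        rw [Finset.mem_filter]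
        refine ⟨mem_inc.2 ?_, hex f h2 h3, ?_⟩
        · rw [← h3]
          exact opp_mem hwf
        · rw [← h3, opp_opp hwf]
          exact hR
      have h2 : kv v ≤ G.deg (dt.xx v) := by omega
      have h2R : (kv v : ℝ) ≤ G.deg (dt.xx v) := by exact_mod_cast h2
      have h3 : (kv v : ℝ) * (Q / G.deg (dt.xx v)) ≤ Q := by
        rw [mul_div_assoc', div_le_iff₀ (by linarith)]
        nlinarith
      refine h3.trans ?_
      unfold KK
      have h4 := mul_le_mul_of_nonneg_left (le_max_right (μ / min (s : ℝ) (m + 2)) 1) hQ0.le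
      linarith
  -- rewrite the sum
  have hsum : ∑ f ∈ F, ((D : ℝ) - Q - capa G D Q (G.opp w f)) =
      ∑ v ∈ N, (kv v : ℝ) * (((D : ℝ) - G.deg v) + QQ G D Q v) := by
    rw [Finset.sum_comp (fun v => (D : ℝ) - Q - capa G D Q v) (G.opp w)]
    refine Finset.sum_congr rfl fun v _ => ?_
    rw [nsmul_eq_mul]
    congr 1
    unfold capa
    ring
  rw [hsum]
  have hterm : ∀ v ∈ N, (kv v : ℝ) * (((D : ℝ) - G.deg v) + QQ G D Q v) ≤
      μ * (((D - G.deg v : ℕ)) : ℝ) + KK D μ s m *
        ((G.degTo v ((S0 G D s).erase x) : ℝ) + G.mult x v) +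
      kv v * (om D s * ((j : ℝ) - 1 + h)) := by
    intro v hv
    have h1 := QQ_le hPay dt hT s hs30 v x
    have h2 : (kv v : ℝ) * ((D : ℝ) - G.deg v) ≤ μ * ((D - G.deg v : ℕ) : ℝ) := by
      rw [Nat.cast_sub (dt.deg_le v)]
      exact mul_le_mul_of_nonneg_right (hkμ v) (by linarith [hdle v])
    have h3 : (0 : ℝ) ≤ (G.degTo v ((S0 G D s).erase x) : ℝ) + G.mult x v := by positivity
    have h4 := mul_le_mul_of_nonneg_right (hK v hv) h3
    have h5 := ac5 v hv
    have h5R : (G.degTo v ((P0 G Q).erase x) : ℝ) + 1 ≤ j + h := by exact_mod_cast h5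
    have h6 : om D s * (G.degTo v ((P0 G Q).erase x) : ℝ) ≤ om D s * ((j : ℝ) - 1 + h) :=
      mul_le_mul_of_nonneg_left (by linarith) hom0
    have h7 := mul_le_mul_of_nonneg_left (h1.trans (add_le_add_right h6 _)) (hk0 v)
    have h8 : (kv v : ℝ) * (((D : ℝ) - G.deg v) + QQ G D Q v) =
        (kv v : ℝ) * ((D : ℝ) - G.deg v) + kv v * QQ G D Q v := by ring
    rw [h8]
    have h9 : (kv v : ℝ) * (Q / G.deg (dt.xx v) *
      ((G.degTo v ((S0 G D s).erase x) : ℝ) + G.mult x v) + om D s * ((j : ℝ) - 1 + h)) =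
      (kv v : ℝ) * (Q / G.deg (dt.xx v)) *
      ((G.degTo v ((S0 G D s).erase x) : ℝ) + G.mult x v) + kv v * (om D s * ((j : ℝ) - 1 + h)) := by
      ring
    linarith
  refine (Finset.sum_le_sum hterm).trans ?_
  rw [Finset.sum_add_distrib, Finset.sum_add_distrib, ← Finset.mul_sum, ← Finset.mul_sum,
    ← Finset.sum_mul]
  have hksum : ∑ v ∈ N, (kv v : ℝ) = (D : ℝ) + 1 - s := by
    have h1 : ∑ v ∈ N, kv v = F.card := by
      rw [hN]
      exact (Finset.card_eq_sum_card_image (G.opp w) F).symm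
    have h2 := (dt.fan w).card_eq
    have h3 : (F.card : ℝ) + s = D + 1 := by exact_mod_cast h2
    have h4 : ∑ v ∈ N, (kv v : ℝ) = (F.card : ℝ) := by exact_mod_cast h1
    linarith
  have hS1 : ∑ v ∈ N, ((D - G.deg v : ℕ) : ℝ) ≤ (s : ℝ) - 2 - ((D : ℝ) - G.deg w) := by
    have h1 : (∑ v ∈ N, ((D - G.deg v : ℕ) : ℝ)) + 2 + ((D - G.deg w : ℕ) : ℝ) ≤ s := by
      exact_mod_cast ac8
    rw [Nat.cast_sub (dt.deg_le w)] at h1
    linarith
  have hS2 : ∑ v ∈ N, ((G.degTo v ((S0 G D s).erase x) : ℝ) + G.mult x v) ≤ (s : ℝ) + j - 1 := by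
    rw [Finset.sum_add_distrib]
    have h1 : ∑ v ∈ N, (G.degTo v ((S0 G D s).erase x) : ℝ) + 1 ≤ j + h := by exact_mod_cast ac6
    have h2 : ∑ v ∈ N, (G.mult x v : ℝ) + h ≤ s := by exact_mod_cast ac7
    linarith
  have h1 := mul_le_mul_of_nonneg_left hS1 (by linarith : (0 : ℝ) ≤ μ)
  have h2 := mul_le_mul_of_nonneg_left hS2 hKK0
  rw [hksum]
  have h3 : ((D : ℝ) + 1 - s) * (om D s * ((j : ℝ) - 1 + h)) =
      ((D : ℝ) + 1 - s) * om D s * ((j : ℝ) - 1 + h) := by ring
  rw [h3]
  linarith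

end Pool.Agent.Helper82.EC3
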