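import Pool.Agent.Helper82.EC3.GM
import Pool.Agent.Helper82.EC2.StN

/-!
# MP_47b98d_co, third generation: statements
-/

set_option autoImplicit false

open Finset
open scoped Classical

namespace Pool.Agent.Helper82.EC3

open EC EC.MGraph EC2

/-! ## Part A: Kempe changes -/

/-- exchange the colours `a` and `b` on the edges with an end in `P` -/
noncomputable def swapP {V E : Type} (G : MGraph V E) {D : ℕ} (φ : E → Option (Fin D))
    (a b : Fin D) (P : V → Prop) : E → Option (Fin D) :=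
  fun e => if ∃ v ∈ G.ends e, P v then (φ e).map (Equiv.swap a b) else φ e

/-- Kempe change on a union of components -/
def StSwP : Prop := ∀ (V E : Type) (G : MGraph V E) (D : ℕ) (φ : E → Option (Fin D)) (a b : Fin D)
  (P : V → Prop), (∀ u v, (G.KG φ a b).Adj u v → (P u ↔ P v)) → G.Proper φ →
    G.Proper (swapP G φ a b P) ∧ (∀ f, swapP G φ a b P f = none ↔ φ f = none) ∧
    (∀ v c, P v → (G.Miss (swapP G φ a b P) v c ↔ G.Miss φ v (Equiv.swap a b c))) ∧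
    (∀ v c, ¬ P v → (G.Miss (swapP G φ a b P) v c ↔ G.Miss φ v c))

/-- the instruction `win` is sound -/
def StWin : Prop := ∀ (c : Cfg) (V E : Type) [Fintype V] [Fintype E] (G : MGraph V E) (D : ℕ)
  (T : ℕ → V) (te : ℕ → E), Pos c G D T te → ∀ (φ : E → Option (Fin D)) (C : List (Fin D))
    (m a : List ℕ), Ok c G D T te φ C m → winOk c m a = true → False

/-- a fresh colour -/
def StFresh : Prop := ∀ (c : Cfg) (V E : Type) [Fintype V] [Fintype E] (G : MGraph V E) (D : ℕ)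
  (T : ℕ → V) (te : ℕ → E), Pos c G D T te → ∀ (φ : E → Option (Fin D)) (C : List (Fin D))
    (m : List ℕ), Ok c G D T te φ C m → m.length < c.cap →
      ∃ γ : Fin D, Ok c G D T te φ (C ++ [γ]) (m ++ [c.light])

/-- a reference to an earlier entry of the table is sound -/
def StRef : Prop := ∀ (c : Cfg) (V E : Type) [Fintype V] [Fintype E] (G : MGraph V E) (D : ℕ)
  (T : ℕ → V) (te : ℕ → E) (φ : E → Option (Fin D)) (C : List (Fin D)) (cur p : List ℕ)
  (tab : List (List ℕ)) (j : ℕ), Ok c G D T te φ C cur → refOk tab j p cur = true →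
    ∃ C' : List (Fin D), Ok c G D T te φ C' (tab.getD j [])

/-- decision trees are sound -/
def StRev : Prop := ∀ (c : Cfg) (V E : Type) [Fintype V] [Fintype E] (G : MGraph V E) (D : ℕ)
  (T : ℕ → V) (te : ℕ → E), Pos c G D T te → ∀ (φ : E → Option (Fin D)) (C : List (Fin D))
    (cur : List ℕ) (x y : ℕ) (tab : List (List ℕ)) (r : Rev), Ok c G D T te φ C cur →
      x ≠ y → x < cur.length → y < cur.length → revOk c.n tab cur x y [] [] r = true →
        ∃ (ψ : E → Option (Fin D)) (C' : List (Fin D)) (j : ℕ), j < tab.length ∧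
          Ok c G D T te ψ C' (tab.getD j [])

/-- uncolouring some edges -/
def StIni : Prop := ∀ (V E : Type) (G : MGraph V E) (D : ℕ) (φ : E → Option (Fin D)) (e : E)
  (x y : V), G.Crit D φ e x y → ∀ (K : ℕ) (te : ℕ → E), (∃ k, k < K ∧ te k = e) →
    ∃ ψ : E → Option (Fin D), G.Proper ψ ∧ (∀ f, ψ f = none ↔ ∃ k, k < K ∧ f = te k) ∧
      (∀ v c, G.Miss φ v c → G.Miss ψ v c) ∧
      (∀ k, k < K → ∀ v ∈ G.ends (te k), ∀ c, φ (te k) = some c → G.Miss ψ v c)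

/-- fork lemma, different light vertices -/
def StLAd : Prop := ∀ (V E : Type) [Fintype V] [Fintype E] (G : MGraph V E) (D : ℕ)
  (φ : E → Option (Fin D)) (e : E) (x y : V), G.Crit D φ e x y → G.deg y ≤ D →
    ∀ (β γ τ₁ τ₂ : Fin D) (f g h₁ h₂ : E) (v w t₁ t₂ : V), G.Miss φ x β → G.ends f = s(y, v) →
      φ f = some β → G.Miss φ x γ → G.ends g = s(v, w) → φ g = some γ → w ≠ x → w ≠ y →
      G.Miss φ x τ₁ → G.Miss φ x τ₂ → G.ends h₁ = s(w, t₁) → φ h₁ = some τ₁ →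
      G.ends h₂ = s(w, t₂) → φ h₂ = some τ₂ → t₁ ≠ t₂ → t₁ ≠ x → t₁ ≠ y → t₁ ≠ v → t₂ ≠ x →
      t₂ ≠ y → t₂ ≠ v → G.deg x + G.deg t₁ + G.deg t₂ + 6 ≤ D → False

/-- fork lemma, one light vertex -/
def StLAs : Prop := ∀ (V E : Type) [Fintype V] [Fintype E] (G : MGraph V E) (D : ℕ)
  (φ : E → Option (Fin D)) (e : E) (x y : V), G.Crit D φ e x y → G.deg y ≤ D →
    ∀ (β γ τ₁ τ₂ : Fin D) (f g h₁ h₂ : E) (v w t : V), G.Miss φ x β → G.ends f = s(y, v) →
      φ f = some β → G.Miss φ x γ → G.ends g = s(v, w) → φ g = some γ → w ≠ x → w ≠ y →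
      G.Miss φ x τ₁ → G.Miss φ x τ₂ → G.ends h₁ = s(w, t) → φ h₁ = some τ₁ →
      G.ends h₂ = s(w, t) → φ h₂ = some τ₂ → h₁ ≠ h₂ → t ≠ x → t ≠ y → t ≠ v →
      G.deg x + G.deg t + 6 ≤ D → False

/-- the label `c` at the light vertex `t` is linked to `x` -/
def Lk {V E : Type} (G : MGraph V E) {D : ℕ} (φ : E → Option (Fin D)) (x t : V) (c : Fin D) : Prop :=
  ∃ Z : Finset (Fin D), Z.card ≤ 5 ∧ ∀ n, n ∉ Z → G.Miss φ x n → G.Miss φ t n →
    (G.KG φ c n).Reachable t x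

/-- labels at `y` are linked -/
def StLk1 : Prop := ∀ (V E : Type) [Fintype V] [Fintype E] (G : MGraph V E) (D : ℕ)
  (φ : E → Option (Fin D)) (e : E) (x y : V), G.Crit D φ e x y → G.deg y ≤ D →
    ∀ (c : Fin D) (k : E) (t : V), G.ends k = s(y, t) → φ k = some c → t ≠ x →
      G.deg x + G.deg t ≤ D → Lk G φ x t c

/-- at a second neighbour at most one label is not linked -/
def StLk2 : Prop := ∀ (V E : Type) [Fintype V] [Fintype E] (G : MGraph V E) (D : ℕ)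
  (φ : E → Option (Fin D)) (e : E) (x y : V), G.Crit D φ e x y → G.deg y ≤ D →
    ∀ (β γ c₁ c₂ : Fin D) (f g h₁ h₂ : E) (v w t₁ t₂ : V), G.Miss φ x β → G.ends f = s(y, v) →
      φ f = some β → G.Miss φ x γ → G.ends g = s(v, w) → φ g = some γ → w ≠ x → w ≠ y →
      G.ends h₁ = s(w, t₁) → φ h₁ = some c₁ → G.ends h₂ = s(w, t₂) → φ h₂ = some c₂ → h₁ ≠ h₂ →
      t₁ ≠ x → t₁ ≠ y → t₁ ≠ v → t₂ ≠ x → t₂ ≠ y → t₂ ≠ v →
      G.deg x + G.deg t₁ + G.deg t₂ + 6 ≤ D → ¬ Lk G φ x t₁ c₁ → Lk G φ x t₂ c₂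

/-- a linked label is missing neither at `x` nor at `y` -/
def StLk3 : Prop := ∀ (V E : Type) [Fintype V] [Fintype E] (G : MGraph V E) (D : ℕ)
  (φ : E → Option (Fin D)) (e : E) (x y : V), G.Crit D φ e x y →
    ∀ (c : Fin D) (t : V), t ≠ x → t ≠ y → G.deg x + G.deg t + 5 ≤ D → Lk G φ x t c →
      ¬ G.Miss φ x c ∧ ¬ G.Miss φ y c

/-- two different light vertices have different linked labels -/
def StLk4 : Prop := ∀ (V E : Type) [Fintype V] [Fintype E] (G : MGraph V E) (D : ℕ)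
  (φ : E → Option (Fin D)) (e : E) (x y : V), G.Crit D φ e x y →
    ∀ (c : Fin D) (t₁ t₂ : V), t₁ ≠ t₂ → t₁ ≠ x → t₁ ≠ y → t₂ ≠ x → t₂ ≠ y →
      G.deg x + G.deg t₁ + G.deg t₂ + 10 ≤ D → Lk G φ x t₁ c → Lk G φ x t₂ c → False

/-- the edges at `y` whose colour is missing at `x` -/
noncomputable def fanSet {V E : Type} [Fintype E] (G : MGraph V E) {D : ℕ}
    (φ : E → Option (Fin D)) (x y : V) : Finset E :=
  (G.inc y).filter fun f => ∃ β, G.Miss φ x β ∧ φ f = some β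

/-- the fan lemma for `fanSet` -/
def StFanX : Prop := ∀ (V E : Type) [Fintype V] [Fintype E] (G : MGraph V E) (D : ℕ),
  CritG G D → ∀ (φ : E → Option (Fin D)) (e : E) (x y : V), G.Crit D φ e x y →
    Fan G D e x y (fanSet G φ x y)

/-- the master inequality -/
def Fan3 {V E : Type} [Fintype V] [Fintype E] (G : MGraph V E) (D : ℕ) (x y : V)
    (F : Finset E) : Prop :=
  ∀ v ∈ F.image (G.opp y), ∃ B : Finset E, B ⊆ G.inc v ∧ B.card + 1 ≤ G.deg x ∧
    ∀ S W : Finset V, (∀ p ∈ S, ∀ q ∈ S, G.deg x + G.deg p + G.deg q + 10 ≤ D) → x ∉ W → y ∉ W →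
      (∀ w ∈ W, ∃ g, g ∉ B ∧ G.ends g = s(v, w)) →
        ∑ w ∈ W, (G.degTo w (S.erase x) - 1) + G.degTo y (S.erase x) + (D - G.deg y) + 2 ≤ G.deg x

/-- the master inequality for `fanSet` -/
def StMI : Prop := ∀ (V E : Type) [Fintype V] [Fintype E] (G : MGraph V E) (D : ℕ),
  (∀ v, G.deg v ≤ D) → ∀ (φ : E → Option (Fin D)) (e : E) (x y : V), G.Crit D φ e x y →
    Fan G D e x y (fanSet G φ x y) → Fan3 G D x y (fanSet G φ x y)

/-! ## Part B: discharging -/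

section
variable {V E : Type} [Fintype V] [Fintype E] {G : MGraph V E} {D μ : ℕ}

/-- debtors -/
def Deb (dt : Data G D μ) (Q : ℝ) (w : V) : Prop :=
  Q ≤ G.deg w ∧ Sm dt Q w ∧ spare dt Q w < 0

/-- the edges over which debtors ask `u` for help -/
noncomputable def Ask (dt : Data G D μ) (Q : ℝ) (u : V) : Finset E :=
  (G.inc u).filter fun f => Deb dt Q (G.opp u f) ∧ f ∈ dt.FF (G.opp u f)

/-- the smallest minimum neighbour degree of a debtor that asks `u` -/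
noncomputable def s0 (dt : Data G D μ) (Q : ℝ) (u : V) : ℕ :=
  sInf {k | ∃ f ∈ Ask dt Q u, k = G.deg (dt.xx (G.opp u f))}

/-- a debtor for which the simple rule may not be sufficient asks `u` -/
def Hot (dt : Data G D μ) (Q : ℝ) (u : V) : Prop :=
  ∃ f ∈ Ask dt Q u, ¬ Good D μ Q (G.deg (dt.xx (G.opp u f)))

/-- what `u` has after its payments -/
noncomputable def capa (G : MGraph V E) (D : ℕ) (Q : ℝ) (u : V) : ℝ :=
  (G.deg u : ℝ) - Q - QQ G D Q u

/-- upper bound for the number of the edges in `Ask` -/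
noncomputable def Nst (dt : Data G D μ) (Q : ℝ) (u : V) : ℝ := 3 * (μ : ℝ) + s0 dt Q u - 1

/-- `u` is asked by a debtor in need and has much left -/
def Strong (dt : Data G D μ) (Q : ℝ) (u : V) : Prop :=
  Hot dt Q u ∧ al D Q * Nst dt Q u ≤ capa G D Q u

/-- what the vertex `w` gets over the edge `f ∈ FF w` -/
noncomputable def tau3 (dt : Data G D μ) (Q : ℝ) (w : V) (f : E) : ℝ :=
  if Strong dt Q (G.opp w f) then capa G D Q (G.opp w f) / Nst dt Q (G.opp w f) else tau dt Q w f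

end

/-- a debtor has many small neighbours; `S` contains all small vertices except possibly the vertex
`a`, and `deg w` has minimum neighbour degree at least `deg a` -/
def StMany : Prop := ∀ (V E : Type) [Fintype V] [Fintype E] (G : MGraph V E) (D μ : ℕ)
  (dt : Data G D μ) (Q : ℝ), Thr D Q → 3 * Q = 2 * (D : ℝ) + 2 → ∀ w a : V, Deb dt Q w →
    ∀ S : Finset V, (∀ p, (G.deg p : ℝ) + Q < D + 1 → p = a ∨ p ∈ S) →
      G.deg (dt.xx w) + 1 ≤ 2 * (G.degTo w (S.erase a) + G.mult a w)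

/-- few edges ask -/
def StH1 : Prop := ∀ (V E : Type) [Fintype V] [Fintype E] (G : MGraph V E) (D μ : ℕ)
  (dt : Data G D μ), (∀ u, Fan3 G D (dt.xx u) u (dt.FF u)) → Thr D (qE D) → ∀ (b u : V) (f₀ : E),
    Deb dt (qE D) b → f₀ ∈ dt.FF b → G.opp b f₀ = u →
    (∀ f ∈ Ask dt (qE D) u, G.deg (dt.xx b) ≤ G.deg (dt.xx (G.opp u f))) →
    3 * G.deg (dt.xx b) + 30 ≤ D →
      (Ask dt (qE D) u).card + 1 ≤ 3 * μ + G.deg (dt.xx b)

/-- `2 (D - Q) / (D - s - 3)` -/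
noncomputable def om (D : ℕ) (s : ℝ) : ℝ := 2 * ((D : ℝ) - qE D) / ((D : ℝ) - s - 3)

/-- bound for the loss on the edges to one vertex, per small label -/
noncomputable def KK (D : ℕ) (μ s m : ℝ) : ℝ := qE D * max (μ / min s (m + 2)) 1

/-- the sum of all losses at the fan neighbours of `w` -/
def StLs : Prop := ∀ (V E : Type) [Fintype V] [Fintype E] (G : MGraph V E) (D μ : ℕ)
  (dt : Data G D μ), Thr D (qE D) → 1 ≤ μ → ∀ w : V, qE D ≤ G.deg w → Sm dt (qE D) w →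
    3 * G.deg (dt.xx w) + 30 ≤ D →
    ∑ f ∈ dt.FF w, ((D : ℝ) - qE D - capa G D (qE D) (G.opp w f)) ≤
      μ * ((G.deg (dt.xx w) : ℝ) - 2 - ((D : ℝ) - G.deg w)) +
      KK D μ (G.deg (dt.xx w)) (mm dt (qE D) w) *
        ((G.deg (dt.xx w) : ℝ) + jj dt (qE D) w - 1) +
      ((D : ℝ) + 1 - G.deg (dt.xx w)) * om D (G.deg (dt.xx w)) *
        ((jj dt (qE D) w : ℝ) - 1 + G.mult (dt.xx w) w)

/-- the numerical inequality -/
def StNC : Prop := ∀ D μ s m j t w : ℕ, 240 ≤ D → 20 * μ ≤ D → 4 * s < 9 * μ →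
  m + j + t + 1 = s → 1 ≤ w → w ≤ m → w ≤ μ → 0 < EE D (qE D) s m j t →
  μ * ((s : ℝ) - 2 - t) + KK D μ s m * ((s : ℝ) + j - 1) +
      ((D : ℝ) + 1 - s) * om D s * ((j : ℝ) - 1 + w) ≤
    (1 - (3 * (μ : ℝ) + s - 1) / D) * (((D : ℝ) + 1 - s) * ((D : ℝ) - qE D) -
      (3 * (μ : ℝ) + s - 1) * EE D (qE D) s m j t)

/-- the four inequalities to which `StNC` reduces -/
def StNC4 : Prop := ∀ D M s Q a R : ℝ, 240 ≤ D → 1 ≤ M → 20 * M ≤ D → 1 ≤ s → 4 * s ≤ 9 * M →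
  3 * Q = 2 * D + 2 → 3 * a = D - 2 → R * D = 3 * M + s - 1 →
    M * s + Q * (2 * s - 4 + M) + s - 4 + 2 * M ≤ (1 - R) * ((D + 1 - s) * a) ∧
    M * s + Q * (s - 4 + M) + 2 * (M - 2) ≤
      (1 - R) * ((D + 1 - s) * a - R * D * (a + 1 - s)) ∧
    (s ≤ 2 * M →
      M * s + 3 * Q * M + (Q + 2) * (s - 2) ≤ (1 - R) * ((D + 1 - s) * a) ∧
      M * s + Q * M + (Q + 2) * (s - 2) ≤
        (1 - R) * ((D + 1 - s) * a - R * D * (a + 1 - s)))

/-- a debtor in need gets enough -/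
def StBad : Prop := ∀ (V E : Type) [Fintype V] [Fintype E] (G : MGraph V E) (D μ : ℕ)
  (dt : Data G D μ), Thr D (qE D) → 240 ≤ D → 20 * μ ≤ D → 1 ≤ μ → ∀ w : V,
    Deb dt (qE D) w → ¬ Good D μ (qE D) (G.deg (dt.xx w)) → 4 * G.deg (dt.xx w) < 9 * μ →
      0 ≤ spare dt (qE D) w + ∑ f ∈ dt.FF w, tau3 dt (qE D) w f

/-- strong vertices give at least as much as with the simple rule -/
def StGe : Prop := ∀ (V E : Type) [Fintype V] [Fintype E] (G : MGraph V E) (D μ : ℕ)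
  (dt : Data G D μ), Thr D (qE D) → 20 * μ ≤ D → 1 ≤ μ →
    (∀ s : ℕ, 3 * s ≤ D → 9 * μ ≤ 4 * s → Good D μ (qE D) s) → ∀ w : V, Deb dt (qE D) w →
      ∀ f ∈ dt.FF w, tau dt (qE D) w f ≤ tau3 dt (qE D) w f

/-- the whole discharging -/
def StSum3 : Prop := ∀ (V E : Type) [Fintype V] [Fintype E] (G : MGraph V E) (D μ : ℕ)
  (dt : Data G D μ), (∀ u, Fan3 G D (dt.xx u) u (dt.FF u)) → Thr D (qE D) → 240 ≤ D →
    20 * μ ≤ D → 1 ≤ μ → (∀ s : ℕ, 3 * s ≤ D → 9 * μ ≤ 4 * s → Good D μ (qE D) s) →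
      0 ≤ ∑ v : V, ((G.deg v : ℝ) - qE D)

end Pool.Agent.Helper82.EC3
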